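import Pool.Agent.Lib.MP_f00570_lc.Iface

/-!
# Hulls, a criterion for properness, PFA for small preorders, closure points
-/

namespace Pool.Agent.Lib.MP_f00570_lc

open Pool.Agent.Lib.MP_f9eb18_lc Pool.Agent.Lib.MP_f9eb18_lc.W Ordinal ZFSet

/-- the least superset of `s` closed under `f` -/
def hull {α : Type*} (f : List α → Set α) (s : Set α) : Set α := ⋂₀ {Q | s ⊆ Q ∧ Closed f Q}

theorem subset_hull {α : Type*} (f : List α → Set α) (s : Set α) : s ⊆ hull f s :=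
  fun _ hx _ hQ => hQ.1 hx

theorem hull_min {α : Type*} {f : List α → Set α} {s Q : Set α} (h : s ⊆ Q) (hQ : Closed f Q) :
    hull f s ⊆ Q := fun _ hx => hx Q ⟨h, hQ⟩

theorem closed_hull {α : Type*} (f : List α → Set α) (s : Set α) : Closed f (hull f s) :=
  fun l hl _ hy Q hQ => hQ.2 l (fun x hx => hl x hx Q hQ) hy

theorem a0_list {α : Type*} {H : ℕ → Set α} (hH : Monotone H) (l : List α)
    (hl : ∀ x ∈ l, x ∈ ⋃ n, H n) : ∃ n, ∀ x ∈ l, x ∈ H n := by
  induction l with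
  | nil => exact ⟨0, by simp⟩
  | cons a l ih =>
    obtain ⟨n, hn⟩ := ih fun x hx => hl x (List.mem_cons_of_mem _ hx)
    obtain ⟨k, hk⟩ := Set.mem_iUnion.1 (hl a List.mem_cons_self)
    refine ⟨max n k, fun x hx => ?_⟩
    rcases List.mem_cons.1 hx with rfl | hx
    · exact hH (le_max_right _ _) hk
    · exact hH (le_max_left _ _) (hn x hx)

theorem a0_lift {α : Type*} {s : Set α} (l : List α) (hl : ∀ x ∈ l, x ∈ s) :
    ∃ l' : List s, l'.map Subtype.val = l :=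
  ⟨l.attachWith (· ∈ s) hl, by simp⟩

theorem hull_countable {α : Type*} {f : List α → Set α} {s : Set α} (hf : ∀ l, (f l).Countable)
    (hs : s.Countable) : (hull f s).Countable := by
  let H : ℕ → Set α := fun n =>
    Nat.rec s (fun _ t => t ∪ ⋃ l' : List t, f (l'.map Subtype.val)) n
  have hc : ∀ n, (H n).Countable := by
    intro n
    induction n with
    | zero => exact hs
    | succ n ih =>
      have := ih.to_subtype
      exact ih.union (Set.countable_iUnion fun _ => hf _)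
  have hm : Monotone H := monotone_nat_of_le_succ fun _ => Set.subset_union_left
  refine (Set.countable_iUnion hc).mono (hull_min (Set.subset_iUnion H 0) fun l hl y hy => ?_)
  obtain ⟨n, hn⟩ := a0_list hm l hl
  obtain ⟨l', rfl⟩ := a0_lift l hn
  exact Set.mem_iUnion.2 ⟨n + 1, Or.inr (Set.mem_iUnion.2 ⟨l', hy⟩)⟩

theorem proper_of_closure {P α : Type*} [Preorder P] (X : Set α) (supp : P → Set α)
    (hfin : ∀ p, (supp p).Finite) (hX : ∀ p, supp p ⊆ X)
    (hcnt : ∀ H : Set α, H.Countable → {q | supp q ⊆ H}.Countable)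
    (op0 : List α → Set α) (op : Set P → List α → Set α)
    (h0 : ∀ l, (op0 l).Countable) (h1 : ∀ D l, (op D l).Countable)
    (c0 : Closed op0 X) (c1 : ∀ D, Closed (op D) X)
    (h : ∀ Q : Set α, Q.Countable → Q ⊆ X → Closed op0 Q → ∀ p, supp p ⊆ Q →
      ∃ q ≤ p, ∀ D, IsDense D → Closed (op D) Q → Predense (D ∩ {r | supp r ⊆ Q}) q) :
    Proper P := by
  intro p
  let F : List (Set P) → List α → Set α := fun ls l => op0 l ∪ ⋃ D ∈ {D | D ∈ ls}, op D l
  have hF : ∀ ls l, (F ls l).Countable := fun ls l =>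
    (h0 l).union ((List.finite_toSet ls).countable.biUnion fun D _ => h1 D l)
  have hc : ∀ ls, (hull (F ls) (supp p)).Countable := fun ls =>
    hull_countable (hF ls) (hfin p).countable
  refine ⟨fun ls => {q | supp q ⊆ hull (F ls) (supp p)}, fun ls => hcnt _ (hc ls), fun D hD => ?_⟩
  let H : ℕ → Set α := fun n => hull (F ((List.range (n + 1)).map D)) (supp p)
  have hm : Monotone H := by
    intro n k hnk
    refine hull_min (subset_hull _ _) fun l hl => Set.Subset.trans ?_ (closed_hull _ _ l hl)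
    refine Set.union_subset_union_right _ (Set.biUnion_subset_biUnion_left fun E hE => ?_)
    obtain ⟨j, hj, rfl⟩ := List.mem_map.1 hE
    exact List.mem_map.2 ⟨j, List.mem_range.2 ((List.mem_range.1 hj).trans_le (by omega)), rfl⟩
  obtain ⟨q, hq, hq'⟩ := h (⋃ n, H n) (Set.countable_iUnion fun n => hc _)
    (Set.iUnion_subset fun n => hull_min (hX p) fun l hl =>
      Set.union_subset (c0 l hl) (Set.iUnion₂_subset fun E _ => c1 E l hl))
    (fun l hl => by
      obtain ⟨n, hn⟩ := a0_list hm l hl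
      exact (Set.subset_union_left.trans (closed_hull _ _ l hn)).trans (Set.subset_iUnion H n))
    p ((subset_hull _ _).trans (Set.subset_iUnion H 0))
  refine ⟨q, hq, fun k r hr => ?_⟩
  have hk : Closed (op (D k)) (⋃ n, H n) := by
    intro l hl
    obtain ⟨n, hn⟩ := a0_list hm l hl
    have h2 := closed_hull _ _ l fun x hx => hm (le_max_left n k) (hn x hx)
    refine Set.Subset.trans ?_ (h2.trans (Set.subset_iUnion H (max n k)))
    refine Set.Subset.trans ?_ Set.subset_union_right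
    exact Set.subset_biUnion_of_mem (u := fun E => op E l)
      (List.mem_map.2 ⟨k, List.mem_range.2 (by omega), rfl⟩)
  obtain ⟨a, ⟨ha, ha'⟩, s, hs⟩ := hq' (D k) (hD k) hk r hr
  obtain ⟨n, hn⟩ := a0_list hm (hfin a).toFinset.toList fun x hx => ha' (by simpa using hx)
  exact ⟨a, ⟨ha, Set.mem_iUnion.2 ⟨n, fun x hx => hn x (by simpa using hx)⟩⟩, s, hs⟩

theorem a0_dense {P P' : Type*} [Preorder P] [Preorder P'] (e : P ≃o P') {D : Set P'}
    (hD : IsDense D) : IsDense (e ⁻¹' D) := fun p => by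
  obtain ⟨q, hq, hqp⟩ := hD (e p)
  exact ⟨e.symm q, by simpa using hq, e.symm_apply_le.2 hqp⟩

theorem a0_proper {P P' : Type*} [Preorder P] [Preorder P'] (e : P ≃o P') (hP : Proper P) :
    Proper P' := by
  intro p
  obtain ⟨σ, hσ, h⟩ := hP (e.symm p)
  refine ⟨fun ls => e '' σ (ls.map fun D => e ⁻¹' D), fun ls => (hσ _).image _, fun D hD => ?_⟩
  obtain ⟨q, hq, hq'⟩ := h (fun n => e ⁻¹' D n) fun n => a0_dense e (hD n)
  refine ⟨e q, e.le_symm_apply.1 hq, fun k r hr => ?_⟩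
  obtain ⟨a, ⟨ha, ha'⟩, s, hs, hs'⟩ := hq' k (e.symm r) (e.symm_apply_le.2 hr)
  obtain ⟨n, hn⟩ := Set.mem_iUnion.1 ha'
  refine ⟨e a, ⟨ha, Set.mem_iUnion.2 ⟨n, a, ?_, rfl⟩⟩, e s, e.le_symm_apply.1 hs, e.monotone hs'⟩
  rw [List.map_map]
  exact hn

theorem PFA.small (h : PFA) (P : Type 1) [Preorder P] [Nonempty P] [Small.{0} P] (hP : Proper P)
    {ι : Type 1} (hι : Cardinal.mk ι ≤ Cardinal.aleph 1) (D : ι → Set P)
    (hD : ∀ i, IsDense (D i)) :
    ∃ G : Set P, (∀ p ∈ G, ∀ q ∈ G, ∃ r ∈ G, r ≤ p ∧ r ≤ q) ∧ ∀ i, (G ∩ D i).Nonempty := by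
  let e := orderIsoShrink.{0} P
  have : Nonempty (Shrink.{0} P) := ⟨e (Classical.arbitrary P)⟩
  obtain ⟨j⟩ : Nonempty (ι ↪ O) := Cardinal.lift_mk_le'.1 (by simpa using hι)
  obtain ⟨G, h1, -, h3⟩ := h (Shrink.{0} P) (a0_proper e hP)
    (fun o => {x | ∀ i, j i = o → e.symm x ∈ D i}) (by
      intro o p
      by_cases ho : ∃ i, j i = o
      · obtain ⟨i, rfl⟩ := ho
        obtain ⟨q, hq, hqp⟩ := a0_dense e.symm (hD i) p
        exact ⟨q, fun i' hi' => by rw [j.injective hi']; exact hq, hqp⟩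
      · exact ⟨p, fun i hi => (ho ⟨i, hi⟩).elim, le_rfl⟩)
  refine ⟨e ⁻¹' G, fun p hp q hq => ?_, fun i => ?_⟩
  · obtain ⟨r, hr, hrp, hrq⟩ := h1 _ hp _ hq
    exact ⟨e.symm r, by simpa using hr, e.symm_apply_le.2 hrp, e.symm_apply_le.2 hrq⟩
  · obtain ⟨x, hx, hx'⟩ := h3 (j i)
    exact ⟨e.symm x, by simpa using hx, hx' i rfl⟩

theorem a0_next (g : List V → Set V) (hg : ∀ l, (g l).Countable) (β : Ordinal.{0}) :
    ∃ γ : Ordinal.{0}, β < γ ∧ ∀ l, (∀ x ∈ l, x.rank < β) → ∀ y ∈ g l, y.rank < γ := by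
  have h1 : ∀ l, Small.{0} (g l) := fun l => by
    have := (hg l).to_subtype
    infer_instance
  let A : Set V := (vonNeumann β : V)
  have h2 : Small.{0} A := small_coe _
  obtain ⟨γ, hγ⟩ := Ordinal.bddAbove_of_small
    (s := ZFSet.rank '' ⋃ l' : List A, g (l'.map Subtype.val))
  refine ⟨max β γ + 1, Order.lt_add_one_iff.2 (le_max_left _ _), fun l hl y hy => ?_⟩
  obtain ⟨l', rfl⟩ := a0_lift (s := A) l fun x hx => mem_vonNeumann.2 (hl x hx)
  exact Order.lt_add_one_iff.2 ((hγ ⟨y, Set.mem_iUnion.2 ⟨l', hy⟩, rfl⟩).trans (le_max_right _ _))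

theorem exists_theta (g : List V → Set V) (hg : ∀ l, (g l).Countable) (α : Ordinal.{0}) :
    ∃ θ : Ordinal.{0}, α < θ ∧ Closed g {x | x.rank < θ} ∧
      ∀ s : Set V, s.Countable → (∀ x ∈ s, x.rank < θ) → ∃ β < θ, ∀ x ∈ s, x.rank < β := by
  choose F hF hF' using a0_next g hg
  let t : Ordinal.{0} → Ordinal.{0} := WellFoundedLT.fix fun ξ ih =>
    max (α + 1) (⨆ η : Set.Iio ξ, F (ih η.1 η.2))
  have ht : ∀ ξ, t ξ = max (α + 1) (⨆ η : Set.Iio ξ, F (t η.1)) := fun ξ =>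
    WellFoundedLT.fix_eq _ ξ
  have h1 : ∀ η ξ, η < ξ → F (t η) ≤ t ξ := fun η ξ h => by
    rw [ht ξ]
    exact (Ordinal.le_iSup (fun η : Set.Iio ξ => F (t η.1)) ⟨η, h⟩).trans (le_max_right _ _)
  have hm : StrictMono t := fun η ξ h => (hF _).trans_le (h1 η ξ h)
  have h2 : ∀ ξ, α < t ξ := fun ξ => by
    rw [ht ξ]
    exact (lt_add_one α).trans_le (le_max_left _ _)
  have hl : Order.IsSuccLimit (ω₁ : Ordinal.{0}) := Cardinal.isSuccLimit_omega 1
  have h3 : ∀ x < t ω₁, ∃ η < ω₁, x < t η := by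
    intro x hx
    rw [ht] at hx
    rcases lt_max_iff.1 hx with hx | hx
    · exact ⟨0, hl.pos, (Order.lt_add_one_iff.1 hx).trans_lt (h2 0)⟩
    · obtain ⟨η, hη⟩ := Ordinal.lt_iSup_iff.1 hx
      exact ⟨η.1 + 1, hl.add_one_lt η.2, hη.trans_le (h1 _ _ (lt_add_one _))⟩
  have h4 : ∀ s : Set V, s.Countable → (∀ x ∈ s, x.rank < t ω₁) →
      ∃ η < ω₁, ∀ x ∈ s, x.rank < t η := by
    intro s hs h
    have := hs.to_subtype
    choose η hη hη' using fun x : s => h3 _ (h x.1 x.2)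
    exact ⟨⨆ x, η x, Ordinal.iSup_lt_omega_one hη, fun x hx =>
      (hη' ⟨x, hx⟩).trans_le (hm.monotone (Ordinal.le_iSup η ⟨x, hx⟩))⟩
  refine ⟨t ω₁, h2 _, fun l hl' y hy => ?_, fun s hs h => ?_⟩
  · obtain ⟨η, hη, h⟩ := h4 {x | x ∈ l} (List.finite_toSet l).countable hl'
    exact (hF' _ l h y hy).trans_le (h1 η _ hη)
  · obtain ⟨η, hη, h⟩ := h4 s hs h
    exact ⟨t η, hm hη, h⟩

end Pool.Agent.Lib.MP_f00570_lc
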