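import Pool.Agent.Lib.MP_f00570_lc.A0

/-!
# The forcing: finite chains of countable sets with labelled nodes
-/

namespace Pool.Agent.Lib.MP_f00570_lc

open Pool.Agent.Lib.MP_f9eb18_lc Pool.Agent.Lib.MP_f9eb18_lc.W Ordinal ZFSet

/-- the data the forcing depends on -/
structure Par where
  z : V
  op : List V → Set V
  θ : Ordinal.{0}
  cnt : ∀ l, (op l).Countable
  zθ : z.rank < θ
  oθ : ω₁ < θ
  cl : Closed op {x | x.rank < θ}
  cof : ∀ s : Set V, s.Countable → (∀ x ∈ s, x.rank < θ) → ∃ β < θ, ∀ x ∈ s, x.rank < β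

/-- the least ordinal not in `n` -/
noncomputable def lev (n : V) : Ordinal.{0} := sInf {α | α.toZFSet ∉ n}

/-- the countable side conditions -/
structure Good (c : Par) (n : V) : Prop where
  rk : n.rank < c.θ
  cnt : (n : Set V).Countable
  cl : Closed c.op (n : Set V)
  inter : ∀ a ∈ n, ∀ b ∈ n, a ∩ b ∈ n
  ext : ∀ a ∈ n, ∀ b ∈ n, a ∩ n = b ∩ n → a = b
  sub : ∀ a ∈ n, (a : Set V).Countable → a ⊆ n
  lv : ∀ a ∈ n, (a : Set V).Countable → (lev a).toZFSet ∈ n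

/-- conditions -/
structure Cond (c : Par) where
  mo : Set V
  nd : Set (V × V × ℕ)
  fmo : mo.Finite
  fnd : nd.Finite
  good : ∀ n ∈ mo, Good c n
  chain : ∀ n ∈ mo, ∀ n' ∈ mo, n ∈ n' ∨ n = n' ∨ n' ∈ n
  ndm : ∀ t ∈ nd, t.1 ∈ mo ∧ t.2.1 ⊆ c.z
  r1 : ∀ t ∈ nd, ∀ t' ∈ nd, t.2.2 = t'.2.2 → t.1 ∈ t'.1 → t.2.1 = t'.2.1 ∩ t.1 →
    ∃ e ∈ t.1, t.2.1 = e ∩ t.1
  r2 : ∀ t ∈ nd, ∀ t' ∈ nd, t.2.2 = t'.2.2 → ∀ m ∈ mo, m ⊆ t.1 → m ⊆ t'.1 → ∀ e ∈ m,
    t.2.1 = e ∩ t.1 → t'.2.1 ∩ m = e ∩ m → t'.2.1 = e ∩ t'.1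

variable {c : Par}

instance : Preorder (Cond c) where
  le q p := p.mo ⊆ q.mo ∧ p.nd ⊆ q.nd
  le_refl _ := ⟨subset_rfl, subset_rfl⟩
  le_trans _ _ _ h k := ⟨k.1.trans h.1, k.2.trans h.2⟩

theorem Cond.le_def {p q : Cond c} : q ≤ p ↔ p.mo ⊆ q.mo ∧ p.nd ⊆ q.nd := Iff.rfl

instance : Nonempty (Cond c) :=
  ⟨⟨∅, ∅, Set.finite_empty, Set.finite_empty, by simp, by simp, by simp, by simp, by simp⟩⟩

/-- the sets a condition is made of -/
def Cond.supp (p : Cond c) : Set V := p.mo ∪ (fun t => t.2.1) '' p.nd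

theorem Cond.supp_finite (p : Cond c) : p.supp.Finite := p.fmo.union (p.fnd.image _)

theorem lev_notMem (n : V) : (lev n).toZFSet ∉ n := by
  have h : {α : Ordinal.{0} | α.toZFSet ∉ n}.Nonempty :=
    ⟨n.rank, fun h => by simpa using rank_lt_of_mem h⟩
  exact csInf_mem h

theorem mem_of_lt_lev {n : V} {α : Ordinal.{0}} (h : α < lev n) : α.toZFSet ∈ n := by
  by_contra hn
  exact h.not_ge (csInf_le' hn)

theorem lev_lt_omega1 {n : V} (h : (n : Set V).Countable) : lev n < ω₁ := by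
  by_contra hn
  have hl : Order.IsSuccLimit (ω₁ : Ordinal.{0}) := Cardinal.isSuccLimit_omega 1
  let s : Set V := {x | x ∈ n ∧ x.rank < ω₁}
  have hs : s.Countable := h.mono fun x hx => hx.1
  have := hs.to_subtype
  have h1 : (⨆ x : s, x.1.rank) < ω₁ := Ordinal.iSup_lt_omega_one fun x => x.2.2
  have h2 := hl.add_one_lt h1
  have h3 := Ordinal.le_iSup (fun x : s => x.1.rank)
    ⟨_, mem_of_lt_lev (h2.trans_le (not_lt.1 hn)), by simpa using h2⟩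
  rw [rank_toZFSet] at h3
  exact h3.not_gt (lt_add_one _)

theorem Good.subset_of_mem {n n' : V} (h : Good c n) (h' : Good c n') (hm : n ∈ n') : n ⊆ n' :=
  h'.sub n hm h.cnt

theorem Good.lev_lt {n n' : V} (h : Good c n) (h' : Good c n') (hm : n ∈ n') :
    lev n < lev n' := by
  by_contra hn
  rcases (not_lt.1 hn).eq_or_lt with e | e
  · exact lev_notMem n' (e ▸ h'.lv n hm h.cnt)
  · exact lev_notMem n' (h.subset_of_mem h' hm (mem_of_lt_lev e))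

theorem a1_cnt {α : Ordinal.{0}} (hα : α < ω₁) : (α.toZFSet : Set V).Countable := by
  rw [coe_toZFSet]
  refine Set.Countable.image ?_ _
  rw [← Cardinal.le_aleph0_iff_set_countable, Cardinal.mk_Iio_ordinal, Cardinal.lift_le_aleph0,
    ← Cardinal.lt_aleph_one_iff, ← Cardinal.lt_ord, Cardinal.ord_aleph]
  exact hα

theorem Good.lt_lev {n : V} (h : Good c n) {α : Ordinal.{0}} (hα : α < ω₁)
    (hm : α.toZFSet ∈ n) : α < lev n := by
  by_contra hn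
  rcases (not_lt.1 hn).eq_or_lt with e | e
  · exact lev_notMem n (e ▸ hm)
  · exact lev_notMem n (h.sub _ hm (a1_cnt hα) (toZFSet_mem_toZFSet_iff.2 e))

theorem a1_wit (a b : V) :
    ∃ w : V, w.rank ≤ max a.rank b.rank ∧ ((w ∈ a ↔ w ∈ b) → a = b) := by
  by_cases e : a = b
  · exact ⟨a, le_max_left _ _, fun _ => e⟩
  · obtain ⟨w, hw⟩ := not_forall.1 fun h => e (ZFSet.ext h)
    refine ⟨w, ?_, fun h => (hw h).elim⟩
    by_cases ha : w ∈ a
    · exact (rank_lt_of_mem ha).le.trans (le_max_left _ _)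
    · have hb : w ∈ b := by tauto
      exact (rank_lt_of_mem hb).le.trans (le_max_right _ _)

theorem a1_inter (a b : V) : a ∩ b ⊆ a := fun _ hx => (mem_inter.1 hx).1

theorem exists_op0 (c : Par) : ∃ op0 : List V → Set V, (∀ l, (op0 l).Countable) ∧
    Closed op0 {x | x.rank < c.θ} ∧ ∀ Q : Set V, Q.Countable → Q ⊆ {x | x.rank < c.θ} →
      Closed op0 Q → ∃ n : V, (n : Set V) = Q ∧ Good c n := by
  choose w hw hw' using a1_wit
  let F : V → V → Set V := fun a b =>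
    {a ∩ b, w a b} ∪ {x | (a : Set V).Countable ∧ (x ∈ a ∨ x = (lev a).toZFSet)}
  have hF : ∀ a b, (F a b).Countable := fun a b => by
    refine (Set.toFinite _).countable.union ?_
    by_cases h : (a : Set V).Countable
    · exact (h.union (Set.countable_singleton (lev a).toZFSet)).mono fun x hx => hx.2
    · simp [h]
  refine ⟨fun l => c.op l ∪ ⋃ a ∈ {x | x ∈ l}, ⋃ b ∈ {x | x ∈ l}, F a b, fun l => ?_,
    fun l hl x hx => ?_, fun Q hQ hX hc => ?_⟩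
  · have hl := (List.finite_toSet l).countable
    exact (c.cnt l).union (hl.biUnion fun a _ => hl.biUnion fun b _ => hF a b)
  · rcases hx with hx | hx
    · exact c.cl l hl hx
    · simp only [Set.mem_iUnion] at hx
      obtain ⟨a, ha, b, hb, hx⟩ := hx
      have ha' : a.rank < c.θ := hl a ha
      have hb' : b.rank < c.θ := hl b hb
      rcases hx with (rfl | rfl) | ⟨h, hx | rfl⟩
      · exact (rank_mono (a1_inter a b)).trans_lt ha'
      · exact (hw a b).trans_lt (max_lt ha' hb')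
      · exact (rank_lt_of_mem hx).trans ha'
      · exact (rank_toZFSet _).trans_lt ((lev_lt_omega1 h).trans c.oθ)
  · obtain ⟨β, hβ, hb⟩ := c.cof Q hQ hX
    obtain ⟨n, hn⟩ : ∃ n : V, ∀ x, x ∈ n ↔ x ∈ Q :=
      ⟨ZFSet.sep (· ∈ Q) (vonNeumann β), fun x => by
        rw [mem_sep, mem_vonNeumann]
        exact ⟨fun h => h.2, fun h => ⟨hb x h, h⟩⟩⟩
    have e : (n : Set V) = Q := Set.ext hn
    have key : ∀ a ∈ n, ∀ b ∈ n, ∀ x ∈ F a b, x ∈ n := fun a ha b hb x hx => by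
      refine (hn x).2 (hc [a, b] ?_ (Or.inr ?_))
      · simpa using ⟨(hn a).1 ha, (hn b).1 hb⟩
      · simp only [Set.mem_iUnion]
        exact ⟨a, by simp, b, by simp, hx⟩
    refine ⟨n, e, ?_, e ▸ hQ, ?_, fun a ha b hb => key a ha b hb _ (Or.inl (Or.inl rfl)),
      fun a ha b hb h => hw' a b ?_, fun a ha h x hx => key a ha a ha x (Or.inr ⟨h, Or.inl hx⟩),
      fun a ha h => key a ha a ha _ (Or.inr ⟨h, Or.inr rfl⟩)⟩
    · exact (rank_le_iff.2 fun y hy => hb y ((hn y).1 hy)).trans_lt hβ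
    · rw [e]
      exact fun l hl x hx => hc l hl (Or.inl hx)
    · have h1 := key a ha b hb _ (Or.inl (Or.inr rfl))
      have h2 : w a b ∈ a ∩ n ↔ w a b ∈ b ∩ n := by rw [h]
      simpa [mem_inter, h1] using h2

theorem exists_good (c : Par) {s : Set V} (hs : s.Countable) (hX : s ⊆ {x | x.rank < c.θ}) :
    ∃ n : V, s ⊆ n ∧ Good c n := by
  obtain ⟨op0, h1, h2, h3⟩ := exists_op0 c
  obtain ⟨n, e, hn⟩ := h3 _ (hull_countable h1 hs) (hull_min hX h2) (closed_hull op0 s)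
  exact ⟨n, e ▸ subset_hull op0 s, hn⟩

theorem Cond.supp_rank (p : Cond c) : p.supp ⊆ {x | x.rank < c.θ} := by
  rintro x (hx | ⟨t, ht, rfl⟩)
  · exact (p.good x hx).rk
  · exact (rank_mono (p.ndm t ht).2).trans_lt c.zθ

theorem a1_inj : Function.Injective fun q : Cond c => (q.mo, q.nd) := by
  rintro ⟨a, b, _⟩ ⟨a', b', _⟩ h
  obtain ⟨rfl, rfl⟩ := Prod.mk.inj h
  rfl

theorem a1_nd (q : Cond c) {H : Set V} (h : q.supp ⊆ H) : q.nd ⊆ H ×ˢ H ×ˢ Set.univ :=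
  fun t ht => ⟨h (Or.inl (q.ndm t ht).1), h (Or.inr ⟨t, ht, rfl⟩), trivial⟩

theorem Cond.countable_supp (H : Set V) (hH : H.Countable) :
    {q : Cond c | q.supp ⊆ H}.Countable := by
  have h1 := Set.countable_ofPred_finite_subset hH
  have h2 := Set.countable_ofPred_finite_subset
    (hH.prod (hH.prod (Set.countable_univ (α := ℕ))))
  refine ((h1.prod h2).preimage_of_injOn a1_inj.injOn).mono fun q hq => ?_
  exact And.intro (And.intro q.fmo fun x hx => hq (Or.inl hx)) (And.intro q.fnd (a1_nd q hq))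

instance : Small.{0} (Cond c) := by
  let A : Set V := (vonNeumann c.θ : V)
  have h2 : Small.{0} A := small_coe _
  have hA : ∀ q : Cond c, q.supp ⊆ A := fun q x hx => mem_vonNeumann.2 (q.supp_rank hx)
  refine small_of_injective (β := Set A × Set (A × A × ℕ))
    (f := fun q => ({x | x.1 ∈ q.mo}, {t | (t.1.1, t.2.1.1, t.2.2) ∈ q.nd})) fun p q h => ?_
  obtain ⟨e1, e2⟩ := Prod.mk.inj h
  have k1 : ∀ p q : Cond c, {x : A | x.1 ∈ p.mo} = {x | x.1 ∈ q.mo} → p.mo ⊆ q.mo :=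
    fun p q e x hx => (Set.ext_iff.1 e ⟨x, hA p (Or.inl hx)⟩).1 hx
  have k2 : ∀ p q : Cond c, {t : A × A × ℕ | (t.1.1, t.2.1.1, t.2.2) ∈ p.nd} =
      {t | (t.1.1, t.2.1.1, t.2.2) ∈ q.nd} → p.nd ⊆ q.nd := fun p q e t ht =>
    (Set.ext_iff.1 e (⟨t.1, (a1_nd p (hA p) ht).1⟩, ⟨t.2.1, (a1_nd p (hA p) ht).2.1⟩, t.2.2)).1 ht
  exact a1_inj (Prod.ext ((k1 _ _ e1).antisymm (k1 _ _ e1.symm))
    ((k2 _ _ e2).antisymm (k2 _ _ e2.symm)))

theorem Cond.addTop (p : Cond c) {Q : V} (hQ : Good c Q) (h : p.mo ⊆ Q) :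
    ∃ q ≤ p, Q ∈ q.mo := by
  refine ⟨⟨insert Q p.mo, p.nd, p.fmo.insert Q, p.fnd, ?_, ?_,
    fun t ht => ⟨Or.inr (p.ndm t ht).1, (p.ndm t ht).2⟩, p.r1, ?_⟩,
    ⟨Set.subset_insert _ _, subset_rfl⟩, Or.inl rfl⟩
  · rintro n (rfl | hn)
    exacts [hQ, p.good n hn]
  · rintro n (rfl | hn) n' (rfl | hn')
    exacts [Or.inr (Or.inl rfl), Or.inr (Or.inr (h hn')), Or.inl (h hn), p.chain n hn n' hn']
  · rintro t ht t' ht' e m (rfl | hm) h1
    · exact (mem_irrefl _ (h1 (h (p.ndm t ht).1))).elim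
    · exact p.r2 t ht t' ht' e m hm h1

theorem Cond.addNode (p : Cond c) {n y : V} (hn : n ∈ p.mo) (hy : y ⊆ c.z) :
    ∃ q ≤ p, ∃ k, (n, y, k) ∈ q.nd := by
  obtain ⟨k, hk⟩ := (p.fnd.image fun t => t.2.2).exists_notMem
  have hk' : ∀ t ∈ p.nd, t.2.2 ≠ k := fun t ht e => hk ⟨t, ht, e⟩
  refine ⟨⟨p.mo, insert (n, y, k) p.nd, p.fmo, p.fnd.insert _, p.good, p.chain, ?_, ?_, ?_⟩,
    ⟨subset_rfl, Set.subset_insert _ _⟩, k, Or.inl rfl⟩
  · rintro t (rfl | ht)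
    exacts [⟨hn, hy⟩, p.ndm t ht]
  · rintro t (rfl | ht) t' (rfl | ht') e
    exacts [fun h => (mem_irrefl _ h).elim, (hk' _ ht' e.symm).elim, (hk' _ ht e).elim,
      p.r1 t ht t' ht' e]
  · rintro t (rfl | ht) t' (rfl | ht') e
    exacts [fun _ _ _ _ _ _ h _ => h, (hk' _ ht' e.symm).elim, (hk' _ ht e).elim,
      p.r2 t ht t' ht' e]

/-- a condition with a marked model and an enumeration of its nodes -/
structure Tr (c : Par) (k : ℕ) where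
  q : Cond c
  m : V
  t : Fin k → V × V × ℕ
  hm : m ∈ q.mo
  ht : Set.range t = q.nd

variable {k : ℕ}

/-- the model of the `i`-th node -/
def Tr.n (g : Tr c k) (i : Fin k) : V := (g.t i).1
/-- the set of the `i`-th node -/
def Tr.y (g : Tr c k) (i : Fin k) : V := (g.t i).2.1

/-- same type over the finite set of parameters `l` -/
structure Same (l : List V) (g g' : Tr c k) : Prop where
  lab : ∀ i, (g.t i).2.2 = (g'.t i).2.2
  all : (∀ n ∈ g.q.mo, n ∈ g.m → n ∈ l) ↔ (∀ n ∈ g'.q.mo, n ∈ g'.m → n ∈ l)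
  mod : ∀ x ∈ l, (x ∈ g.q.mo ↔ x ∈ g'.q.mo)
  sub : ∀ x ∈ l, (x ∈ g.m ↔ x ∈ g'.m)
  eqn : ∀ i, ∀ x ∈ l, (g.n i = x ↔ g'.n i = x)
  eqy : ∀ i, ∀ x ∈ l, (g.y i = x ↔ g'.y i = x)
  memy : ∀ i, ∀ x ∈ l, (x ∈ g.y i ↔ x ∈ g'.y i)
  cut : ∀ i, ∀ x ∈ l, (g.y i = x ∩ g.n i ↔ g'.y i = x ∩ g'.n i)

/-- the parameters that the amalgamation needs -/
structure Params (g : Tr c k) (l : List V) : Prop where
  hl : ∀ x ∈ l, x ∈ g.m
  h1 : ∀ n ∈ g.q.mo, n ∈ g.m → n ∈ l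
  h2 : ∀ i, g.y i ∈ g.m → g.y i ∈ l
  h3 : ∀ i, ∀ n ∈ g.q.mo, n ∈ g.m → g.y i ∩ n ∈ g.m → g.y i ∩ n ∈ l
  h4 : ∀ i, ∀ n ∈ g.q.mo, n ⊆ g.m → ∀ e ∈ n, g.y i ∩ n = e ∩ n → e ∈ l
  h5 : ∀ i j, g.y i ∩ g.m ≠ g.y j ∩ g.m → ∃ ξ ∈ l, ¬ (ξ ∈ g.y i ↔ ξ ∈ g.y j)

end Pool.Agent.Lib.MP_f00570_lc
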