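import Pool.Agent.Lib.MP_f00570_lc.A1

/-!
# Amalgamation
-/

namespace Pool.Agent.Lib.MP_f00570_lc

open Pool.Agent.Lib.MP_f9eb18_lc Pool.Agent.Lib.MP_f9eb18_lc.W Ordinal ZFSet

variable {c : Par} {k : ℕ}

theorem a2_cut {a b m n : V} (h : a ∩ n = b ∩ n) (hm : m ⊆ n) : a ∩ m = b ∩ m := by
  ext x
  have := ZFSet.ext_iff.1 h x
  simp only [ZFSet.mem_inter] at this ⊢
  exact ⟨fun u => ⟨(this.1 ⟨u.1, hm u.2⟩).1, u.2⟩, fun u => ⟨(this.2 ⟨u.1, hm u.2⟩).1, u.2⟩⟩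

theorem a2_idem {y e n : V} (h : y = e ∩ n) : y ∩ n = e ∩ n := by
  subst h
  ext x
  simp only [ZFSet.mem_inter]
  exact ⟨fun u => u.1, fun u => ⟨u, u.2⟩⟩

theorem a2_iff {a b n x : V} (h : a ∩ n = b ∩ n) (hx : x ∈ n) : x ∈ a ↔ x ∈ b := by
  have := ZFSet.ext_iff.1 h x
  simpa only [ZFSet.mem_inter, hx, and_true] using this

theorem Tr.a2_nd (g : Tr c k) (i : Fin k) : g.t i ∈ g.q.nd := g.ht ▸ Set.mem_range_self i

theorem Tr.a2_mo (g : Tr c k) (i : Fin k) : g.n i ∈ g.q.mo := (g.q.ndm _ (g.a2_nd i)).1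

theorem Tr.a2_ex (g : Tr c k) {t : V × V × ℕ} (h : t ∈ g.q.nd) : ∃ i, g.t i = t := by
  rw [← g.ht] at h; exact h

/-- a model of a condition is an element or a superset of the marked model -/
theorem Tr.a2_side (g : Tr c k) {n : V} (h : n ∈ g.q.mo) : n ∈ g.m ∨ g.m ⊆ n := by
  rcases g.q.chain n h g.m g.hm with u | u | u
  · exact Or.inl u
  · exact Or.inr (u ▸ fun _ v => v)
  · exact Or.inr ((g.q.good _ g.hm).subset_of_mem (g.q.good _ h) u)

theorem Tr.a2_r2 (g : Tr c k) (i j : Fin k) (hl : (g.t i).2.2 = (g.t j).2.2) {m e : V}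
    (hm : m ∈ g.q.mo) (hi : m ⊆ g.n i) (hj : m ⊆ g.n j) (he : e ∈ m) (h1 : g.y i = e ∩ g.n i)
    (h2 : g.y j ∩ m = e ∩ m) : g.y j = e ∩ g.n j :=
  g.q.r2 _ (g.a2_nd i) _ (g.a2_nd j) hl m hm hi hj e he h1 h2

theorem Same.a2_eq {l : List V} {g g' : Tr c k} (hs : Same l g g') (i : Fin k)
    (hn : g.n i = g'.n i) (hy : g.y i = g'.y i) : g.t i = g'.t i :=
  Prod.ext hn (Prod.ext hy (hs.lab i))

theorem amalg (g g' : Tr c k) (l : List V) (hs : Same l g g') (hp : Params g l)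
    (hin : g'.q.supp ⊆ g.m)
    (sep : ∀ i j, (∃ ξ ∈ g'.m, ¬ (ξ ∈ g'.y i ↔ ξ ∈ g.y j)) ∨ ∃ e ∈ l, g.y j ∩ g.m = e ∩ g.m) :
    ∃ r, r ≤ g.q ∧ r ≤ g'.q := by
  have gQ := g.q.good _ g.hm
  have nQ : ∀ n ∈ g'.q.mo, n ∈ g.m := fun n h => hin (Or.inl h)
  have nS : ∀ n ∈ g'.q.mo, n ⊆ g.m := fun n h => (g'.q.good n h).subset_of_mem gQ (nQ n h)
  have yQ : ∀ i, g'.y i ∈ g.m := fun i => hin (Or.inr ⟨_, g'.a2_nd i, rfl⟩)
  have lm : ∀ x ∈ l, x ∈ g'.m := fun x h => (hs.sub x h).1 (hp.hl x h)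
  have oA : ∀ n ∈ g.q.mo, n ∈ g.m → n ∈ g'.q.mo := fun n h u => (hs.mod n (hp.h1 n h u)).1 h
  have nl : ∀ n ∈ g'.q.mo, n ∈ g'.m → n ∈ l := hs.all.1 hp.h1
  have nB : ∀ n ∈ g'.q.mo, n ∈ g'.m → n ∈ g.q.mo := fun n h u => (hs.mod n (nl n h u)).2 h
  -- an old model above the new marked model is above the old marked model
  have up : ∀ n ∈ g.q.mo, g'.m ⊆ n → g.m ⊆ n := fun n h u => (g.a2_side h).resolve_left
    fun v => ZFSet.mem_irrefl n (u (lm n (hp.h1 n h v)))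
  -- a model below a new model is new
  have low : ∀ m ∈ g.q.mo ∪ g'.q.mo, ∀ n ∈ g'.q.mo, m ⊆ n → m ∈ g'.q.mo := by
    rintro m (h | h) n hn u
    · exact oA m h ((g.a2_side h).resolve_right fun v => ZFSet.mem_irrefl n (u (v (nQ n hn))))
    · exact h
  have eo : ∀ i, g.n i ∈ g.m → g.n i = g'.n i := fun i h =>
    ((hs.eqn i _ (hp.h1 _ (g.a2_mo i) h)).1 rfl).symm
  have en : ∀ i, g'.n i ∈ g'.m → g.n i = g'.n i := fun i h =>
    (hs.eqn i _ (nl _ (g'.a2_mo i) h)).2 rfl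
  have ch : ∀ n ∈ g.q.mo, ∀ n' ∈ g'.q.mo, n ∈ n' ∨ n = n' ∨ n' ∈ n := fun n h n' h' => by
    rcases g.a2_side h with u | u
    · exact g'.q.chain n (oA n h u) n' h'
    · exact Or.inr (Or.inr (u (nQ n' h')))
  refine ⟨⟨g.q.mo ∪ g'.q.mo, g.q.nd ∪ g'.q.nd, g.q.fmo.union g'.q.fmo, g.q.fnd.union g'.q.fnd,
    ?_, ?_, ?_, ?_, ?_⟩, ⟨Set.subset_union_left, Set.subset_union_left⟩,
    ⟨Set.subset_union_right, Set.subset_union_right⟩⟩
  · rintro n (h | h)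
    exacts [g.q.good n h, g'.q.good n h]
  · rintro n (h | h) n' (h' | h')
    · exact g.q.chain n h n' h'
    · exact ch n h n' h'
    · rcases ch n' h' n h with u | u | u
      exacts [Or.inr (Or.inr u), Or.inr (Or.inl u.symm), Or.inl u]
    · exact g'.q.chain n h n' h'
  · rintro t (h | h)
    exacts [⟨Or.inl (g.q.ndm t h).1, (g.q.ndm t h).2⟩, ⟨Or.inr (g'.q.ndm t h).1, (g'.q.ndm t h).2⟩]
  · rintro t (h | h) t' (h' | h') hl hm hy
    · exact g.q.r1 t h t' h' hl hm hy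
    · obtain ⟨j, rfl⟩ := g.a2_ex h
      obtain ⟨i, rfl⟩ := g'.a2_ex h'
      have u : g.n j ∈ g.m := nS _ (g'.a2_mo i) hm
      have v : g.y j ∈ g.m := by
        have w : g.y j = g'.y i ∩ g.n j := hy
        rw [w]; exact gQ.inter _ (yQ i) _ u
      have e := hs.a2_eq j (eo j u) ((hs.eqy j _ (hp.h2 j v)).1 rfl).symm
      exact g'.q.r1 _ (e ▸ g'.a2_nd j) _ h' hl hm hy
    · obtain ⟨i, rfl⟩ := g'.a2_ex h
      obtain ⟨j, rfl⟩ := g.a2_ex h'
      have w : g'.y i = g.y j ∩ g'.n i := hy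
      rcases g'.a2_side (g'.a2_mo i) with u | u
      · have v : g'.y i ∈ l := by
          rw [w]
          exact hp.h3 j _ (nB _ (g'.a2_mo i) u) (nQ _ (g'.a2_mo i)) (w ▸ yQ i)
        have e := hs.a2_eq i (en i u) ((hs.eqy i _ v).2 rfl)
        exact g.q.r1 _ (e ▸ g.a2_nd i) _ h' hl hm hy
      · rcases sep i j with ⟨ξ, x1, x2⟩ | ⟨e, e1, e2⟩
        · exact absurd (a2_iff (a2_idem w) (u x1)) x2
        · exact ⟨e, u (lm e e1), w.trans (a2_cut e2 (nS _ (g'.a2_mo i)))⟩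
    · exact g'.q.r1 t h t' h' hl hm hy
  · rintro t (h | h) t' (h' | h') hl m hm s1 s2 e he y1 y2
    · obtain ⟨i, rfl⟩ := g.a2_ex h
      obtain ⟨j, rfl⟩ := g.a2_ex h'
      by_cases ho : m ∈ g.q.mo
      · exact g.a2_r2 i j hl ho s1 s2 he y1 y2
      have hn := hm.resolve_left ho
      have u : g'.m ⊆ m := (g'.a2_side hn).resolve_left fun v => ho (nB m hn v)
      have ui := up _ (g.a2_mo i) fun _ v => s1 (u v)
      have uj := up _ (g.a2_mo j) fun _ v => s2 (u v)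
      refine g.a2_r2 i j hl g.hm ui uj (nS m hn he) y1 ?_
      by_contra hne
      have y3 : g.y i ∩ g.n i = e ∩ g.n i := a2_idem y1
      obtain ⟨ξ, x1, x2⟩ := hp.h5 i j fun v => hne (v.symm.trans (a2_cut y3 ui))
      exact x2 ((a2_iff y3 (s1 (u (lm ξ x1)))).trans (a2_iff y2 (u (lm ξ x1))).symm)
    · obtain ⟨j, rfl⟩ := g.a2_ex h
      obtain ⟨i, rfl⟩ := g'.a2_ex h'
      have hn := low m hm _ (g'.a2_mo i) s2
      have y3 : g.y j ∩ g.n j = e ∩ g.n j := a2_idem y1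
      have hl' := (hs.lab j).symm.trans hl
      rcases g'.a2_side hn with u | u
      · have el := hp.h4 j m (nB m hn u) (nS m hn) e he (a2_cut y3 s1)
        refine g'.a2_r2 j i hl' hn ?_ s2 he ((hs.cut j e el).1 y1) y2
        rcases g'.a2_side (g'.a2_mo j) with v | v
        · exact en j v ▸ s1
        · exact fun _ w => v ((g'.q.good m hn).subset_of_mem (g'.q.good _ g'.hm) u w)
      · have uj := up _ (g.a2_mo j) fun _ v => s1 (u v)
        have el := hp.h4 j _ g.hm (fun _ v => v) e (nS m hn he) (a2_cut y3 uj)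
        refine g'.a2_r2 j i hl' g'.hm ?_ (fun _ v => s2 (u v)) (lm e el) ((hs.cut j e el).1 y1)
          (a2_cut y2 u)
        refine (g'.a2_side (g'.a2_mo j)).resolve_left fun v => ZFSet.mem_irrefl (g.n j) (uj ?_)
        rw [en j v]; exact nQ _ (g'.a2_mo j)
    · obtain ⟨i, rfl⟩ := g'.a2_ex h
      obtain ⟨j, rfl⟩ := g.a2_ex h'
      have hn := low m hm _ (g'.a2_mo i) s1
      have y3 : g'.y i ∩ g'.n i = e ∩ g'.n i := a2_idem y1
      have hl' := (hs.lab i).trans hl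
      rcases g'.a2_side hn with u | u
      · have ho := nB m hn u
        have el := hp.h4 j m ho (nS m hn) e he y2
        refine g.a2_r2 i j hl' ho ?_ s2 he ((hs.cut i e el).2 y1) y2
        rcases g.a2_side (g.a2_mo i) with v | v
        · exact (eo i v).symm ▸ s1
        · exact fun _ w => v (nS m hn w)
      · have uj := up _ (g.a2_mo j) fun _ v => s2 (u v)
        rcases sep i j with ⟨ξ, x1, x2⟩ | ⟨e', e1, e2⟩
        · exact absurd ((a2_iff y3 (s1 (u x1))).trans (a2_iff y2 (u x1)).symm) x2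
        obtain rfl : e' = e := (g'.q.good m hn).ext _ (u (lm _ e1)) _ he
          ((a2_cut e2 (nS m hn)).symm.trans y2)
        refine g.a2_r2 i j hl' g.hm ?_ uj (hp.hl _ e1) ((hs.cut i _ e1).2 y1) e2
        refine (g.a2_side (g.a2_mo i)).resolve_left fun v => ZFSet.mem_irrefl (g'.n i) (s1 (u ?_))
        rw [← eo i v]; exact lm _ (hp.h1 _ (g.a2_mo i) v)
    · exact g'.q.r2 t h t' h' hl m (low m hm _ (g'.q.ndm t h).1 s1) s1 s2 e he y1 y2

end Pool.Agent.Lib.MP_f00570_lc
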