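import Pool.Agent.Lib.MP_f00570_lc.A2

/-!
# The forcing is proper
-/

namespace Pool.Agent.Lib.MP_f00570_lc

open Pool.Agent.Lib.MP_f9eb18_lc Pool.Agent.Lib.MP_f9eb18_lc.W Ordinal ZFSet

variable {c : Par} {k : ℕ}

theorem Same.refl (l : List V) (g : Tr c k) : Same l g g :=
  ⟨fun _ => rfl, Iff.rfl, fun _ _ => Iff.rfl, fun _ _ => Iff.rfl, fun _ _ _ => Iff.rfl,
    fun _ _ _ => Iff.rfl, fun _ _ _ => Iff.rfl, fun _ _ _ => Iff.rfl⟩

theorem Same.symm {l : List V} {g g' : Tr c k} (h : Same l g g') : Same l g' g :=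
  ⟨fun i => (h.lab i).symm, h.all.symm, fun x hx => (h.mod x hx).symm,
    fun x hx => (h.sub x hx).symm, fun i x hx => (h.eqn i x hx).symm,
    fun i x hx => (h.eqy i x hx).symm, fun i x hx => (h.memy i x hx).symm,
    fun i x hx => (h.cut i x hx).symm⟩

theorem Same.trans {l : List V} {g g' g'' : Tr c k} (h : Same l g g') (h' : Same l g' g'') :
    Same l g g'' :=
  ⟨fun i => (h.lab i).trans (h'.lab i), h.all.trans h'.all,
    fun x hx => (h.mod x hx).trans (h'.mod x hx), fun x hx => (h.sub x hx).trans (h'.sub x hx),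
    fun i x hx => (h.eqn i x hx).trans (h'.eqn i x hx),
    fun i x hx => (h.eqy i x hx).trans (h'.eqy i x hx),
    fun i x hx => (h.memy i x hx).trans (h'.memy i x hx),
    fun i x hx => (h.cut i x hx).trans (h'.cut i x hx)⟩

theorem A3_all {l l' : List V} (hl : ∀ x ∈ l, x ∈ l') {g g' : Tr c k} (h : Same l' g g')
    (H : ∀ n ∈ g.q.mo, n ∈ g.m → n ∈ l) : ∀ n ∈ g'.q.mo, n ∈ g'.m → n ∈ l := fun n h1 h2 =>
  have h3 := h.all.1 (fun n a b => hl n (H n a b)) n h1 h2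
  H n ((h.mod n h3).2 h1) ((h.sub n h3).2 h2)

theorem Same.mono {l l' : List V} (hl : ∀ x ∈ l, x ∈ l') {g g' : Tr c k} (h : Same l' g g') :
    Same l g g' :=
  ⟨h.lab, ⟨A3_all hl h, A3_all hl h.symm⟩, fun x hx => h.mod x (hl x hx),
    fun x hx => h.sub x (hl x hx), fun i x hx => h.eqn i x (hl x hx),
    fun i x hx => h.eqy i x (hl x hx), fun i x hx => h.memy i x (hl x hx),
    fun i x hx => h.cut i x (hl x hx)⟩

theorem A3_list {s : Set V} (hs : s.Finite) : ∃ l : List V, ∀ x, x ∈ l ↔ x ∈ s :=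
  ⟨hs.toFinset.toList, by simp⟩

theorem A3_wit (a b m : V) : ∃ ξ : V, a ∩ m ≠ b ∩ m → ξ ∈ m ∧ ¬ (ξ ∈ a ↔ ξ ∈ b) := by
  by_cases h : ∃ ξ ∈ m, ¬ (ξ ∈ a ↔ ξ ∈ b)
  · obtain ⟨ξ, h⟩ := h
    exact ⟨ξ, fun _ => h⟩
  · refine ⟨∅, fun hne => absurd (ZFSet.ext fun x => ?_) hne⟩
    simp only [ZFSet.mem_inter]
    exact and_congr_left fun hx => not_not.1 fun h' => h ⟨x, hx, h'⟩

theorem exists_params (g : Tr c k) : ∃ l, Params g l := by
  choose ξ hξ using fun i j => A3_wit (g.y i) (g.y j) g.m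
  have f3 : (⋃ i, (fun n => g.y i ∩ n) '' g.q.mo).Finite :=
    Set.finite_iUnion fun _ => g.q.fmo.image _
  have f4 : (⋃ i, ⋃ n ∈ g.q.mo, {e | e ∈ n ∧ g.y i ∩ n = e ∩ n}).Finite :=
    Set.finite_iUnion fun _ => g.q.fmo.biUnion fun n hn => Set.Subsingleton.finite
      fun a ha b hb => (g.q.good n hn).ext a ha.1 b hb.1 (ha.2.symm.trans hb.2)
  have f5 : (⋃ i, Set.range (ξ i)).Finite := Set.finite_iUnion fun _ => Set.finite_range _
  obtain ⟨l, hl⟩ := A3_list (((((g.q.fmo.union (Set.finite_range g.y)).union f3).union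
    f4).union f5).inter_of_left (g.m : Set V))
  refine ⟨l, fun x hx => ((hl x).1 hx).2, fun n h1 h2 => (hl n).2 ⟨by simp [h1], h2⟩,
    fun i h => (hl _).2 ⟨by simp, h⟩, fun i n h1 _ h => (hl _).2 ⟨?_, h⟩,
    fun i n h1 h2 e h3 h4 => (hl _).2 ⟨?_, h2 h3⟩,
    fun i j h => ⟨ξ i j, (hl _).2 ⟨?_, (hξ i j h).1⟩, (hξ i j h).2⟩⟩
  · exact Or.inl (Or.inl (Or.inr (Set.mem_iUnion.2 ⟨i, n, h1, rfl⟩)))
  · exact Or.inl (Or.inr (Set.mem_iUnion.2 ⟨i, Set.mem_biUnion h1 ⟨h3, h4⟩⟩))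
  · exact Or.inr (Set.mem_iUnion.2 ⟨i, j, rfl⟩)

/-- the type of a triple over `l`, as an element of a countable type -/
def A3_code (l : List V) (g : Tr c k) : (Fin k → ℕ) × Prop × (Fin l.length → Prop × Prop) ×
    (Fin k → Fin l.length → Prop × Prop × Prop × Prop) :=
  (fun i => (g.t i).2.2, ∀ n ∈ g.q.mo, n ∈ g.m → n ∈ l,
    fun j => (l.get j ∈ g.q.mo, l.get j ∈ g.m),
    fun i j => (g.n i = l.get j, g.y i = l.get j, l.get j ∈ g.y i, g.y i = l.get j ∩ g.n i))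

theorem A3_same {l : List V} {g g' : Tr c k} (h : A3_code l g = A3_code l g') : Same l g g' := by
  simp only [A3_code, Prod.mk.injEq, funext_iff, eq_iff_iff] at h
  obtain ⟨h1, h2, h3, h4⟩ := h
  refine ⟨h1, h2, fun x hx => ?_, fun x hx => ?_, fun i x hx => ?_, fun i x hx => ?_,
    fun i x hx => ?_, fun i x hx => ?_⟩ <;> obtain ⟨j, rfl⟩ := List.mem_iff_get.1 hx
  exacts [(h3 j).1, (h3 j).2, (h4 i j).1, (h4 i j).2.1, (h4 i j).2.2.1, (h4 i j).2.2.2]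

/-- there are countably many types -/
theorem exists_reps (l : List V) (S : Set (Tr c k)) :
    ∃ R ⊆ S, R.Countable ∧ ∀ g ∈ S, ∃ g' ∈ R, Same l g g' := by
  obtain ⟨R, h1, h2⟩ := Set.exists_subset_bijOn S (A3_code l)
  refine ⟨R, h1, Set.countable_of_injective_of_countable_image h2.injOn (Set.to_countable _),
    fun g hg => ?_⟩
  obtain ⟨g', h3, h4⟩ := h2.surjOn ⟨g, hg, rfl⟩
  exact ⟨g', h3, A3_same h4.symm⟩

theorem A3_ysub (g : Tr c k) (i : Fin k) : g.y i ⊆ c.z :=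
  (g.q.ndm (g.t i) (g.ht ▸ Set.mem_range_self i)).2

/-- a family is either not rich, or has limits along a fine ultrafilter -/
theorem rich_limit (S : Set (Tr c k)) : ∃ s : Set V, s.Finite ∧ s ⊆ {x | x.rank < c.θ} ∧
    ((∀ g ∈ S, ¬ s ⊆ g.m) ∨ ∃ e : Fin k → V, (∀ i, e i ∈ s) ∧
      ∀ l : List V, (∀ x ∈ l, x.rank < c.θ) →
        ∃ g ∈ S, (∀ x ∈ l, x ∈ g.m) ∧ ∀ i, ∀ x ∈ l, (x ∈ g.y i ↔ x ∈ e i)) := by
  classical
  by_cases h : ∃ s : Set V, s.Finite ∧ s ⊆ {x | x.rank < c.θ} ∧ ∀ g ∈ S, ¬ s ⊆ g.m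
  · obtain ⟨s, h1, h2, h3⟩ := h
    exact ⟨s, h1, h2, Or.inl h3⟩
  have h' : ∀ u : Finset {x : V // x.rank < c.θ}, ∃ g ∈ S, ∀ x ∈ u, x.1 ∈ g.m := fun u => by
    by_contra hu
    refine h ⟨Subtype.val '' (u : Set _), u.finite_toSet.image _, ?_, fun g hg hs =>
      hu ⟨g, hg, fun x hx => hs ⟨x, hx, rfl⟩⟩⟩
    rintro _ ⟨x, -, rfl⟩
    exact x.2
  choose G hG hG' using h'
  let U : Ultrafilter (Finset {x : V // x.rank < c.θ}) := Ultrafilter.of Filter.atTop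
  let e : Fin k → V := fun i => ZFSet.sep (fun ξ => ∀ᶠ u in (U : Filter _), ξ ∈ (G u).y i) c.z
  refine ⟨Set.range e, Set.finite_range e, ?_, Or.inr ⟨e, fun i => ⟨i, rfl⟩, fun l hl => ?_⟩⟩
  · rintro _ ⟨i, rfl⟩
    exact (ZFSet.rank_mono fun x hx => (ZFSet.mem_sep.1 hx).1).trans_lt c.zθ
  have e1 : ∀ᶠ u in (U : Filter _), ∀ x ∈ {x | x ∈ l}, x ∈ (G u).m :=
    (Filter.eventually_all_finite l.finite_toSet).2 fun x hx =>
      ((Filter.eventually_ge_atTop {⟨x, hl x hx⟩}).filter_mono (Ultrafilter.of_le _)).mono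
        fun u hu => hG' u ⟨x, hl x hx⟩ (hu (Finset.mem_singleton_self _))
  have e2 : ∀ᶠ u in (U : Filter _), ∀ i, ∀ x ∈ {x | x ∈ l}, (x ∈ (G u).y i ↔ x ∈ e i) := by
    refine Filter.eventually_all.2 fun i =>
      (Filter.eventually_all_finite l.finite_toSet).2 fun x _ => ?_
    by_cases hx : ∀ᶠ u in (U : Filter _), x ∈ (G u).y i
    · exact hx.mono fun u hu => iff_of_true hu (ZFSet.mem_sep.2 ⟨A3_ysub _ i hu, hx⟩)
    · exact (Ultrafilter.eventually_not.2 hx).mono fun u hu =>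
        iff_of_false hu fun h => hx (ZFSet.mem_sep.1 h).2
  obtain ⟨u, h1, h2⟩ := (e1.and e2).exists
  exact ⟨G u, hG u, h1, h2⟩

/-- adding a sufficiently closed model on top gives a generic condition -/
theorem generic_cond (c : Par) : ∃ op : Set (Cond c) → List V → Set V,
    (∀ D l, (op D l).Countable) ∧ (∀ D l, op D l ⊆ {x | x.rank < c.θ}) ∧
    ∀ (n : V) (q0 : Cond c), n ∈ q0.mo → ∀ D, IsDense D → Closed (op D) (n : Set V) →
      Predense (D ∩ {r | r.supp ⊆ n}) q0 := by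
  choose R R1 R2 R3 using fun (D : Set (Cond c)) (k : ℕ) (l : List V) =>
    exists_reps l {g : Tr c k | g.q ∈ D}
  choose L L1 L2 L3 using fun (k : ℕ) (S : Set (Tr c k)) => rich_limit S
  refine ⟨fun D l => ⋃ k, ⋃ g ∈ R D k l, (g.q.supp ∪ L k {g1 | g1.q ∈ D ∧ Same l g g1}),
    fun D l => Set.countable_iUnion fun k => (R2 D k l).biUnion fun g _ =>
      (g.q.supp_finite.union (L1 _ _)).countable,
    fun D l => Set.iUnion_subset fun k => Set.iUnion₂_subset fun g _ =>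
      Set.union_subset g.q.supp_rank (L2 _ _), fun n q0 hq' D hD hc r hr => ?_⟩
  have Q2 : ∀ {x}, x ∈ n → x.rank < c.θ := fun hx => (rank_lt_of_mem hx).trans (q0.good n hq').rk
  obtain ⟨r1, r1D, r1r⟩ := hD r
  obtain ⟨k, t, -, ht⟩ := r1.fnd.fin_param
  let g0 : Tr c k := ⟨r1, n, t, (r1r.trans hr).1 hq', ht⟩
  have key : ∀ l : List V, (∀ x ∈ l, x ∈ n) → ∀ g ∈ R D k l,
      g.q.supp ∪ L k {g1 | g1.q ∈ D ∧ Same l g g1} ⊆ (n : Set V) := fun l hl g hg x hx =>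
    hc l hl (Set.mem_iUnion.2 ⟨k, Set.mem_biUnion hg hx⟩)
  obtain ⟨l, hl⟩ := exists_params g0
  obtain ⟨g, gR, gS⟩ := R3 D k l g0 r1D
  have hL := Set.subset_union_right.trans (key l hl.hl g gR)
  obtain ⟨e, e1, e2⟩ := (L3 k {g1 | g1.q ∈ D ∧ Same l g g1}).resolve_left fun h =>
    h g0 ⟨r1D, gS.symm⟩ hL
  choose ξ hξ using fun i j => A3_wit (e i) (g0.y j) n
  obtain ⟨l1, hl1⟩ := A3_list (l.finite_toSet.union
    ((Set.finite_iUnion fun i => Set.finite_range (ξ i)).inter_of_left (n : Set V)))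
  have l1n : ∀ x ∈ l1, x ∈ n := fun x hx => ((hl1 x).1 hx).elim (hl.hl x) fun h => h.2
  obtain ⟨g1, ⟨g1D, g1S⟩, g1m, g1y⟩ := e2 l1 fun x hx => Q2 (l1n x hx)
  obtain ⟨g2, g2R, g2S⟩ := R3 D k l1 g1 g1D
  have g2n := Set.subset_union_left.trans (key l1 l1n g2 g2R)
  obtain ⟨s, s1, s2⟩ := amalg g0 g2 l
    ((gS.trans g1S).trans (g2S.mono fun x hx => (hl1 x).2 (Or.inl hx))) hl g2n fun i j => by
      by_cases h : e i ∩ n = g0.y j ∩ n
      · exact Or.inr ⟨e i, hl.h4 j n g0.hm (fun _ h => h) _ (hL (e1 i)) h.symm, h.symm⟩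
      · have m1 : ξ i j ∈ l1 := (hl1 _).2 (Or.inr ⟨Set.mem_iUnion.2 ⟨i, j, rfl⟩, (hξ i j h).1⟩)
        exact Or.inl ⟨ξ i j, (g2S.sub _ m1).1 (g1m _ m1), fun h' =>
          (hξ i j h).2 (((g1y i _ m1).symm.trans (g2S.memy i _ m1)).trans h')⟩
  exact ⟨g2.q, ⟨R1 D k l1 g2R, g2n⟩, s, le_trans s1 r1r, s2⟩

theorem proper_cond (c : Par) : Proper (Cond c) := by
  obtain ⟨op0, h0, c0, hQ⟩ := exists_op0 c
  obtain ⟨op, h1, h2, h3⟩ := generic_cond c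
  refine proper_of_closure {x : V | x.rank < c.θ} Cond.supp Cond.supp_finite Cond.supp_rank
    Cond.countable_supp op0 op h0 h1 c0 (fun D l _ => h2 D l) fun Q Q1 Q2 Q3 p hp => ?_
  obtain ⟨n, rfl, hn⟩ := hQ Q Q1 Q2 Q3
  obtain ⟨q0, hq, hq'⟩ := p.addTop hn (Set.subset_union_left.trans hp)
  exact ⟨q0, hq, h3 n q0 hq'⟩

end Pool.Agent.Lib.MP_f00570_lc
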