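import Pool.Agent.Lib.MP_f00570_lc.A3

/-!
# PFA gives guessing sets
-/

namespace Pool.Agent.Lib.MP_f00570_lc

open Pool.Agent.Lib.MP_f9eb18_lc Pool.Agent.Lib.MP_f9eb18_lc.W Ordinal ZFSet

theorem a4_enum : ∃ en : V → ℕ → V, ∀ n : V, (n : Set V).Countable →
    ∀ y ∈ n, ∃ i, en n i = y := by
  have : ∀ n : V, ∃ f : ℕ → V, (n : Set V).Countable → ∀ y ∈ n, ∃ i, f i = y := by
    intro n
    by_cases h : (n : Set V).Countable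
    · obtain ⟨f, hf⟩ := Set.countable_iff_exists_subset_range.1 h
      exact ⟨f, fun _ y hy => hf hy⟩
    · exact ⟨fun _ => ∅, fun h' => absurd h' h⟩
  choose en hen using this
  exact ⟨en, hen⟩

theorem a4_mk : Cardinal.mk (Set.Iio (ω₁ : Ordinal.{0})) = Cardinal.aleph 1 := by
  rw [Cardinal.mk_Iio_ordinal, Ordinal.card_omega]
  simp

theorem a4_mk2 : Cardinal.mk (Set.Iio (ω₁ : Ordinal.{0}) × ℕ) = Cardinal.aleph 1 := by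
  rw [Cardinal.mk_prod, a4_mk]
  simp

theorem a4_mem {c : Par} (r : Cond c) {n n' : V} (hn : n ∈ r.mo) (hn' : n' ∈ r.mo)
    (h : lev n < lev n') : n ∈ n' := by
  rcases r.chain n hn n' hn' with h1 | h1 | h1
  · exact h1
  · exact absurd h (by rw [h1]; exact lt_irrefl _)
  · exact absurd ((r.good _ hn').lev_lt (r.good _ hn) h1) h.not_gt

theorem a4_inj {c : Par} (r : Cond c) {n n' : V} (hn : n ∈ r.mo) (hn' : n' ∈ r.mo)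
    (h : lev n = lev n') : n = n' := by
  rcases r.chain n hn n' hn' with h1 | h1 | h1
  · exact absurd ((r.good _ hn).lev_lt (r.good _ hn') h1) h.not_lt
  · exact h1
  · exact absurd ((r.good _ hn').lev_lt (r.good _ hn) h1) h.not_gt

/-- `ℵ₁` dense sets that give what is needed of the generic filter -/
theorem exists_dense (c : Par) : ∃ (ι : Type 1) (D : ι → Set (Cond c)),
    Cardinal.mk ι ≤ Cardinal.aleph 1 ∧ (∀ i, IsDense (D i)) ∧ ∀ G : Set (Cond c),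
    (∀ p ∈ G, ∀ q ∈ G, ∃ r ∈ G, r ≤ p ∧ r ≤ q) → (∀ i, (G ∩ D i).Nonempty) →
    (∀ α < (ω₁ : Ordinal.{0}), ∃ p ∈ G, ∃ n ∈ p.mo, α.toZFSet ∈ n) ∧
    ∀ p ∈ G, ∀ n ∈ p.mo, ∀ n' ∈ p.mo, ∀ y ∈ n', y ⊆ c.z → ∃ q ∈ G, ∃ k, (n, y, k) ∈ q.nd := by
  obtain ⟨en, hen⟩ := a4_enum
  let I := Set.Iio (ω₁ : Ordinal.{0})
  let D1 : I → Set (Cond c) := fun a => {q | ∃ n ∈ q.mo, a.1.toZFSet ∈ n}
  let D2 : I × I × ℕ → Set (Cond c) := fun a =>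
    {q | (∃ n ∈ q.mo, ∃ n' ∈ q.mo, lev n = a.1.1 ∧ lev n' = a.2.1.1 ∧
        (en n' a.2.2 ⊆ c.z → ∃ k, (n, en n' a.2.2, k) ∈ q.nd)) ∨
      ¬ ∃ r ≤ q, ∃ n ∈ r.mo, ∃ n' ∈ r.mo, lev n = a.1.1 ∧ lev n' = a.2.1.1}
  have hι : Cardinal.mk (I ⊕ I × I × ℕ) ≤ Cardinal.aleph 1 := by
    rw [Cardinal.mk_sum, Cardinal.mk_prod, a4_mk, a4_mk2]
    simp
  have d1 : ∀ a, IsDense (D1 a) := by
    intro a p
    obtain ⟨Q, hQ, hg⟩ := exists_good c (s := insert a.1.toZFSet p.mo)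
      (p.fmo.countable.insert _) (by
        rintro x (rfl | hx)
        · show ZFSet.rank _ < _
          rw [Ordinal.rank_toZFSet]
          exact lt_trans a.2 c.oθ
        · exact (p.good x hx).rk)
    obtain ⟨q, hq, hQq⟩ := p.addTop hg ((Set.subset_insert _ _).trans hQ)
    exact ⟨q, ⟨Q, hQq, hQ (Set.mem_insert _ _)⟩, hq⟩
  have d2 : ∀ a, IsDense (D2 a) := by
    intro a p
    by_cases hp : ∃ r ≤ p, ∃ n ∈ r.mo, ∃ n' ∈ r.mo, lev n = a.1.1 ∧ lev n' = a.2.1.1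
    · obtain ⟨r, hr, n, hn, n', hn', e1, e2⟩ := hp
      by_cases hy : en n' a.2.2 ⊆ c.z
      · obtain ⟨q, hq, k, hk⟩ := r.addNode hn hy
        exact ⟨q, Or.inl ⟨n, hq.1 hn, n', hq.1 hn', e1, e2, fun _ => ⟨k, hk⟩⟩, hq.trans hr⟩
      · exact ⟨r, Or.inl ⟨n, hn, n', hn', e1, e2, fun h' => absurd h' hy⟩, hr⟩
    · exact ⟨p, Or.inr hp, le_rfl⟩
  refine ⟨_, Sum.elim D1 D2, hι, by rintro (a | a); exacts [d1 a, d2 a], fun G hG hD =>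
    ⟨fun α hα => ?_, fun p hp n hn n' hn' y hy hz => ?_⟩⟩
  · obtain ⟨p, hp, hp'⟩ := hD (Sum.inl ⟨α, hα⟩)
    exact ⟨p, hp, hp'⟩
  · obtain ⟨i, rfl⟩ := hen n' (p.good _ hn').cnt y hy
    obtain ⟨q, hq, hq'⟩ := hD (Sum.inr (⟨lev n, lev_lt_omega1 (p.good _ hn).cnt⟩,
      ⟨lev n', lev_lt_omega1 (p.good _ hn').cnt⟩, i))
    obtain ⟨r, -, hrp, hrq⟩ := hG p hp q hq
    rcases hq' with ⟨m, hm, m', hm', e1, e2, h3⟩ | h3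
    · obtain rfl := a4_inj r (hrq.1 hm) (hrp.1 hn) e1
      obtain rfl := a4_inj r (hrq.1 hm') (hrp.1 hn') e2
      exact ⟨q, hq, h3 hz⟩
    · exact absurd ⟨r, hrq, n, hrp.1 hn, n', hrp.1 hn', rfl, rfl⟩ h3

/-- what the generic filter gives -/
theorem exists_generic (h : PFA) (c : Par) : ∃ G : Set (Cond c),
    (∀ p ∈ G, ∀ q ∈ G, ∃ r ∈ G, r ≤ p ∧ r ≤ q) ∧
    (∀ α < (ω₁ : Ordinal.{0}), ∃ p ∈ G, ∃ n ∈ p.mo, α.toZFSet ∈ n) ∧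
    ∀ p ∈ G, ∀ n ∈ p.mo, ∀ n' ∈ p.mo, ∀ y ∈ n', y ⊆ c.z → ∃ q ∈ G, ∃ k, (n, y, k) ∈ q.nd := by
  obtain ⟨ι, D, hι, hd, hG⟩ := exists_dense c
  obtain ⟨G, g1, g2⟩ := PFA.small h (Cond c) (proper_cond c) hι D hd
  exact ⟨G, g1, hG G g1 g2⟩

theorem a4_bdd {ι : Type*} [Countable ι] (f : ι → Ordinal.{0}) (hf : ∀ i, f i < ω₁) :
    ∃ β < (ω₁ : Ordinal.{0}), ∀ i, f i ≤ β :=
  ⟨iSup f, Ordinal.iSup_lt_omega_one hf, fun i => le_ciSup ⟨ω₁, by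
    rintro _ ⟨j, rfl⟩
    exact (hf j).le⟩ i⟩

theorem gset_of_generic (c : Par) (G : Set (Cond c))
    (h1 : ∀ p ∈ G, ∀ q ∈ G, ∃ r ∈ G, r ≤ p ∧ r ≤ q)
    (h2 : ∀ α < (ω₁ : Ordinal.{0}), ∃ p ∈ G, ∃ n ∈ p.mo, α.toZFSet ∈ n)
    (h3 : ∀ p ∈ G, ∀ n ∈ p.mo, ∀ n' ∈ p.mo, ∀ y ∈ n', y ⊆ c.z →
      ∃ q ∈ G, ∃ k, (n, y, k) ∈ q.nd) :
    ∃ M, GSet c.z c.op M ∧ ∀ x, x ∈ M ↔ ∃ p ∈ G, ∃ n ∈ p.mo, x ∈ n := by
  let A : Set V := {n | ∃ p ∈ G, n ∈ p.mo}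
  have good : ∀ n ∈ A, Good c n := fun n ⟨p, _, hn⟩ => p.good n hn
  have two : ∀ n ∈ A, ∀ n' ∈ A, ∃ r ∈ G, n ∈ r.mo ∧ n' ∈ r.mo := by
    rintro n ⟨p, hp, hn⟩ n' ⟨q, hq, hn'⟩
    obtain ⟨r, hr, a, b⟩ := h1 p hp q hq
    exact ⟨r, hr, a.1 hn, b.1 hn'⟩
  have mem : ∀ n ∈ A, ∀ n' ∈ A, lev n < lev n' → n ∈ n' := by
    intro n hn n' hn' h
    obtain ⟨r, -, a, b⟩ := two n hn n' hn'
    exact a4_mem r a b h
  have sub : ∀ n ∈ A, ∀ n' ∈ A, lev n < lev n' → n ⊆ n' := fun n hn n' hn' h =>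
    (good n hn).subset_of_mem (good n' hn') (mem n hn n' hn' h)
  have lt : ∀ n ∈ A, lev n < ω₁ := fun n hn => lev_lt_omega1 (good n hn).cnt
  have up : ∀ α < (ω₁ : Ordinal.{0}), ∃ n ∈ A, α < lev n := by
    intro α hα
    obtain ⟨p, hp, n, hn, h⟩ := h2 α hα
    exact ⟨n, ⟨p, hp, hn⟩, (p.good n hn).lt_lev hα h⟩
  obtain ⟨M, hM⟩ : ∃ M : V, ∀ x, x ∈ M ↔ ∃ n ∈ A, x ∈ n := by
    refine ⟨ZFSet.sep (fun x => ∃ n ∈ A, x ∈ n) (ZFSet.vonNeumann c.θ), fun x => ?_⟩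
    rw [ZFSet.mem_sep, ZFSet.mem_vonNeumann]
    exact ⟨fun h => h.2, fun ⟨n, hn, hx⟩ =>
      ⟨(ZFSet.rank_lt_of_mem hx).trans (good n hn).rk, n, hn, hx⟩⟩
  have inM : ∀ n ∈ A, n ∈ M := by
    intro n hn
    obtain ⟨n', hn', h⟩ := up _ (lt n hn)
    exact (hM n).2 ⟨n', hn', mem n hn n' hn' h⟩
  have cov : ∀ x : Set V, x.Countable → x ⊆ M → ∃ n ∈ A, x ⊆ n := by
    intro x hx hxM
    have := hx.to_subtype
    choose N hN hN' using fun t : x => (hM t.1).1 (hxM t.2)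
    obtain ⟨β, hβ, hb⟩ := a4_bdd (fun t : x => lev (N t)) (fun t => lt _ (hN t))
    obtain ⟨n, hn, h⟩ := up β hβ
    exact ⟨n, hn, fun t ht => sub _ (hN ⟨t, ht⟩) n hn ((hb ⟨t, ht⟩).trans_lt h) (hN' ⟨t, ht⟩)⟩
  refine ⟨M, ⟨fun l hl => ?_, fun x hx => ?_, ?_, fun x hx hxM => ?_, fun d hd happ => ?_⟩,
    fun x => (hM x).trans ⟨fun ⟨n, ⟨p, hp, hn⟩, hx⟩ => ⟨p, hp, n, hn, hx⟩,
      fun ⟨p, hp, n, hn, hx⟩ => ⟨n, ⟨p, hp, hn⟩, hx⟩⟩⟩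
  · obtain ⟨n, hn, h⟩ := cov {x | x ∈ l} (List.finite_toSet l).countable hl
    exact fun y hy => (hM y).2 ⟨n, hn, (good n hn).cl l h hy⟩
  · obtain ⟨α, hα, rfl⟩ := Ordinal.mem_toZFSet_iff.1 hx
    obtain ⟨p, hp, n, hn, h⟩ := h2 α hα
    exact (hM _).2 ⟨n, ⟨p, hp, hn⟩, h⟩
  · obtain ⟨en, hen⟩ := a4_enum
    choose N hN hN' using fun α : Set.Iio (ω₁ : Ordinal.{0}) => up α.1 α.2
    have hs : (M : Set V) ⊆ Set.range fun a : Set.Iio (ω₁ : Ordinal.{0}) × ℕ =>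
        en (N a.1) a.2 := by
      intro x hx
      obtain ⟨n, hn, hxn⟩ := (hM x).1 hx
      obtain ⟨i, hi⟩ := hen _ (good _ (hN ⟨_, lt n hn⟩)).cnt x
        (sub n hn _ (hN ⟨_, lt n hn⟩) (hN' ⟨_, lt n hn⟩) hxn)
      exact ⟨(⟨_, lt n hn⟩, i), hi⟩
    have h4 := (Cardinal.mk_le_mk_of_subset hs).trans (Cardinal.mk_range_le.trans a4_mk2.le)
    have h5 : Cardinal.lift.{1, 0} M.card ≤ Cardinal.aleph 1 := by
      rw [← ZFSet.cardinalMk_coe_sort]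
      exact h4
    simpa using h5
  · obtain ⟨n, hn, h⟩ := cov x hx hxM
    exact ⟨n, inM n hn, (good n hn).cnt, h⟩
  · let L : V → ℕ → Prop := fun n k => ∃ q ∈ G, (n, d ∩ n, k) ∈ q.nd
    have LA : ∀ n k, L n k → n ∈ A := fun n k ⟨q, hq, h⟩ => ⟨q, hq, (q.ndm _ h).1⟩
    have lab : ∀ n ∈ A, ∃ k, L n k := by
      intro n hn
      obtain ⟨n', hn', h⟩ := (hM _).1 (happ n (inM n hn) (good n hn).cnt)
      obtain ⟨r, hr, a, b⟩ := two n hn n' hn'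
      obtain ⟨q, hq, k, hk⟩ := h3 r hr n a n' b _ h fun t ht => hd (ZFSet.mem_inter.1 ht).1
      exact ⟨k, q, hq, hk⟩
    obtain ⟨k, hk⟩ : ∃ k, ∀ α < (ω₁ : Ordinal.{0}), ∃ n, α < lev n ∧ L n k := by
      by_contra hc
      push Not at hc
      choose f hf hf' using hc
      obtain ⟨β, hβ, hb⟩ := a4_bdd f hf
      obtain ⟨n, hn, h⟩ := up β hβ
      obtain ⟨k, hk⟩ := lab n hn
      exact hf' k n ((hb k).trans_lt h) hk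
    have cut : ∀ n n' : V, n ⊆ n' → d ∩ n' ∩ n = d ∩ n := by
      intro n n' h
      ext t
      simp only [ZFSet.mem_inter]
      exact ⟨fun h' => ⟨h'.1.1, h'.2⟩, fun h' => ⟨⟨h'.1, h h'.2⟩, h'.2⟩⟩
    obtain ⟨n0, -, L0⟩ := hk 0 (Ordinal.omega_pos 1)
    have A0 := LA _ _ L0
    obtain ⟨e, he, hde⟩ : ∃ e ∈ n0, d ∩ n0 = e ∩ n0 := by
      obtain ⟨n1, h01, L1⟩ := hk _ (lt n0 A0)
      have A1 := LA _ _ L1
      obtain ⟨q0, hq0, t0⟩ := L0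
      obtain ⟨q1, hq1, t1⟩ := L1
      obtain ⟨r, -, a, b⟩ := h1 q0 hq0 q1 hq1
      exact r.r1 _ (a.2 t0) _ (b.2 t1) rfl (mem _ A0 _ A1 h01) (cut _ _ (sub _ A0 _ A1 h01)).symm
    refine ⟨e, (hM e).2 ⟨n0, A0, he⟩, fun t ht => ?_⟩
    obtain ⟨n, hn, htn⟩ := (hM t).1 ht
    obtain ⟨n2, h02, L2⟩ := hk _ (max_lt (lt n0 A0) (lt n hn))
    have A2 := LA _ _ L2
    have s0 := sub _ A0 _ A2 ((le_max_left _ _).trans_lt h02)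
    have s1 := sub _ hn _ A2 ((le_max_right _ _).trans_lt h02) htn
    obtain ⟨q0, hq0, t0⟩ := L0
    obtain ⟨q2, hq2, t2⟩ := L2
    obtain ⟨r, -, a, b⟩ := h1 q0 hq0 q2 hq2
    have h4 : d ∩ n2 = e ∩ n2 := r.r2 _ (a.2 t0) _ (b.2 t2) rfl n0 (r.ndm _ (a.2 t0)).1
      (fun _ h => h) s0 e he hde ((cut _ _ s0).trans hde)
    have h5 : t ∈ d ∩ n2 ↔ t ∈ e ∩ n2 := by rw [h4]
    simp only [ZFSet.mem_inter, s1, and_true] at h5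
    exact h5.symm

theorem gm_of_pfa (h : PFA) : GM := fun z op hop => by
  obtain ⟨θ, h1, h2, h3⟩ := exists_theta op hop (max z.rank ω₁)
  let c : Par := ⟨z, op, θ, hop, (le_max_left _ _).trans_lt h1, (le_max_right _ _).trans_lt h1,
    h2, h3⟩
  obtain ⟨G, g1, g2, g3⟩ := exists_generic h c
  exact (gset_of_generic c G g1 g2 g3).imp fun _ h => h.1

end Pool.Agent.Lib.MP_f00570_lc
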