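import Pool.Agent.Lib.MP_f00570_lc.Iface

/-!
# The universe as a model, elementary subsets, definability of the basic notions
-/

namespace Pool.Agent.Lib.MP_f00570_lc

open Pool.Agent.Lib.MP_f9eb18_lc Pool.Agent.Lib.MP_f9eb18_lc.W Ordinal ZFSet
set_option linter.style.haveILetI false
set_option linter.unusedVariables false

theorem isInj_of_card {a b : V} (h : a.card ≤ b.card) : ∃ f, IsInj f a b := by
  have h1 : Cardinal.mk a ≤ Cardinal.mk b := by
    rw [cardinalMk_coe_sort, cardinalMk_coe_sort]; exact Cardinal.lift_le.2 h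
  obtain ⟨f⟩ := (Cardinal.le_def _ _).1 h1
  classical
  refine ⟨lam a fun x => if h : x ∈ a then (f ⟨x, h⟩).1 else ∅, isInj_lam (fun x hx => ?_)
    fun x hx y hy e => ?_⟩
  · rw [dif_pos hx]; exact (f ⟨x, hx⟩).2
  · rw [dif_pos hx, dif_pos hy] at e
    exact congrArg Subtype.val (f.injective (Subtype.ext e))

theorem card_le_of_isInj {f a b : V} (h : IsInj f a b) : a.card ≤ b.card := by
  obtain ⟨h1, h2⟩ := isInj_iff.1 h
  have h3 : Cardinal.mk a ≤ Cardinal.mk b :=
    Cardinal.mk_le_of_injective (f := fun x => ⟨app f x.1, (isFunc_iff.1 h1).2.2 _ x.2⟩)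
      fun x y e => Subtype.ext (h2 _ x.2 _ y.2 (congrArg Subtype.val e))
  rw [cardinalMk_coe_sort, cardinalMk_coe_sort] at h3
  exact Cardinal.lift_le.1 h3

instance zfc_univ : IsZFC (Set.univ : Set V) where
  trans := fun _ _ _ _ => trivial
  omega := trivial
  upair := fun _ _ _ _ => trivial
  sUnion := fun _ _ => trivial
  sep := fun _ _ _ _ _ => trivial
  coll := fun φ v _ a _ h => by
    choose f _ hf using h
    exact ⟨ZFSet.range fun x : a => f x.1 x.2, trivial, fun x hx =>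
      ⟨_, mem_range.2 ⟨⟨x, hx⟩, rfl⟩, hf x hx⟩⟩
  wo := fun a _ => by
    obtain ⟨f, hf⟩ := isInj_of_card (a := a) (b := a.card.ord.toZFSet) (by simp [card_toZFSet])
    exact ⟨f, trivial, _, hf⟩
  pow := fun a _ => ⟨powerset a, trivial, fun _ _ h => mem_powerset.2 h⟩

/-- `C` contains the empty set -/
class Z0 (C : Set V) : Prop where
  out : (∅ : V) ∈ C
instance : Z0 Set.univ := ⟨trivial⟩

/-- the universe with parameters from `C` -/
def par (C : Set V) [h : Z0 C] : Fr :=
  ⟨fun N => N = Set.univ, C, fun _ e => e ▸ inferInstance, fun _ e => e ▸ Set.subset_univ _, h.out⟩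

section par
variable {C : Set V} [Z0 C]
instance : (par C).P := ⟨fun _ e => e ▸ zfc_univ⟩
instance (priority := high) uf_constP {α} [Enc α] (c : α) [h : In C c] :
    UF (par C) (fun _ _ => c) :=
  ⟨fun _ e _ _ => e ▸ Set.mem_univ _, UD.par (F := par C) h.out⟩
instance uc_univ : UC (par C) (fun _ _ => Set.univ) :=
  ⟨fun _ e _ _ => e ▸ subset_rfl, UD.true.congr fun _ _ _ _ => iff_true_intro trivial⟩
instance (priority := low) ud_exU {α} [Cd α] {P : Set V → (ℕ → V) → α → Prop}
    [UD (par C) (fun M v => P M (tl v) (dec (vr v 0)))] : UD (par C) (fun M v => ∃ x, P M v x) :=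
  UD.ex_of P fun _ e _ _ _ _ => e ▸ Set.mem_univ _
instance (priority := low) ud_allU {α} [Cd α] {P : Set V → (ℕ → V) → α → Prop}
    [UD (par C) (fun M v => P M (tl v) (dec (vr v 0)))] : UD (par C) (fun M v => ∀ x, P M v x) :=
  (inferInstance : UD (par C) (fun M v => ¬ ∃ x, ¬ P M v x)).congr fun _ _ _ _ => by simp
instance (priority := low) ud_exV {P : Set V → (ℕ → V) → V → Prop}
    [UD (par C) (fun M v => P M (tl v) (vr v 0))] : UD (par C) (fun M v => ∃ x, P M v x) :=
  ud_exU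
instance (priority := low) ud_allV {P : Set V → (ℕ → V) → V → Prop}
    [UD (par C) (fun M v => P M (tl v) (vr v 0))] : UD (par C) (fun M v => ∀ x, P M v x) :=
  ud_allU
instance (priority := low) ud_exO {P : Set V → (ℕ → V) → Ordinal.{0} → Prop}
    [UD (par C) (fun M v => P M (tl v) (vr v 0).rank)] : UD (par C) (fun M v => ∃ x, P M v x) :=
  ud_exU
instance (priority := low) ud_allO {P : Set V → (ℕ → V) → Ordinal.{0} → Prop}
    [UD (par C) (fun M v => P M (tl v) (vr v 0).rank)] : UD (par C) (fun M v => ∀ x, P M v x) :=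
  ud_allU
end par

/-- `M` is an elementary substructure of the universe -/
class ES (M : V) : Prop where
  elem : ∀ (φ : Fo) (v : ℕ → V), (∀ i, v i ∈ M) → (Sat1 M φ v ↔ Sat1 Set.univ φ v)
  zero : (∅ : V) ∈ M
instance (M : V) [h : ES M] : Z0 (M : Set V) := ⟨h.zero⟩

section es
variable (M : V) [hM : ES M]

/-- witnesses can be found in `M` -/
theorem ex_mem (P : V → Prop) [h : UD (par M) (fun _ v => P (vr v 0))] (hx : ∃ y, P y) :
    ∃ y ∈ M, P y := by
  obtain ⟨φ, c, hc, H⟩ := h.out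
  obtain ⟨ψ, hψ⟩ := sat_sw Set.univ φ c (fun _ => ∅) 1
  have e : ∀ y, P y ↔ Sat1 Set.univ ψ (cons y (mrg (fun _ => ∅) c)) := fun y => by
    rw [← pre_one, ← hψ, pre_one]
    exact H _ rfl (cons y fun _ => ∅) fun _ => trivial
  have hv : ∀ i, mrg (fun _ => ∅) c i ∈ M := mrg_mem (M := M) (fun _ => hM.zero) hc
  obtain ⟨y, hy⟩ := hx
  obtain ⟨a, ha, h2⟩ := (hM.elem (.ex ψ) _ hv).2 ⟨y, trivial, (e y).1 hy⟩
  exact ⟨a, ha, (e a).2 ((hM.elem ψ _ (cons_mem (M := M) ha hv)).1 h2)⟩

/-- what holds for all elements of `M` holds everywhere -/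
theorem all_of (P : V → Prop) [UD (par M) (fun _ v => P (vr v 0))] (h : ∀ y ∈ M, P y) (y : V) :
    P y := by
  by_contra hn
  obtain ⟨a, ha, h2⟩ := ex_mem M (fun y => ¬ P y) ⟨y, hn⟩
  exact h2 (h a ha)

theorem ex_ord (P : Ordinal.{0} → Prop) [UD (par M) (fun _ v => P (vr v 0).rank)]
    (hx : ∃ y, P y) : ∃ y : Ordinal.{0}, y.toZFSet ∈ M ∧ P y := by
  obtain ⟨y, hy⟩ := hx
  obtain ⟨a, ha, h1, h2⟩ := ex_mem M (fun x => x.IsOrdinal ∧ P x.rank)
    ⟨y.toZFSet, isOrdinal_toZFSet y, by rwa [rank_toZFSet]⟩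
  exact ⟨a.rank, by rwa [h1.toZFSet_rank_eq], h2⟩

theorem all_ord (P : Ordinal.{0} → Prop) [UD (par M) (fun _ v => P (vr v 0).rank)]
    (h : ∀ y : Ordinal.{0}, y.toZFSet ∈ M → P y) (y : Ordinal.{0}) : P y := by
  by_contra hn
  obtain ⟨a, ha, h2⟩ := ex_ord M (fun y => ¬ P y) ⟨y, hn⟩
  exact h2 (h a ha)

/-- definable terms with parameters in `M` denote elements of `M` -/
theorem memM (t : V) [UF (par M) (fun _ _ => t)] : t ∈ M := by
  obtain ⟨a, ha, rfl⟩ := ex_mem M (fun y => y = t) ⟨t, rfl⟩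
  exact ha

theorem memO (t : Ordinal.{0}) [UF (par M) (fun _ _ => t)] : t.toZFSet ∈ M := memM M _

end es

/-- at most `ℵ₁` elements -/
def Sm (a : V) : Prop := InjIn Set.univ a omega1Z

theorem card_omega1Z : omega1Z.card = Cardinal.aleph 1 := by
  simp [omega1Z, card_toZFSet]

theorem sm_iff {a : V} : Sm a ↔ a.card ≤ Cardinal.aleph 1 :=
  ⟨fun ⟨_, _, h⟩ => card_omega1Z ▸ card_le_of_isInj h, fun h =>
    (isInj_of_card (card_omega1Z ▸ h)).imp fun _ k => ⟨trivial, k⟩⟩

theorem ctbl_univ {a : V} : Ctbl Set.univ a ↔ (a : Set V).Countable := by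
  refine ⟨Ctbl.countable, fun h => ?_⟩
  have h1 : Cardinal.mk a ≤ Cardinal.aleph0 := Cardinal.le_aleph0_iff_set_countable.2 h
  rw [cardinalMk_coe_sort] at h1
  have h2 : a.card ≤ omegaZ.card := by
    simpa [omegaZ, card_toZFSet] using h1
  exact (isInj_of_card h2).imp fun _ k => ⟨trivial, k⟩

theorem om1_univ : om1 Set.univ = ω₁ := by
  have h : ∀ o : Ordinal.{0}, o < om1 Set.univ ↔ o < ω₁ := fun o => by
    rw [lt_om1_iff, ctbl_univ, ← Cardinal.le_aleph0_iff_set_countable]
    have : Cardinal.mk (o.toZFSet : Set V) = Cardinal.lift.{1} o.card := by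
      rw [← card_toZFSet]; exact cardinalMk_coe_sort
    rw [this, Cardinal.lift_le_aleph0, ← Cardinal.ord_aleph, Cardinal.lt_ord,
      ← Cardinal.succ_aleph0, Order.lt_succ_iff]
  exact eq_of_forall_lt_iff h

section ud
variable {C : Set V} [Z0 C]
instance uf_omega1Z : UF (par C) (fun _ _ => omega1Z) :=
  (inferInstance : UF (par C) (fun M _ => (om1 M).toZFSet)).congr fun _ e _ _ => by
    rw [e, om1_univ]; rfl
instance ud_sm {a : Set V → (ℕ → V) → V} [UF (par C) a] : UD (par C) (fun M v => Sm (a M v)) := by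
  unfold Sm; infer_instance

variable {F : Fr} {a : Set V → (ℕ → V) → V} {o : Set V → (ℕ → V) → Ordinal.{0}}
  {D : Set V → (ℕ → V) → Set V}
instance ud_accPt [UF F a] [UF F o] : UD F (fun M v => AccPt (a M v) (o M v)) := by
  have := UF.lift (F := F) a; have := UF.lift (F := F) o; unfold AccPt; infer_instance
instance ud_club [UF F a] [UF F o] : UD F (fun M v => Club (a M v) (o M v)) := by
  have := UF.lift (F := F) a; have := UF.lift (F := F) o; unfold Club; infer_instance
instance ud_stat [UC F D] [UF F a] [UF F o] :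
    UD F (fun M v => Stat (D M v) (a M v) (o M v)) := by
  have := UF.lift (F := F) a; have := UF.lift (F := F) o; unfold Stat; infer_instance
instance ud_cofW [UC F D] [UF F o] : UD F (fun M v => CofW (D M v) (o M v)) := by
  have := UC.lift (F := F) D; have := UF.lift (F := F) o; unfold CofW; infer_instance
end ud

/-- `x` is approximated by the small sets of `N` -/
def Apx (N : Set V) (x : V) : Prop := ∀ a ∈ N, Sm a → x ∩ a ∈ N

/-- the approximation closure of `N` -/
def Cl (N : Set V) : Set V :=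
  {x | ∃ μ : Ordinal.{0}, ∃ E : V, E ⊆ prod μ.toZFSet μ.toZFSet ∧ Apx N E ∧
    ∃ ξ < μ, x = col E ξ.toZFSet}

section
variable {C : Set V} [Z0 C] {N : Set V} [UC (par C) (fun _ _ => N)]
instance ud_apx {a : Set V → (ℕ → V) → V} [UF (par C) a] :
    UD (par C) (fun M v => Apx N (a M v)) := by
  have := UF.lift (F := par C) a; unfold Apx; infer_instance
instance uc_cl : UC (par C) (fun _ _ => Cl N) :=
  ⟨fun _ e _ _ => e ▸ Set.subset_univ _, by
    simp only [Cl, Set.mem_ofPred_eq]; infer_instance⟩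
end

end Pool.Agent.Lib.MP_f00570_lc
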