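import Pool.Agent.Lib.MP_f00570_lc.B0

/-!
# Guessing elementary subsets
-/

namespace Pool.Agent.Lib.MP_f00570_lc

open Pool.Agent.Lib.MP_f9eb18_lc Pool.Agent.Lib.MP_f9eb18_lc.W Ordinal ZFSet
set_option linter.style.haveILetI false
set_option linter.unusedVariables false

/-- the standing assumptions on `N`, `M`, `z` -/
structure Ctx (N : Set V) (M z : V) : Prop where
  ord : ∀ o : Ordinal.{0}, o.toZFSet ∈ N
  cov : ∀ x : V, (x : Set V).Countable → (x : Set V) ⊆ N → ∃ a ∈ N, x ⊆ a ∧ Sm (pw N a)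
  zM : z ∈ M
  zN : z ∈ N
  om1 : omega1Z ⊆ M
  sm : Sm M
  iu : ∀ x : Set V, x.Countable → x ⊆ M → ∃ y ∈ M, (y : Set V).Countable ∧ x ⊆ y
  guess : ∀ d ⊆ z, (∀ x ∈ M, (x : Set V).Countable → d ∩ x ∈ M) →
    ∃ e ∈ M, ∀ t ∈ M, (t ∈ e ↔ t ∈ d)

/-- sets closed under enough operations are elementary and contain the parameters of `N` -/
theorem exists_skolem {N : Set V} (hN : InnerModel N) (l : List V) :
    ∃ op : List V → Set V, (∀ k, (op k).Countable) ∧ ∀ M : V, Closed op (M : Set V) →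
      ∃ (_ : ES M) (_ : UC (par M) (fun _ _ => N)), ∀ x ∈ l, x ∈ M := by
  obtain ⟨φ, v, hφ⟩ := hN.defn
  have h1 : ∀ (ψ : Fo) (k : List V), ∃ y, (∃ y ∈ Set.univ, Sat1 Set.univ ψ (env (y :: k))) →
      Sat1 Set.univ ψ (env (y :: k)) := fun ψ k => by
    by_cases h : ∃ y ∈ Set.univ, Sat1 Set.univ ψ (env (y :: k))
    · obtain ⟨y, -, hy⟩ := h; exact ⟨y, fun _ => hy⟩
    · exact ⟨∅, fun k => absurd k h⟩
  choose w hw using h1
  refine ⟨fun k => Set.range (w · k) ∪ (Set.range v ∪ {x | x ∈ ∅ :: l}),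
    fun k => (Set.countable_range _).union
      ((Set.countable_range _).union (List.finite_toSet _).countable), fun M hM => ?_⟩
  have h0 := hM [] (by simp)
  have hl : ∀ x ∈ ∅ :: l, x ∈ M := fun x hx => h0 (Or.inr (Or.inr hx))
  haveI hE : ES M := ⟨z6a_tv (Set.subset_univ _) fun ψ k hk h =>
    ⟨w ψ k, hM k hk (Or.inl ⟨ψ, rfl⟩), hw ψ k h⟩, hl _ (by simp)⟩
  refine ⟨hE, ⟨fun _ e _ _ => e ▸ Set.subset_univ _, φ.ren (cons 0 fun i => 2 * i + 1), v,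
    fun i => h0 (Or.inr (Or.inl ⟨i, rfl⟩)), fun _ e u _ => ?_⟩, fun x hx => hl x (by simp [hx])⟩
  have : mrg u v ∘ (cons 0 fun i => 2 * i + 1) = cons (vr u 0) v := by
    funext i
    cases i with
    | zero => rfl
    | succ i =>
      have a1 : (2 * i + 1) % 2 ≠ 0 := by omega
      have a2 : (2 * i + 1) / 2 = i := by omega
      simp only [Function.comp, cons_succ, mrg, a1, a2, if_false]
  rw [e, sat_ren, this]; exact hφ _

theorem sm_pw {N : Set V} {a : V} :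
    Sm (pw N a) ↔ Cardinal.mk {b : V // b ∈ N ∧ b ⊆ a} ≤ Cardinal.aleph 1 := by
  have h4 : Cardinal.mk (pw N a) = Cardinal.mk {b : V // b ∈ N ∧ b ⊆ a} :=
    Cardinal.mk_congr (Equiv.subtypeEquivRight fun _ => mem_pw)
  rw [sm_iff, ← h4, cardinalMk_coe_sort]
  simp

theorem ctx_of_gset {N : Set V} (hN : InnerModel N) (hC : Cover N) {z M : V}
    {op : List V → Set V} (hz : z ∈ N) (hzM : z ∈ M) (hM : GSet z op M) : Ctx N M z :=
  ⟨hN.ord, fun x hx hxN => (hC x hx hxN).imp fun _ h => ⟨h.1, h.2.1, sm_pw.2 h.2.2⟩, hzM, hz,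
    hM.om1, sm_iff.2 hM.card, hM.iu, hM.guess⟩

theorem exists_ctx (hG : GM) {N : Set V} (hN : InnerModel N) (hC : Cover N)
    (l : List V) {z : V} (hz : z ∈ N) :
    ∃ (M : V) (_ : ES M) (_ : UC (par M) (fun _ _ => N)), (∀ x ∈ l, x ∈ M) ∧ Ctx N M z := by
  obtain ⟨op, h1, h2⟩ := exists_skolem hN (z :: l)
  obtain ⟨M, hM⟩ := hG z op h1
  obtain ⟨i1, i2, h3⟩ := h2 M hM.cl
  exact ⟨M, i1, i2, fun x hx => h3 x (by simp [hx]), ctx_of_gset hN hC hz (h3 z (by simp)) hM⟩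

theorem sm_subset {M a : V} [ES M] (h : omega1Z ⊆ M) (ha : a ∈ M) (hs : Sm a) : a ⊆ M := by
  haveI : In (M : Set V) a := ⟨ha⟩
  obtain ⟨f, hf, hi⟩ := ex_mem M (fun f => IsInj f a omega1Z) (hs.imp fun _ k => k.2)
  obtain ⟨h1, h2⟩ := isInj_iff.1 hi
  intro x hx
  obtain ⟨y, hy⟩ : ∃ y, app f x = y := ⟨_, rfl⟩
  haveI : In (M : Set V) f := ⟨hf⟩
  haveI : In (M : Set V) y := ⟨h (hy ▸ (isFunc_iff.1 h1).2.2 x hx)⟩
  obtain ⟨t, ht, h3, h4⟩ := ex_mem M (fun t => t ∈ a ∧ app f t = y) ⟨x, hx, hy⟩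
  exact h2 t h3 x hx (h4.trans hy.symm) ▸ ht

theorem ctbl_subset {M a : V} [ES M] (h : omega1Z ⊆ M) (ha : a ∈ M)
    (hs : (a : Set V).Countable) : a ⊆ M := by
  obtain ⟨f, -, hf⟩ := ctbl_univ.2 hs
  refine sm_subset h ha (sm_iff.2 ((card_le_of_isInj hf).trans ?_))
  simp [omegaZ, card_toZFSet]

/-- subsets of `z` in `N` are guessed -/
theorem Ctx.guessN {N : Set V} {M z d : V} [IsZFC N] [ES M] [UC (par M) (fun _ _ => N)]
    (h : Ctx N M z) (hd : d ∈ N) (hz : d ⊆ z) : ∃ e ∈ M, e ⊆ z ∧ ∀ t ∈ M, (t ∈ e ↔ t ∈ d) := by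
  haveI : In (M : Set V) z := ⟨h.zM⟩
  obtain ⟨e, he, h1⟩ := h.guess d hz fun x hx hc => by
    haveI : In (M : Set V) x := ⟨hx⟩
    obtain ⟨a, ha, a1, a2, a3⟩ := ex_mem M (fun a => a ∈ N ∧ x ∩ z ⊆ a ∧ Sm (pw N a))
      (h.cov _ (hc.mono fun t ht => (mem_inter.1 ht).1)
        fun t ht => IsZ.trans _ h.zN _ (mem_inter.1 ht).2)
    haveI : In (M : Set V) a := ⟨ha⟩
    haveI : In N a := ⟨a1⟩
    haveI : In N d := ⟨hd⟩
    obtain ⟨b, hb⟩ : ∃ b, b = d ∩ a := ⟨_, rfl⟩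
    haveI : In (M : Set V) b := ⟨hb ▸ sm_subset h.om1 (memM M (pw N a)) a3
      (mem_pw.2 ⟨memV_of N (d ∩ a), fun t ht => (mem_inter.1 ht).2⟩)⟩
    have : d ∩ x = b ∩ x := by
      ext t; simp only [hb, mem_inter]
      exact ⟨fun k => ⟨⟨k.1, a2 (mem_inter.2 ⟨k.2, hz k.1⟩)⟩, k.2⟩, fun k => ⟨k.1.1, k.2⟩⟩
    rw [this]; exact memM M _
  haveI : In (M : Set V) e := ⟨he⟩
  exact ⟨e ∩ z, memM M _, fun t ht => (mem_inter.1 ht).2, fun t ht => by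
    rw [mem_inter, h1 t ht]; exact ⟨fun k => k.1, fun k => ⟨k, hz k⟩⟩⟩

/-- `M` contains the limits of its countable sets of ordinals that are bounded in `M` -/
theorem omega_closed {M b : V} [ES M] (h1 : omega1Z ⊆ M)
    (iu : ∀ x : Set V, x.Countable → x ⊆ M → ∃ y ∈ M, (y : Set V).Countable ∧ x ⊆ y)
    (hb : (b : Set V).Countable) (hM : b ⊆ M) {ζ ζ' : Ordinal.{0}} (ha : AccPt b ζ) (hle : ζ ≤ ζ')
    (h' : ζ'.toZFSet ∈ M) : ζ.toZFSet ∈ M := by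
  obtain ⟨y, hy, hc, hby⟩ := iu b hb hM
  obtain ⟨o, ⟨o1, o2⟩, ho⟩ := (wellFounded_lt (α := Ordinal.{0})).has_min
    {o | ζ ≤ o ∧ o.toZFSet ∈ M} ⟨ζ', hle, h'⟩
  haveI : In (M : Set V) y := ⟨hy⟩
  haveI : In (M : Set V) o := ⟨o2⟩
  have : (y ∩ o.toZFSet).rank = ζ := by
    refine le_antisymm (rank_le_iff.2 fun t ht => ?_) (le_of_forall_lt fun ξ hξ => ?_)
    · obtain ⟨t1, t2⟩ := mem_inter.1 ht
      obtain ⟨η, hη, rfl⟩ := mem_toZFSet_iff.1 t2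
      rw [rank_toZFSet]
      exact lt_of_not_ge fun k => ho η ⟨k, ctbl_subset h1 hy hc t1⟩ hη
    · obtain ⟨η, h4, h2, h3⟩ := ha.2 ξ hξ
      refine h2.trans ?_
      have := rank_lt_of_mem (mem_inter.2 ⟨hby h3, toZFSet_mem_toZFSet_iff.2 (h4.trans_le o1)⟩)
      rwa [rank_toZFSet] at this
  rw [← this]; exact memO M _

theorem Ctx.omega_closed {N : Set V} {M z b : V} [ES M] (h : Ctx N M z)
    (hb : (b : Set V).Countable) (hM : b ⊆ M) {ζ ζ' : Ordinal.{0}} (ha : AccPt b ζ) (hle : ζ ≤ ζ')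
    (h' : ζ'.toZFSet ∈ M) : ζ.toZFSet ∈ M :=
  MP_f00570_lc.omega_closed h.om1 h.iu hb hM ha hle h'

end Pool.Agent.Lib.MP_f00570_lc
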