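import Pool.Agent.Lib.MP_f00570_lc.B0

/-!
# Clubs; ladders in `N`
-/

namespace Pool.Agent.Lib.MP_f00570_lc

open Pool.Agent.Lib.MP_f9eb18_lc Pool.Agent.Lib.MP_f9eb18_lc.W Ordinal ZFSet
set_option linter.style.haveILetI false
set_option linter.unusedVariables false

theorem AccPt.mono {b c : V} {ζ : Ordinal.{0}} (h : AccPt b ζ)
    (hs : ∀ η < ζ, η.toZFSet ∈ b → η.toZFSet ∈ c) : AccPt c ζ :=
  ⟨h.1, fun ξ hξ => (h.2 ξ hξ).imp fun η k => ⟨k.1, k.2.1, hs η k.1 k.2.2⟩⟩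

/-- the next point of `c` above `x` -/
noncomputable def b3_nx (γ : Ordinal.{0}) (c : V) (x : Ordinal.{0}) : Ordinal.{0} :=
  olst γ fun η => x < η ∧ η.toZFSet ∈ c

theorem b3_nx_spec {c : V} {γ x : Ordinal.{0}} (h : AccPt c γ) (hx : x < γ) :
    b3_nx γ c x < γ ∧ x < b3_nx γ c x ∧ (b3_nx γ c x).toZFSet ∈ c := by
  obtain ⟨η, h1, h2⟩ := h.2 x hx
  have h3 : b3_nx γ c x < γ := (olst_le_of h1 h2).trans_lt h1
  exact ⟨h3, olst_spec h3⟩

/-- the limit of the iterates of an increasing map -/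
theorem b3_iter {γ ξ : Ordinal.{0}} (hγ : Cardinal.aleph0 < γ.cof) {g : Ordinal.{0} → Ordinal.{0}}
    (hg : ∀ x < γ, x < g x ∧ g x < γ) (hξ : ξ < γ) :
    ∃ ζ < γ, (∀ n, g^[n] ξ < ζ) ∧ ∀ x < ζ, ∃ n, x < g^[n] ξ ∧ x < g^[n + 1] ξ := by
  have h1 : ∀ n, g^[n] ξ < γ := fun n => by
    induction n with
    | zero => exact hξ
    | succ n ih => rw [Function.iterate_succ_apply']; exact (hg _ ih).2
  have h2 : ∀ n, g^[n] ξ < g^[n + 1] ξ := fun n => by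
    rw [Function.iterate_succ_apply']; exact (hg _ (h1 n)).1
  refine ⟨⨆ n, g^[n] ξ, iSup_lt_of_lt_cof (by simpa using hγ) h1,
    fun n => (h2 n).trans_le (Ordinal.le_iSup (fun n => g^[n] ξ) (n + 1)), fun x hx => ?_⟩
  exact (Ordinal.lt_iSup_iff.1 hx).imp fun n k => ⟨k, k.trans (h2 n)⟩

theorem b3_osup_lt {γ o : Ordinal.{0}} (ho : o.card < γ.cof) {f : V → Ordinal.{0}}
    (hf : ∀ x ∈ o.toZFSet, f x < γ) : osup o.toZFSet f < γ := by
  refine lt_of_le_of_lt (osup_le_iff.2 fun x hx => Ordinal.le_iSup (fun y : o.toZFSet => f y.1)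
    ⟨x, hx⟩) (lift_iSup_lt_of_lt_cof ?_ fun y => hf _ y.2)
  rw [cardinalMk_coe_sort, card_toZFSet, ← lift_cof, Cardinal.lift_lift]
  exact Cardinal.lift_lt.2 ho

/-- interleaving two unbounded sets -/
theorem exists_acc2 {c c' : V} {γ ξ : Ordinal.{0}} (hγ : Cardinal.aleph0 < γ.cof)
    (h : AccPt c γ) (h' : AccPt c' γ) (hξ : ξ < γ) :
    ∃ ζ < γ, ξ < ζ ∧ AccPt c ζ ∧ ∃ b ⊆ c', (b : Set V).Countable ∧ AccPt b ζ := by
  set g := fun x => b3_nx γ c' (b3_nx γ c x) with hg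
  have k := fun x hx => b3_nx_spec (x := x) h hx
  have k' := fun x hx => b3_nx_spec h' (k x hx).1
  obtain ⟨ζ, h1, h2, h3⟩ := b3_iter hγ (g := g)
    (fun x hx => ⟨(k x hx).2.1.trans (k' x hx).2.1, (k' x hx).1⟩) hξ
  have h0 : 0 < ζ := zero_le.trans_lt (h2 0)
  refine ⟨ζ, h1, h2 0, ⟨h0, fun x hx => ?_⟩, ZFSet.range fun n : ℕ => (g^[n + 1] ξ).toZFSet,
    fun y hy => ?_, ?_, h0, fun x hx => ?_⟩
  · obtain ⟨n, hn, -⟩ := h3 x hx
    have h4 := (h2 n).trans h1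
    refine ⟨_, (k' _ h4).2.1.trans ?_, hn.trans (k _ h4).2.1, (k _ h4).2.2⟩
    have := h2 (n + 1)
    rwa [Function.iterate_succ_apply'] at this
  · obtain ⟨n, rfl⟩ := mem_range.1 hy
    rw [Function.iterate_succ_apply']
    exact (k' _ ((h2 n).trans h1)).2.2
  · rw [coe_range]; exact Set.countable_range _
  · obtain ⟨n, -, hn⟩ := h3 x hx
    exact ⟨_, h2 (n + 1), hn, mem_range.2 ⟨n, rfl⟩⟩

/-- the accumulation points of `c` below `γ` -/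
noncomputable def accs (c : V) (γ : Ordinal.{0}) : V :=
  ZFSet.sep (fun x => AccPt c x.rank) γ.toZFSet

theorem mem_accs {c : V} {γ ζ : Ordinal.{0}} : ζ.toZFSet ∈ accs c γ ↔ ζ < γ ∧ AccPt c ζ := by
  simp [accs]

theorem club_accs {c : V} {γ : Ordinal.{0}} (hγ : Cardinal.aleph0 < γ.cof) (h : AccPt c γ) :
    Club (accs c γ) γ := by
  refine ⟨fun x hx => (mem_sep.1 hx).1, ⟨h.1, fun ξ hξ => ?_⟩,
    fun ζ h1 h2 => mem_accs.2 ⟨h1, h2.1, fun ξ hξ => ?_⟩⟩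
  · obtain ⟨ζ, h1, h2, h3, -⟩ := exists_acc2 hγ h h hξ
    exact ⟨ζ, h1, h2, mem_accs.2 ⟨h1, h3⟩⟩
  · obtain ⟨η, h3, h4, h5⟩ := h2.2 ξ hξ
    exact ((mem_accs.1 h5).2.2 ξ h4).imp fun _ k => ⟨k.1.trans h3, k.2⟩

/-- `G` is a ladder system below `lam` -/
def Ladder (N : Set V) (G : V) (lam : Ordinal.{0}) : Prop :=
  ∀ ζ < lam, CofW N ζ → Ctbl N (app G ζ.toZFSet) ∧ AccPt (app G ζ.toZFSet) ζ

theorem exists_ladder (N : Set V) [IsZFC N] {lam : Ordinal.{0}} (h : lam.toZFSet ∈ N) :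
    ∃ G ∈ N, Ladder N G lam := by
  obtain ⟨G, hG, -, -, k⟩ := choice_fn N
    (fun x y => CofW N x.rank → Ctbl N y ∧ AccPt y x.rank) h fun x _ => by
      by_cases h1 : CofW N x.rank
      · exact h1.imp fun _ k => ⟨k.1, fun _ => k.2⟩
      · exact ⟨∅, IsZ.empty_mem N, fun h2 => absurd h2 h1⟩
  refine ⟨G, hG, fun ζ h1 => ?_⟩
  simpa only [rank_toZFSet] using k _ (toZFSet_mem_toZFSet_iff.2 h1)

/-- the points below `γ` whose ladder contains `β` -/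
noncomputable def Tb (N : Set V) (G : V) (γ : Ordinal.{0}) (β : V) : V :=
  ZFSet.sep (fun x => CofW N x.rank ∧ x.rank > β.rank ∧ β ∈ app G x) γ.toZFSet

theorem mem_Tb {N : Set V} {G β : V} {γ ζ : Ordinal.{0}} :
    ζ.toZFSet ∈ Tb N G γ β ↔ ζ < γ ∧ CofW N ζ ∧ β.rank < ζ ∧ β ∈ app G ζ.toZFSet := by
  simp [Tb]

instance uf_Tb {F : Fr} {D : Set V → (ℕ → V) → Set V} {a b : Set V → (ℕ → V) → V}
    {o : Set V → (ℕ → V) → Ordinal.{0}} [UC F D] [UF F a] [UF F b] [UF F o] :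
    UF F (fun M v => Tb (D M v) (a M v) (o M v) (b M v)) := by
  have := UC.lift (F := F) D; have := UF.lift (F := F) a; have := UF.lift (F := F) b
  simp only [Tb, gt_iff_lt]; infer_instance

instance ud_ladder {F : Fr} {D : Set V → (ℕ → V) → Set V} {a : Set V → (ℕ → V) → V}
    {o : Set V → (ℕ → V) → Ordinal.{0}} [UC F D] [UF F a] [UF F o] :
    UD F (fun M v => Ladder (D M v) (a M v) (o M v)) := by
  have := UC.lift (F := F) D; have := UF.lift (F := F) a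
  unfold Ladder; infer_instance

/-- unboundedly many `β` lie on `N`-stationarily many ladders -/
theorem unbounded_stat (N : Set V) [IsZFC N] {κ : Cardinal.{0}} (hκ : κ.IsRegular)
    (h0 : Cardinal.aleph0 < κ) (hN : κ.ord.toZFSet ∈ N) {G : V} (hG : G ∈ N)
    (hL : Ladder N G κ.ord) {α : Ordinal.{0}} (hα : α < κ.ord) :
    ∃ β < κ.ord, α ≤ β ∧ Stat N (Tb N G κ.ord β.toZFSet) κ.ord := by
  by_contra hn
  have hl : Order.IsSuccLimit κ.ord := Cardinal.isSuccLimit_ord hκ.aleph0_le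
  have hc : ∀ o < κ.ord, o.card < κ.ord.cof := fun o ho => by
    rw [hκ.cof_ord]; exact Cardinal.lt_ord.1 ho
  have hγ : Cardinal.aleph0 < κ.ord.cof := by rwa [hκ.cof_ord]
  generalize κ.ord = γ at hn hl hc hγ hN hL hα
  haveI : In N γ := ⟨hN⟩
  haveI : In N G := ⟨hG⟩
  haveI : In N α := ⟨IsZ.ord_mem_of_le N hN hα.le⟩
  obtain ⟨C, hC, -, -, k⟩ := choice_fn N
    (fun x y => Club y γ ∧ (α ≤ x.rank → ∀ t ∈ Tb N G γ x, t ∉ y)) hN fun x hx => by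
      obtain ⟨β, hβ, rfl⟩ := mem_toZFSet_iff.1 hx
      rw [rank_toZFSet]
      by_cases h1 : α ≤ β
      · by_contra h2
        refine hn ⟨β, hβ, h1, fun c h3 h4 => ?_⟩
        by_contra h5
        exact h2 ⟨c, h3, h4, fun _ t h6 h7 => h5 ⟨t, h6, h7⟩⟩
      · exact ⟨_, hN, ⟨subset_rfl, ⟨hl.pos, fun ξ hξ => ⟨_, hl.succ_lt hξ, Order.lt_succ ξ,
          toZFSet_mem_toZFSet_iff.2 (hl.succ_lt hξ)⟩⟩, fun ζ h _ => toZFSet_mem_toZFSet_iff.2 h⟩,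
          fun h => absurd h h1⟩
  haveI : In N C := ⟨hC⟩
  set g := fun x : Ordinal.{0} => osup (x + 1).toZFSet fun b => b3_nx γ (app C b) x with hg
  have k1 : ∀ x < γ, ∀ b ∈ (x + 1).toZFSet, _ := fun x hx b hb =>
    b3_nx_spec (k b (toZFSet_monotone (hl.add_one_lt hx).le hb)).1.2.1 hx
  have m : ∀ {x y : Ordinal.{0}}, y ≤ x → y.toZFSet ∈ (x + 1).toZFSet := fun h =>
    toZFSet_mem_toZFSet_iff.2 (Order.lt_add_one_iff.2 h)
  obtain ⟨ζ, h1, h2, h3⟩ := b3_iter hγ (g := g) (fun x hx =>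
    ⟨(k1 x hx _ (m le_rfl)).2.1.trans_le (le_osup (fun b => b3_nx γ (app C b) x) (m le_rfl)),
      b3_osup_lt (hc _ (hl.add_one_lt hx)) fun b hb => (k1 x hx b hb).1⟩) hα
  have h0 : 0 < ζ := zero_le.trans_lt (h2 0)
  haveI : UF (loc N) (fun _ v => (g^[natOf (vr v 0)] α).toZFSet) := by
    simp only [hg, b3_nx]; infer_instance
  have hb : img (fun x => (g^[natOf x] α).toZFSet) omegaZ ∈ N := memV_of N _
  have hW : CofW N ζ := ⟨_, hb, z5b_img ctbl_omega _ hb fun y hy => mem_img.1 hy, h0,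
    fun x hx => by
      obtain ⟨n, hn, -⟩ := h3 x hx
      exact ⟨_, h2 n, hn, mem_img.2 ⟨_, natZ_mem_omegaZ n, by rw [natOf_natZ]⟩⟩⟩
  obtain ⟨η, e1, e2, e3⟩ := (hL ζ h1 hW).2.2 α (h2 0)
  obtain ⟨c1, c2⟩ := k _ (toZFSet_mem_toZFSet_iff.2 (e1.trans h1))
  rw [rank_toZFSet] at c2
  refine c2 e2.le _ (mem_Tb.2 ⟨h1, hW, by rwa [rank_toZFSet], e3⟩)
    (c1.2.2 ζ h1 ⟨h0, fun x hx => ?_⟩)
  obtain ⟨n, hn, -⟩ := h3 _ (max_lt hx e1)
  have h4 := m ((le_max_right _ _).trans hn.le)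
  have h5 := k1 _ ((h2 n).trans h1) _ h4
  refine ⟨_, (le_osup (fun b => b3_nx γ (app C b) (g^[n] α)) h4).trans_lt ?_,
    ((le_max_left _ _).trans_lt hn).trans h5.2.1, h5.2.2⟩
  have := h2 (n + 1)
  rwa [Function.iterate_succ_apply'] at this

end Pool.Agent.Lib.MP_f00570_lc
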