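import Pool.Agent.Lib.MP_f00570_lc.B1
import Pool.Agent.Lib.MP_f00570_lc.B3

/-!
# `M ∩ λ ∈ N`
-/

namespace Pool.Agent.Lib.MP_f00570_lc

open Pool.Agent.Lib.MP_f9eb18_lc Pool.Agent.Lib.MP_f9eb18_lc.W Ordinal ZFSet
set_option linter.style.haveILetI false
set_option linter.unusedVariables false

theorem b2_ctbl {c : V} {ζ : Ordinal.{0}} (hc : AccPt c ζ) {S : Set Ordinal.{0}}
    (hS : S.Countable) (h : ∀ ξ < ζ, ∃ s ∈ S, s < ζ ∧ ξ ≤ s) :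
    ∃ b ⊆ c, (b : Set V).Countable ∧ AccPt b ζ := by
  choose! F h1 h2 h3 using hc.2
  refine ⟨ZFSet.sep (fun x => x ∈ (fun s => (F s).toZFSet) '' S) c, fun x hx => (mem_sep.1 hx).1,
    (hS.image fun s => (F s).toZFSet).mono fun x hx => (mem_sep.1 hx).2, hc.1, fun ξ hξ => ?_⟩
  obtain ⟨s, hs, k1, k2⟩ := h ξ hξ
  exact ⟨F s, h1 s k1, k2.trans_lt (h2 s k1), mem_sep.2 ⟨h3 s k1, s, hs, rfl⟩⟩

theorem b2_ctbl' {c g : V} {ζ : Ordinal.{0}} (hc : AccPt c ζ) (hg : AccPt g ζ)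
    (hS : (g : Set V).Countable) : ∃ b ⊆ c, (b : Set V).Countable ∧ AccPt b ζ :=
  b2_ctbl hc (hS.image ZFSet.rank) fun ξ hξ => by
    obtain ⟨η, k1, k2, k3⟩ := hg.2 ξ hξ
    exact ⟨η, ⟨_, k3, rank_toZFSet η⟩, k1, k2.le⟩

theorem b2_cof {c : V} {ζ : Ordinal.{0}} (hc : AccPt c ζ) (h : ζ.cof ≤ Cardinal.aleph0) :
    ∃ b ⊆ c, (b : Set V).Countable ∧ AccPt b ζ := by
  obtain ⟨s, hs, e⟩ := Order.exists_cof_eq (Set.Iio ζ)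
  have h1 : s.Countable := by
    rw [← Cardinal.le_aleph0_iff_set_countable, e, cof_Iio, ← lift_cof]
    exact Cardinal.lift_le_aleph0.2 h
  refine b2_ctbl hc (h1.image Subtype.val) fun ξ hξ => ?_
  obtain ⟨y, hy, k⟩ := hs ⟨ξ, hξ⟩
  exact ⟨y.1, ⟨y, hy, rfl⟩, y.2, k⟩

/-- an unbounded subset of a regular cardinal is large in `N` -/
theorem b2_inj (N : Set V) [IsZFC N] {κ : Cardinal.{0}} (hκ : κ.IsRegular) {B : V} (hB : B ∈ N)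
    (hs : B ⊆ κ.ord.toZFSet) (hu : ∀ α < κ.ord, ∃ β : Ordinal.{0}, α ≤ β ∧ β.toZFSet ∈ B) :
    ∃ f ∈ N, IsInj f κ.ord.toZFSet B := by
  obtain ⟨o, ho, f, hf, hi, hr⟩ := exists_ord_bij hB
  obtain ⟨h1, h2⟩ := isInj_iff.1 hi
  obtain ⟨h3, h4, h5⟩ := isFunc_iff.1 h1
  have hle : κ.ord ≤ o := by
    by_contra hlt
    rw [not_le] at hlt
    have h6 : Cardinal.lift.{0} (Cardinal.mk (Set.Iio o)) < (Ordinal.lift.{1} κ.ord).cof := by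
      rw [← lift_cof, hκ.cof_ord, Cardinal.mk_Iio_ordinal, Cardinal.lift_lift]
      exact Cardinal.lift_lt.2 (Cardinal.lt_ord.1 hlt)
    have h7 := lift_iSup_add_one_lt_of_lt_cof (f := fun x : Set.Iio o => (app f x.1.toZFSet).rank)
      h6 fun x => by
        simpa using rank_lt_of_mem (hs (h5 _ (toZFSet_mem_toZFSet_iff.2 x.2)))
    obtain ⟨β, k1, k2⟩ := hu _ h7
    obtain ⟨x, hx⟩ := mem_ran.1 (hr ▸ k2)
    obtain ⟨a, ha, rfl⟩ := mem_toZFSet_iff.1 (h4 ▸ mem_dom.2 ⟨_, hx⟩)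
    have h8 := (Ordinal.lt_iSup_add_one
      (fun x : Set.Iio o => (app f x.1.toZFSet).rank) ⟨a, ha⟩).trans_le k1
    simp [h3.app_eq hx] at h8
  haveI : In N f := ⟨hf⟩
  haveI : In N κ.ord := ⟨IsZ.ord_mem_of_le N ho hle⟩
  have hsub := toZFSet_monotone hle
  exact ⟨lam κ.ord.toZFSet (fun x => app f x), memV_of N _,
    isInj_lam (fun x hx => h5 x (hsub hx)) fun x hx y hy => h2 x (hsub hx) y (hsub hy)⟩

theorem b2_Tb {N : Set V} [IsZFC N] {G β : V} {γ : Ordinal.{0}} (hs : StatPres N) (hG : G ∈ N)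
    (hβ : β ∈ N) (hγ : γ.toZFSet ∈ N) (hc : Cardinal.aleph0 < γ.cof)
    (h : Stat N (Tb N G γ β) γ) {c : V} (hA : AccPt c γ) :
    ∃ ζ < γ, CofW N ζ ∧ β.rank < ζ ∧ β ∈ app G ζ.toZFSet ∧ AccPt c ζ := by
  haveI : In N G := ⟨hG⟩
  haveI : In N β := ⟨hβ⟩
  haveI : In N γ := ⟨hγ⟩
  obtain ⟨x, hx, hx'⟩ := hs γ hc _ (memV_of N (Tb N G γ β)) (fun x hx => by
    obtain ⟨ζ, k, rfl⟩ := mem_toZFSet_iff.1 (mem_sep.1 hx).1
    exact ⟨ζ, k, rfl, (mem_Tb.1 hx).2.1⟩) h _ trivial (club_accs hc hA)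
  obtain ⟨ζ, k, rfl⟩ := mem_toZFSet_iff.1 (mem_sep.1 hx).1
  obtain ⟨k1, k2, k3, k4⟩ := mem_Tb.1 hx
  exact ⟨ζ, k1, k2, k3, k4, (mem_accs.1 hx').2⟩

/-- the supremum of the trace of `M` on a limit ordinal -/
theorem eta_spec {M : V} [ES M] (h1 : omega1Z ⊆ M)
    (iu : ∀ x : Set V, x.Countable → x ⊆ M → ∃ y ∈ M, (y : Set V).Countable ∧ x ⊆ y)
    {l η : Ordinal.{0}} (hlim : Order.IsSuccLimit l) (hcl : Cardinal.aleph0 < l.cof)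
    (hM : l.toZFSet ∈ M) (hη : η = (M ∩ l.toZFSet).rank) :
    η ≤ l ∧ (∀ ξ < l, ξ.toZFSet ∈ M → ξ < η) ∧ AccPt M η ∧ Cardinal.aleph0 < η.cof := by
  have hηl : η ≤ l := by
    rw [hη, ← rank_toZFSet l]
    exact rank_mono fun x hx => by simpa using (mem_inter.1 hx).2
  have hlt : ∀ ξ < l, ξ.toZFSet ∈ M → ξ < η := fun ξ k1 k2 => by
    simpa [hη] using rank_lt_of_mem (mem_inter.2 ⟨k2, toZFSet_mem_toZFSet_iff.2 k1⟩)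
  have hA : AccPt M η := by
    refine ⟨hlt 0 hlim.bot_lt (by simpa using ES.zero), fun ξ hξ => ?_⟩
    obtain ⟨y, hy, k⟩ := ZFSet.lt_rank_iff.1 (hη ▸ hξ)
    obtain ⟨a, ha, rfl⟩ := mem_toZFSet_iff.1 (mem_inter.1 hy).2
    haveI : In (M : Set V) a := ⟨(mem_inter.1 hy).1⟩
    have k2 := memO M (Order.succ a)
    exact ⟨_, hlt _ (hlim.succ_lt ha) k2, Order.lt_succ_of_le (by simpa using k), k2⟩
  have hcη : Cardinal.aleph0 < η.cof := by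
    rcases hηl.eq_or_lt with e | e
    · rwa [e]
    · by_contra hn
      obtain ⟨b, k1, k2, k3⟩ := b2_cof hA (not_lt.1 hn)
      exact (hlt η e (omega_closed h1 iu k2 k1 k3 hηl hM)).false
  exact ⟨hηl, hlt, hA, hcη⟩

theorem Ctx.inter_mem {N : Set V} {M z : V} [IsZFC N] [ES M] [UC (par M) (fun _ _ => N)]
    (h : Ctx N M z) (hsp : StatPres N) {κ : Cardinal.{0}} (hκ : κ.IsRegular) (h0 : Cardinal.aleph0 < κ)
    (hM : κ.ord.toZFSet ∈ M) (hz : κ.ord.toZFSet ⊆ z) : M ∩ κ.ord.toZFSet ∈ N := by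
  have hcl : Cardinal.aleph0 < κ.ord.cof := by rwa [hκ.cof_ord]
  have hlim : Order.IsSuccLimit κ.ord := Cardinal.isSuccLimit_ord h0.le
  have hub := fun G hG hL α => unbounded_stat N hκ h0 (h.ord _) (G := G) hG hL (α := α)
  have hinj := fun B => b2_inj N hκ (B := B)
  generalize κ.ord = l at *
  haveI : In (M : Set V) l := ⟨hM⟩
  haveI : In N l := ⟨h.ord l⟩
  obtain ⟨η, hη⟩ : ∃ η, η = (M ∩ l.toZFSet).rank := ⟨_, rfl⟩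
  haveI : In N η := ⟨h.ord η⟩
  obtain ⟨hηl, hlt, hA, hcη⟩ := eta_spec h.om1 h.iu hlim hcl hM hη
  obtain ⟨G, hGM, hGN, hL⟩ := ex_mem M (fun G => G ∈ N ∧ Ladder N G l) (exists_ladder N (h.ord l))
  haveI : In (M : Set V) G := ⟨hGM⟩
  haveI : In N G := ⟨hGN⟩
  have hlad : ∀ ζ < l, CofW N ζ → ζ.toZFSet ∈ M → app G ζ.toZFSet ⊆ M := fun ζ k1 k2 k3 => by
    haveI : In (M : Set V) ζ := ⟨k3⟩
    exact ctbl_subset h.om1 (memM M _) (hL ζ k1 k2).1.countable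
  have hZM : ∀ β < η, Stat N (Tb N G η β.toZFSet) η → β.toZFSet ∈ M := fun β hβ hs => by
    obtain ⟨ζ, k1, k2, -, k4, k5⟩ := b2_Tb hsp hGN (h.ord β) (h.ord η) hcη hs hA
    have k6 := hL ζ (k1.trans_le hηl) k2
    obtain ⟨b, k7, k8, k9⟩ := b2_ctbl' k5 k6.2 k6.1.countable
    exact hlad ζ (k1.trans_le hηl) k2 (h.omega_closed k8 k7 k9 (k1.le.trans hηl) hM) k4
  have hBZ : ∀ β < l, β.toZFSet ∈ M → Stat N (Tb N G l β.toZFSet) l →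
      Stat N (Tb N G η β.toZFSet) η := fun β hβ hβM hs c hc hcc => by
    obtain ⟨e, heM, -, he⟩ := h.guessN hc fun x hx => hz (toZFSet_monotone hηl (hcc.1 hx))
    haveI : In (M : Set V) e := ⟨heM⟩
    haveI : In (M : Set V) β := ⟨hβM⟩
    have hel : AccPt e l := by
      refine ⟨hlim.bot_lt, all_ord M (fun ξ => ξ < l → ∃ η < l, ξ < η ∧ η.toZFSet ∈ e)
        fun ξ k1 k2 => ?_⟩
      obtain ⟨ζ, j1, j2, j3, b, j4, j5, j6⟩ := exists_acc2 hcη hcc.2.1 hA (hlt ξ k2 k1)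
      exact ⟨ζ, j1.trans_le hηl, j2,
        (he _ (h.omega_closed j5 j4 j6 (j1.le.trans hηl) hM)).2 (hcc.2.2 ζ j1 j3)⟩
    obtain ⟨ζ, hζM, k1, k2, k3, k4, k5⟩ := ex_ord M (fun ζ => ζ < l ∧ CofW N ζ ∧
      β.toZFSet.rank < ζ ∧ β.toZFSet ∈ app G ζ.toZFSet ∧ AccPt e ζ)
      (b2_Tb hsp hGN (h.ord β) (h.ord l) hcl hs hel)
    haveI : In (M : Set V) ζ := ⟨hζM⟩
    refine ⟨_, mem_Tb.2 ⟨hlt ζ k1 hζM, k2, k3, k4⟩, hcc.2.2 ζ (hlt ζ k1 hζM) ⟨k5.1, fun ξ hξ => ?_⟩⟩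
    obtain ⟨ξ', j1, j2, j3⟩ := (hL ζ k1 k2).2.2 ξ hξ
    haveI : In (M : Set V) ξ' := ⟨hlad ζ k1 k2 hζM j3⟩
    obtain ⟨τ, j4, j5, j6, j7⟩ := ex_ord M (fun τ => τ < ζ ∧ ξ' < τ ∧ τ.toZFSet ∈ e) (k5.2 ξ' j1)
    exact ⟨τ, j5, j2.trans j6, (he _ j4).1 j7⟩
  obtain ⟨B, hB⟩ : ∃ B, B = ZFSet.sep (fun x => Stat N (Tb N G l x) l) l.toZFSet := ⟨_, rfl⟩
  obtain ⟨Z, hZ⟩ : ∃ Z, Z = ZFSet.sep (fun x => Stat N (Tb N G η x) η) η.toZFSet := ⟨_, rfl⟩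
  have hBN : B ∈ N := hB ▸ sep_mem N _ (h.ord l)
  haveI : In N Z := ⟨hZ ▸ sep_mem N _ (h.ord η)⟩
  haveI : In (M : Set V) B := ⟨hB ▸ memM M _⟩
  obtain ⟨f, hfM, hfN, hf⟩ := ex_mem M (fun f => f ∈ N ∧ IsInj f l.toZFSet B)
    (hinj B hBN (fun x hx => (mem_sep.1 (hB ▸ hx)).1) fun α hα => by
      obtain ⟨β, k1, k2, k3⟩ := hub G hGN hL α hα
      exact ⟨β, k2, hB ▸ mem_sep.2 ⟨toZFSet_mem_toZFSet_iff.2 k1, k3⟩⟩)
  haveI : In (M : Set V) f := ⟨hfM⟩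
  haveI : In N f := ⟨hfN⟩
  obtain ⟨h1, h2⟩ := isInj_iff.1 hf
  have h3 := (isFunc_iff.1 h1).2.2
  have e : M ∩ l.toZFSet = ZFSet.sep (fun x => app f x ∈ Z) l.toZFSet := by
    ext x
    rw [mem_inter, mem_sep, and_comm]
    refine and_congr_right fun hx => ⟨fun hxM => ?_, fun k => ?_⟩
    · haveI : In (M : Set V) x := ⟨hxM⟩
      have k1 := memM M (app f x)
      obtain ⟨k2, k3⟩ := mem_sep.1 (hB ▸ h3 x hx)
      obtain ⟨β, hβ, e⟩ := mem_toZFSet_iff.1 k2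
      rw [← e] at k1 k3 ⊢
      exact hZ ▸ mem_sep.2 ⟨toZFSet_mem_toZFSet_iff.2 (hlt β hβ k1), hBZ β hβ k1 k3⟩
    · obtain ⟨k2, k3⟩ := mem_sep.1 (hZ ▸ k)
      obtain ⟨β, hβ, e⟩ := mem_toZFSet_iff.1 k2
      rw [← e] at k3
      haveI : In (M : Set V) β := ⟨hZM β hβ k3⟩
      obtain ⟨y, hy, j1, j2⟩ := ex_mem M (fun y => y ∈ l.toZFSet ∧ app f y = β.toZFSet)
        ⟨x, hx, e.symm⟩
      exact h2 y j1 x hx (j2.trans e) ▸ hy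
  rw [e]
  exact sep_mem N _ (h.ord l)

end Pool.Agent.Lib.MP_f00570_lc
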