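import Pool.Agent.Lib.MP_f00570_lc.B0

/-!
# The collapse of an elementary subset; rank-monotone codes; the reflection interface
-/

namespace Pool.Agent.Lib.MP_f00570_lc

open Pool.Agent.Lib.MP_f9eb18_lc Pool.Agent.Lib.MP_f9eb18_lc.W Ordinal ZFSet
set_option linter.style.haveILetI false
set_option linter.unusedVariables false

/-- the collapsing map of `M` -/
noncomputable def pi (M x : V) : V := col (memR M) x

theorem mem_pi {M y t : V} (hy : y ∈ M) : t ∈ pi M y ↔ ∃ x ∈ M, x ∈ y ∧ pi M x = t := by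
  rw [pi, mem_col ((wf_memR M).accP y)]
  exact ⟨fun ⟨x, h, e⟩ => ⟨x, (z4c_memR.1 h).1, (z4c_memR.1 h).2.2, e⟩,
    fun ⟨x, h1, h2, e⟩ => ⟨x, z4c_memR.2 ⟨h1, hy, h2⟩, e⟩⟩

instance uf_pi {F : Fr} {a b : Set V → (ℕ → V) → V} [UF F a] [UF F b] :
    UF F (fun M v => pi (a M v) (b M v)) := by unfold pi; infer_instance

section
variable {M : V} [hM : ES M]

theorem exists_uncol (M : V) [hM : ES M] :
    ∃ j : V → V, Elem j (tcol M : Set V) Set.univ ∧ ∀ x ∈ M, j (pi M x) = x := by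
  have hR : ∀ x y, pair x y ∈ memR M ↔ x ∈ M ∧ y ∈ M ∧ x ∈ y := fun x y => pair_mem_rel
  have hsub : ∀ x ∈ M, ∀ y ∈ M, (∀ z ∈ M, z ∈ x → z ∈ y) → x ⊆ y := fun x hx y hy h z => by
    haveI : In (M : Set V) x := ⟨hx⟩
    haveI : In (M : Set V) y := ⟨hy⟩
    exact all_of M (fun z => z ∈ x → z ∈ y) h z
  obtain ⟨h1, -, h3⟩ := collapse (D := M) (R := memR M) (eqv := Eq)
    (fun x y h => ⟨((hR x y).1 h).1, ((hR x y).1 h).2.1⟩) (wf_memR M) (fun _ _ => rfl)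
    (fun _ _ _ _ => Eq.symm) (fun _ _ _ _ _ _ e h => e ▸ h) (fun _ _ _ _ _ _ e h => e ▸ h)
    fun x hx y hy h => subset_antisymm
      (hsub x hx y hy fun z hz hzx => ((hR z y).1 ((h z hz).1 ((hR z x).2 ⟨hz, hx, hzx⟩))).2.2)
      (hsub y hy x hx fun z hz hzy => ((hR z x).1 ((h z hz).2 ((hR z y).2 ⟨hz, hy, hzy⟩))).2.2)
  have h4 : ∀ y, ∃ x, y ∈ tcol M → x ∈ M ∧ col (memR M) x = y := fun y => by
    by_cases h : y ∈ tcol M
    · obtain ⟨x, hx⟩ := mem_img.1 h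
      exact ⟨x, fun _ => hx⟩
    · exact ⟨y, fun h' => absurd h' h⟩
  choose j hj using h4
  refine ⟨j, ⟨fun y hy => trivial, fun φ v hv => ?_⟩, fun x hx => ?_⟩
  · have h5 : ∀ i, (j ∘ v) i ∈ M := fun i => (hj _ (hv i)).1
    have h6 : col (memR M) ∘ j ∘ v = v := funext fun i => (hj _ (hv i)).2
    have h7 := h3 φ _ h5
    rw [h6] at h7
    exact h7.trans ((z6a_satR M φ _ h5).trans (hM.elem φ _ h5))
  · have h5 : col (memR M) x ∈ tcol M := mem_img.2 ⟨_, hx, rfl⟩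
    exact (h1 _ (hj _ h5).1 _ hx).1 (hj _ h5).2

omit hM in
theorem pi_mem_tcol {x : V} (hx : x ∈ M) : pi M x ∈ tcol M := mem_img.2 ⟨_, hx, rfl⟩

instance zfc_tcol : IsZFC (tcol M : Set V) := by
  obtain ⟨j, hj, -⟩ := exists_uncol M
  exact hj.isZFC_left (fun x hx y hy => tcol_trans M x hx hy) ⟨_, pi_mem_tcol hM.zero⟩

theorem pi_inj {x y : V} (hx : x ∈ M) (hy : y ∈ M) (e : pi M x = pi M y) : x = y := by
  obtain ⟨j, -, h⟩ := exists_uncol M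
  rw [← h x hx, e, h y hy]

theorem pi_mem_iff {x y : V} (hx : x ∈ M) (hy : y ∈ M) : pi M x ∈ pi M y ↔ x ∈ y :=
  (mem_pi hy).trans ⟨fun ⟨z, hz, h, e⟩ => pi_inj hz hx e ▸ h, fun h => ⟨x, hx, h, rfl⟩⟩

/-- absolute operations commute with the collapse -/
theorem pi_fn3 (f : V → V → V → V) [UF pZ (fun _ v => f (vr v 0) (vr v 1) (vr v 2))] {a b c : V}
    (ha : a ∈ M) (hb : b ∈ M) (hc : c ∈ M) :
    pi M (f a b c) = f (pi M a) (pi M b) (pi M c) := by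
  obtain ⟨j, hj, h⟩ := exists_uncol M
  have h1 : j (f (pi M a) (pi M b) (pi M c)) = f (j (pi M a)) (j (pi M b)) (j (pi M c)) :=
    hj.map3 pZ (fun _ (a b c : V) => f a b c) (pi_mem_tcol ha) (pi_mem_tcol hb) (pi_mem_tcol hc)
  have h2 : f (pi M a) (pi M b) (pi M c) ∈ tcol M :=
    UF.cl (F := pZ) (f := fun _ v => f (vr v 0) (vr v 1) (vr v 2)) (tcol M : Set V)
      zfc_tcol.toIsZ (cons (pi M a) (cons (pi M b) fun _ => pi M c))
      (cons_mem (pi_mem_tcol ha) (cons_mem (pi_mem_tcol hb) fun _ => pi_mem_tcol hc))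
  obtain ⟨x, hx, e⟩ := mem_img.1 h2
  rw [h a ha, h b hb, h c hc, ← e] at h1
  rw [← h1, ← e]
  exact congrArg (pi M) (h x hx)

theorem pi_fn2 (f : V → V → V) [UF pZ (fun _ v => f (vr v 0) (vr v 1))] {a b : V}
    (ha : a ∈ M) (hb : b ∈ M) : pi M (f a b) = f (pi M a) (pi M b) :=
  pi_fn3 (fun a b _ => f a b) ha hb hb

theorem pi_fn1 (f : V → V) [UF pZ (fun _ v => f (vr v 0))] {a : V} (ha : a ∈ M) :
    pi M (f a) = f (pi M a) := pi_fn3 (fun a _ _ => f a) ha ha ha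

/-- absolute relations are preserved by the collapse -/
theorem pi_iff2 (P : V → V → Prop) [UD pZ (fun _ v => P (vr v 0) (vr v 1))] {a b : V}
    (ha : a ∈ M) (hb : b ∈ M) : P (pi M a) (pi M b) ↔ P a b := by
  obtain ⟨j, hj, h⟩ := exists_uncol M
  have h1 : P (pi M a) (pi M b) ↔ P (j (pi M a)) (j (pi M b)) :=
    hj.iff2 pZ (fun _ (a b : V) => P a b) (pi_mem_tcol ha) (pi_mem_tcol hb)
  rwa [h a ha, h b hb] at h1

theorem pi_pair {a b : V} (ha : a ∈ M) (hb : b ∈ M) : pi M (pair a b) = pair (pi M a) (pi M b) :=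
  pi_fn2 pair ha hb

theorem pi_col {a b : V} (ha : a ∈ M) (hb : b ∈ M) : pi M (col a b) = col (pi M a) (pi M b) :=
  pi_fn2 col ha hb

theorem pi_ord {o : Ordinal.{0}} (ho : o.toZFSet ∈ M) :
    pi M o.toZFSet = (pi M o.toZFSet).rank.toZFSet := by
  simpa using pi_fn1 (fun x => x.rank.toZFSet) ho

theorem pi_rank_lt {y : V} {o : Ordinal.{0}} (hy : y ∈ M) (ho : o.toZFSet ∈ M) :
    (pi M y).rank < (pi M o.toZFSet).rank ↔ y.rank < o := by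
  simpa using pi_iff2 (fun a b => a.rank < b.rank) hy ho

end

/-- the reflection properties of `M` below rank `γ` -/
structure Refl (N : Set V) (M : V) (γ : Ordinal.{0}) : Prop where
  γM : γ.toZFSet ∈ M
  om1 : omega1Z ⊆ M
  sm : Sm M
  mr : ∀ y ∈ M, y.rank < γ → (y ∈ Cl N ↔ pi M y ∈ N)
  onto : ∀ t ∈ N, t.rank < (pi M γ.toZFSet).rank → ∃ y ∈ M, pi M y = t
  plus : ∀ σ ∈ Cl N, σ.rank < γ → ∃ U ∈ N, ∀ t,
    t ∈ U ↔ ∃ y ∈ M, y ∈ Cl N ∧ y.rank < γ ∧ σ ∈ y ∧ pi M y = t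
  ord : ∀ o < γ, M ∩ o.toZFSet ∈ N

/-- reflecting sets exist for all parameters -/
def HasRefl (N : Set V) : Prop := ∀ (l : List V) (γ : Ordinal.{0}),
  ∃ (M : V) (_ : ES M) (_ : UC (par M) (fun _ _ => N)), (∀ x ∈ l, x ∈ M) ∧ Refl N M γ

theorem C0_wo (N : Set V) [IsT N] (hord : ∀ o : Ordinal.{0}, o.toZFSet ∈ N) {A : V}
    (hA : A ∈ N) : ∃ w ∈ N, IsWO w A ∧ ∀ x ∈ A, ∀ y ∈ A, x ∈ y → wpos w x < wpos w y := by
  obtain ⟨f, hf, o, hi⟩ := IsT.wo A hA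
  obtain ⟨hfn, hinj⟩ := isInj_iff.1 hi
  haveI : In N A := ⟨hA⟩
  haveI : In N f := ⟨hf⟩
  haveI : In N o := ⟨hord o⟩
  have h3 : ∀ x ∈ A, (app f x).rank < o ∧ (app f x).rank.toZFSet = app f x := fun x hx => by
    obtain ⟨p, hp, e⟩ := mem_toZFSet_iff.1 ((isFunc_iff.1 hfn).2.2 x hx)
    rw [← e, rank_toZFSet]; exact ⟨hp, rfl⟩
  have hW := (z4d_rel (A := A) (fun x => o * x.rank + (app f x).rank) fun x hx y hy e => by
    have e1 := congrArg (· % o) e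
    simp only [Ordinal.mul_add_mod_self, Ordinal.mod_eq_of_lt (h3 x hx).1,
      Ordinal.mod_eq_of_lt (h3 y hy).1] at e1
    exact hinj x hx y hy (by rw [← (h3 x hx).2, e1, (h3 y hy).2])).1
  refine ⟨_, memV_of N _, hW, fun x hx y hy h => z4d_lt hW (pair_mem_rel.2 ⟨hx, hy, ?_⟩)
    fun e => ZFSet.mem_irrefl y (e ▸ h)⟩
  calc o * x.rank + (app f x).rank ≤ o * (x.rank + 1) := by
        rw [mul_add_one]; exact add_le_add_right (h3 x hx).1.le _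
    _ ≤ o * y.rank := mul_le_mul_right (Order.add_one_le_iff.2 (rank_lt_of_mem h)) o
    _ ≤ _ := le_self_add

/-- a rank-monotone enumeration of `N ∩ V_γ` in `N` and the codes of its initial segments -/
theorem exists_code (N : Set V) [IsZFC N] (hord : ∀ o : Ordinal.{0}, o.toZFSet ∈ N)
    (γ : Ordinal.{0}) : ∃ h : V → Ordinal.{0},
      (∀ x ∈ Vs N γ, ∀ o < h x, ∃ y ∈ Vs N γ, h y = o) ∧
      ∀ μ : Ordinal.{0}, ∃ E ∈ N, E ⊆ prod μ.toZFSet μ.toZFSet ∧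
        (∀ y ∈ Vs N γ, h y < μ → col E (h y).toZFSet = y) ∧
        ∀ a b, pair a b ∈ E → ∃ x ∈ Vs N γ, ∃ y ∈ Vs N γ, x ∈ y ∧ a = (h x).toZFSet ∧
          b = (h y).toZFSet := by
  have hA : Vs N γ ∈ N := z2d_Vs_mem N _ (hord γ)
  have tr : ∀ y ∈ Vs N γ, ∀ x ∈ y, x ∈ Vs N γ := fun y hy x hx => mem_Vs.2
    ⟨IsZ.trans y (mem_Vs.1 hy).1 x hx, (rank_lt_of_mem hx).trans (mem_Vs.1 hy).2⟩
  generalize Vs N γ = A at hA tr ⊢
  obtain ⟨w, hw, hW, hlt⟩ := C0_wo N hord hA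
  refine ⟨wpos w, fun x hx o ho => hW.wpos_surj hx ho, fun μ => ?_⟩
  haveI : In N A := ⟨hA⟩
  haveI : In N w := ⟨hw⟩
  haveI : In N μ := ⟨hord μ⟩
  obtain ⟨E, hE⟩ : ∃ E, E = rel μ.toZFSet μ.toZFSet fun a b => ∃ x ∈ A, ∃ y ∈ A, x ∈ y ∧
    a = (wpos w x).toZFSet ∧ b = (wpos w y).toZFSet := ⟨_, rfl⟩
  have hp : ∀ y ∈ A, wpos w y < μ → ∀ u, pair u (wpos w y).toZFSet ∈ E ↔
      ∃ x ∈ y, (wpos w x).toZFSet = u := fun y hy hμ u => by
    rw [hE, pair_mem_rel]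
    refine ⟨fun ⟨_, _, x, _, y', hy', h, e1, e2⟩ => ⟨x, ?_, e1.symm⟩, fun ⟨x, hx, e⟩ =>
      ⟨e ▸ toZFSet_mem_toZFSet_iff.2 ((hlt x (tr y hy x hx) y hy hx).trans hμ),
        toZFSet_mem_toZFSet_iff.2 hμ, x, tr y hy x hx, y, hy, hx, e.symm, rfl⟩⟩
    rwa [hW.wpos_inj hy hy' (toZFSet_injective e2)]
  have main : ∀ y : V, y ∈ A → wpos w y < μ →
      AccP (preds E) (wpos w y).toZFSet ∧ col E (wpos w y).toZFSet = y := fun y => by
    induction y using ZFSet.inductionOn with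
    | h y ih =>
      intro hy hμ
      have ih' := fun x hx => ih x hx (tr y hy x hx) ((hlt x (tr y hy x hx) y hy hx).trans hμ)
      have hacc : AccP (preds E) (wpos w y).toZFSet := Acc.intro _ fun u hu => by
        obtain ⟨x, hx, rfl⟩ := (hp y hy hμ u).1 (mem_preds.1 hu)
        exact (ih' x hx).1
      refine ⟨hacc, ZFSet.ext fun z => (mem_col hacc).trans ⟨?_, fun hz =>
        ⟨_, (hp y hy hμ _).2 ⟨z, hz, rfl⟩, (ih' z hz).2⟩⟩⟩
      rintro ⟨u, hu, rfl⟩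
      obtain ⟨x, hx, rfl⟩ := (hp y hy hμ u).1 hu
      rwa [(ih' x hx).2]
  refine ⟨E, by rw [hE]; exact memV_of N _, fun p h => (mem_sep.1 (hE ▸ h)).1,
    fun y hy h => (main y hy h).2, fun a b h => ?_⟩
  exact (pair_mem_rel.1 (hE ▸ h)).2.2

theorem apx_of_mem {N : Set V} [IsZ N] {x : V} (h : x ∈ N) : Apx N x := fun a ha _ => by
  haveI : In N x := ⟨h⟩
  haveI : In N a := ⟨ha⟩
  exact memV_of N _

theorem subset_cl (N : Set V) [IsZFC N] (hord : ∀ o : Ordinal.{0}, o.toZFSet ∈ N) : N ⊆ Cl N := by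
  intro x hx
  obtain ⟨h, -, H⟩ := exists_code N hord (x.rank + 1)
  obtain ⟨E, h1, h2, h3, -⟩ := H (h x + 1)
  exact ⟨h x + 1, E, h2, apx_of_mem h1, h x, lt_add_one _,
    (h3 x (mem_Vs.2 ⟨hx, lt_add_one _⟩) (lt_add_one _)).symm⟩

theorem cl_trans (N : Set V) : ∀ x ∈ Cl N, ∀ y ∈ x, y ∈ Cl N := by
  rintro _ ⟨μ, E, h1, h2, ξ, -, rfl⟩ y hy
  by_cases h : AccP (preds E) ξ.toZFSet
  · obtain ⟨u, hu, rfl⟩ := (mem_col h).1 hy
    obtain ⟨p, hp, rfl⟩ := mem_toZFSet_iff.1 (pair_mem_prod.1 (h1 hu)).1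
    exact ⟨μ, E, h1, h2, p, hp, rfl⟩
  · rw [col, grec_of_not _ h] at hy
    exact absurd hy (notMem_empty y)

/-- one regular cardinal bounds the codes of all elements of rank below `γ` -/
theorem exists_bound (N : Set V) (γ : Ordinal.{0}) : ∃ κ : Cardinal.{0}, κ.IsRegular ∧
    Cardinal.aleph0 < κ ∧ (vonNeumann γ).card < κ ∧ ∀ y ∈ Cl N, y.rank < γ →
      ∃ E : V, E ⊆ prod κ.ord.toZFSet κ.ord.toZFSet ∧ Apx N E ∧
        ∃ ξ < κ.ord, y = col E ξ.toZFSet := by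
  have h : ∀ y : vonNeumann γ, ∃ μ : Ordinal.{0}, y.1 ∈ Cl N → ∃ E : V,
      E ⊆ prod μ.toZFSet μ.toZFSet ∧ Apx N E ∧ ∃ ξ < μ, y.1 = col E ξ.toZFSet := fun y => by
    by_cases hy : y.1 ∈ Cl N
    · exact hy.imp fun _ h _ => h
    · exact ⟨0, fun h => absurd h hy⟩
  choose μ hμ using h
  refine ⟨Order.succ (max (max Cardinal.aleph0 (vonNeumann γ).card) (iSup μ).card),
    Cardinal.isRegular_succ (le_max_of_le_left (le_max_left _ _)),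
    Order.lt_succ_of_le (le_max_of_le_left (le_max_left _ _)),
    Order.lt_succ_of_le (le_max_of_le_left (le_max_right _ _)), fun y hy hr => ?_⟩
  obtain ⟨E, h1, h2, ξ, h3, h4⟩ := hμ ⟨y, mem_vonNeumann.2 hr⟩ hy
  have h5 := (Ordinal.le_iSup μ ⟨y, mem_vonNeumann.2 hr⟩).trans (Cardinal.lt_ord.2
    (Order.lt_succ_of_le (le_max_right (max Cardinal.aleph0 (vonNeumann γ).card) _))).le
  refine ⟨E, fun p hp => ?_, h2, ξ, h3.trans_le h5, h4⟩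
  obtain ⟨a, ha, b, hb, rfl⟩ := mem_prod.1 (h1 hp)
  exact pair_mem_prod.2 ⟨toZFSet_monotone h5 ha, toZFSet_monotone h5 hb⟩

end Pool.Agent.Lib.MP_f00570_lc
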