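import Pool.Agent.Lib.MP_f00570_lc.B2
import Pool.Agent.Lib.MP_f00570_lc.C0

/-!
# The collapse maps the approximated codes onto the codes in `N`; reflection
-/

namespace Pool.Agent.Lib.MP_f00570_lc

open Pool.Agent.Lib.MP_f9eb18_lc Pool.Agent.Lib.MP_f9eb18_lc.W Ordinal ZFSet
set_option linter.style.haveILetI false
set_option linter.unusedVariables false

theorem c1_pi {M L : V} (hL : L.IsTransitive) (x : V) : x ∈ M ∩ L → pi (M ∩ L) x = pi M x := by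
  induction x using mem_wf.induction with
  | _ x ih =>
    intro hx
    obtain ⟨h1, h2⟩ := mem_inter.1 hx
    ext t
    rw [mem_pi hx, mem_pi h1]
    constructor
    · rintro ⟨y, hy, h, rfl⟩
      exact ⟨y, (mem_inter.1 hy).1, h, (ih y h hy).symm⟩
    · rintro ⟨y, hy, h, rfl⟩
      have := mem_inter.2 ⟨hy, hL x h2 h⟩
      exact ⟨y, this, h, ih y h this⟩

theorem c1_col {E b t : V} (h : t ∈ col E b) : ∃ a, pair a b ∈ E ∧ col E a = t := by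
  by_cases k : AccP (preds E) b
  · exact (mem_col k).1 h
  · rw [col, grec_of_not _ k] at h
    exact absurd h (notMem_empty t)

theorem c1_sm {M a : V} (h : Sm M) (ha : a ⊆ M) : Sm a :=
  sm_iff.2 ((card_mono ha).trans (sm_iff.1 h))

section
variable {N : Set V} {M z : V} [IsZFC N] [ES M] [UC (par M) (fun _ _ => N)] {lam : Ordinal.{0}}

theorem c1_pair {M a b : V} [ES M] (ha : a ∈ M) (hb : b ∈ M) : pair a b ∈ M :=
  haveI : In (M : Set V) a := ⟨ha⟩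
  haveI : In (M : Set V) b := ⟨hb⟩
  memM M _

theorem c1_unpair {M a b : V} [ES M] (h : pair a b ∈ M) : a ∈ M ∧ b ∈ M := by
  haveI : In (M : Set V) (pair a b) := ⟨h⟩
  have h1 := memM M (fst (pair a b))
  have h2 := memM M (snd (pair a b))
  rw [fst_pair] at h1; rw [snd_pair] at h2
  exact ⟨h1, h2⟩

omit [UC (par M) (fun _ _ => N)] in
theorem c1_A1 (h : Ctx N M z) (hs : M ∩ lam.toZFSet ∈ N) {E : V} (hE : E ∈ M)
    (hL : E ⊆ prod lam.toZFSet lam.toZFSet) (hA : Apx N E) : pi M E ∈ N := by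
  have ht := (isOrdinal_toZFSet lam).isTransitive
  set s := M ∩ lam.toZFSet with e0
  haveI : In N s := ⟨hs⟩
  have h1 : prod s s ⊆ M := fun p hp => by
    obtain ⟨a, ha, b, hb, rfl⟩ := mem_prod.1 hp
    exact c1_pair (mem_inter.1 ha).1 (mem_inter.1 hb).1
  haveI : In N (E ∩ prod s s) := ⟨hA _ (memV_of N _) (c1_sm h.sm h1)⟩
  have e : pi M E = img (fun p => pair (pi s (fst p)) (pi s (snd p))) (E ∩ prod s s) := by
    ext t
    rw [mem_pi hE, mem_img]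
    constructor
    · rintro ⟨p, hp, hpE, rfl⟩
      obtain ⟨a, ha, b, hb, rfl⟩ := mem_prod.1 (hL hpE)
      obtain ⟨ha', hb'⟩ := c1_unpair hp
      have h2 : a ∈ s := mem_inter.2 ⟨ha', ha⟩
      have h3 : b ∈ s := mem_inter.2 ⟨hb', hb⟩
      refine ⟨_, mem_inter.2 ⟨hpE, pair_mem_prod.2 ⟨h2, h3⟩⟩, ?_⟩
      rw [fst_pair, snd_pair, c1_pi ht a h2, c1_pi ht b h3, pi_pair ha' hb']
    · rintro ⟨p, hp, rfl⟩
      obtain ⟨h2, h3⟩ := mem_inter.1 hp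
      obtain ⟨a, ha, b, hb, rfl⟩ := mem_prod.1 h3
      refine ⟨_, h1 h3, h2, ?_⟩
      rw [fst_pair, snd_pair, c1_pi ht a ha, c1_pi ht b hb,
        pi_pair (mem_inter.1 ha).1 (mem_inter.1 hb).1]
  rw [e]; exact memV_of N _

theorem c1_A2 (h : Ctx N M z) (hM : lam.toZFSet ∈ M) (hs : M ∩ lam.toZFSet ∈ N)
    (hz : prod lam.toZFSet lam.toZFSet ⊆ z) {E : V} (hE : E ∈ N)
    (hL : E ⊆ prod (pi M lam.toZFSet) (pi M lam.toZFSet)) :
    ∃ e ∈ M, e ⊆ prod lam.toZFSet lam.toZFSet ∧ Apx N e ∧ pi M e = E := by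
  have ht := (isOrdinal_toZFSet lam).isTransitive
  set s := M ∩ lam.toZFSet with e0
  haveI : In N s := ⟨hs⟩
  haveI : In N E := ⟨hE⟩
  set d := rel s s (fun a b => pair (pi s a) (pi s b) ∈ E) with e1
  have hd : d ∈ N := memV_of N _
  have hdL : d ⊆ prod lam.toZFSet lam.toZFSet := fun p hp => by
    obtain ⟨a, ha, b, hb, rfl, -⟩ := mem_rel.1 hp
    exact pair_mem_prod.2 ⟨(mem_inter.1 ha).2, (mem_inter.1 hb).2⟩
  obtain ⟨e, he, -, H⟩ := h.guessN hd (fun p hp => hz (hdL hp))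
  haveI : In (M : Set V) e := ⟨he⟩
  haveI : In (M : Set V) lam := ⟨hM⟩
  refine ⟨e, he, fun p => all_of M (fun p => p ∈ e → p ∈ prod lam.toZFSet lam.toZFSet)
    (fun p hp k => hdL ((H p hp).1 k)) p, fun a => all_of M (fun a => a ∈ N → Sm a → e ∩ a ∈ N)
      (fun a ha h1 h2 => ?_) a, ?_⟩
  · have e2 : e ∩ a = d ∩ a := by
      ext t; simp only [mem_inter]
      exact and_congr_left fun k => H t (sm_subset h.om1 ha h2 k)
    haveI : In N d := ⟨hd⟩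
    haveI : In N a := ⟨h1⟩
    rw [e2]; exact memV_of N _
  · ext t
    rw [mem_pi he]
    constructor
    · rintro ⟨p, hp, hpe, rfl⟩
      obtain ⟨a, ha, b, hb, rfl, k⟩ := mem_rel.1 ((H p hp).1 hpe)
      rwa [pi_pair (mem_inter.1 ha).1 (mem_inter.1 hb).1, ← c1_pi ht a ha, ← c1_pi ht b hb]
    · intro k
      obtain ⟨a, ha, b, hb, rfl⟩ := mem_prod.1 (hL k)
      obtain ⟨a, ha1, ha2, rfl⟩ := (mem_pi hM).1 ha
      obtain ⟨b, hb1, hb2, rfl⟩ := (mem_pi hM).1 hb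
      have h2 : a ∈ s := mem_inter.2 ⟨ha1, ha2⟩
      have h3 : b ∈ s := mem_inter.2 ⟨hb1, hb2⟩
      refine ⟨_, c1_pair ha1 hb1, (H _ (c1_pair ha1 hb1)).2 (pair_mem_rel.2 ⟨h2, h3, ?_⟩),
        pi_pair ha1 hb1⟩
      rwa [c1_pi ht a h2, c1_pi ht b h3]

theorem c1_refl (h : Ctx N M z) {κ : Cardinal.{0}} {γ : Ordinal.{0}} (hM : κ.ord.toZFSet ∈ M)
    (hγ : γ.toZFSet ∈ M) (hs : M ∩ κ.ord.toZFSet ∈ N)
    (hz : prod κ.ord.toZFSet κ.ord.toZFSet ⊆ z) (hκ : (vonNeumann γ).card < κ)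
    (hb : ∀ y ∈ Cl N, y.rank < γ → ∃ E : V, E ⊆ prod κ.ord.toZFSet κ.ord.toZFSet ∧ Apx N E ∧
      ∃ ξ < κ.ord, y = col E ξ.toZFSet) : Refl N M γ := by
  set lam := κ.ord with elam
  obtain ⟨f, f1, f2⟩ := exists_code N h.ord (pi M γ.toZFSet).rank
  obtain ⟨E, hE, E1, E2, E3⟩ := f2 (pi M lam.toZFSet).rank
  rw [← pi_ord hM] at E1
  obtain ⟨e, he, e1, e2, e3⟩ := c1_A2 h hM hs hz hE E1
  haveI : In (M : Set V) e := ⟨he⟩
  haveI : In (M : Set V) lam := ⟨hM⟩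
  haveI : In (M : Set V) γ := ⟨hγ⟩
  have pre : ∀ o < (pi M lam.toZFSet).rank,
      ∃ ξ < lam, ξ.toZFSet ∈ M ∧ pi M ξ.toZFSet = o.toZFSet := fun o ho => by
    have := toZFSet_mem_toZFSet_iff.2 ho
    rw [← pi_ord hM] at this
    obtain ⟨x, hx, h1, h2⟩ := (mem_pi hM).1 this
    obtain ⟨ξ, hξ, rfl⟩ := mem_toZFSet_iff.1 h1
    exact ⟨ξ, hξ, hx, h2⟩
  have cM : ∀ ξ : Ordinal.{0}, ξ.toZFSet ∈ M → col e ξ.toZFSet ∈ M := fun ξ hξ =>
    haveI : In (M : Set V) ξ := ⟨hξ⟩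
    memM M _
  have cpi : ∀ ξ : Ordinal.{0}, ξ.toZFSet ∈ M →
      pi M (col e ξ.toZFSet) = col E (pi M ξ.toZFSet) := fun ξ hξ => by rw [pi_col he hξ, e3]
  have cK : ∀ ξ < lam, col e ξ.toZFSet ∈ Cl N := fun ξ hξ => ⟨lam, e, e1, e2, ξ, hξ, rfl⟩
  have small : ∀ y ∈ Vs N (pi M γ.toZFSet).rank, f y < (pi M lam.toZFSet).rank := by
    intro x hx
    by_contra hn
    have k : ∀ ξ < lam, ξ.toZFSet ∈ M → ∃ y ∈ Vs N (pi M γ.toZFSet).rank,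
        (f y).toZFSet = pi M ξ.toZFSet ∧ pi M (col e ξ.toZFSet) = y := fun ξ hξ hξM => by
      have h1 : (pi M ξ.toZFSet).rank < (pi M lam.toZFSet).rank :=
        (pi_rank_lt hξM hM).2 (by rwa [rank_toZFSet])
      obtain ⟨y, hy, h2⟩ := f1 x hx _ (h1.trans_le (not_lt.1 hn))
      have h3 : (f y).toZFSet = pi M ξ.toZFSet := by rw [h2, ← pi_ord hξM]
      exact ⟨y, hy, h3, by rw [cpi ξ hξM, ← h3, E2 y hy (h2 ▸ h1)]⟩
    have k1 := all_ord M (fun ξ => ξ < lam → (col e ξ.toZFSet).rank < γ) fun ξ hξM hξ => by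
      obtain ⟨y, hy, -, h2⟩ := k ξ hξ hξM
      exact (pi_rank_lt (cM ξ hξM) hγ).1 (h2 ▸ (mem_Vs.1 hy).2)
    have k2 := all_ord M (fun ξ => ξ < lam → ∀ ζ < lam, col e ξ.toZFSet = col e ζ.toZFSet → ξ = ζ)
      fun ξ hξM hξ =>
        haveI : In (M : Set V) ξ := ⟨hξM⟩
        all_ord M (fun ζ => ζ < lam → col e ξ.toZFSet = col e ζ.toZFSet → ξ = ζ)
          fun ζ hζM hζ q => by
            obtain ⟨y, -, h1, h2⟩ := k ξ hξ hξM
            obtain ⟨y', -, h3, h4⟩ := k ζ hζ hζM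
            rw [q, h4] at h2
            exact toZFSet_injective (pi_inj hξM hζM (by rw [← h1, ← h3, h2]))
    have k3 : IsInj (W.lam lam.toZFSet (col e)) lam.toZFSet (vonNeumann γ) :=
      isInj_lam (fun x hx => by
        obtain ⟨ξ, hξ, rfl⟩ := mem_toZFSet_iff.1 hx
        exact mem_vonNeumann.2 (k1 ξ hξ)) fun x hx y hy q => by
        obtain ⟨ξ, hξ, rfl⟩ := mem_toZFSet_iff.1 hx
        obtain ⟨ζ, hζ, rfl⟩ := mem_toZFSet_iff.1 hy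
        rw [k2 ξ hξ ζ hζ q]
    have k4 := card_le_of_isInj k3
    rw [card_toZFSet, elam, Cardinal.card_ord] at k4
    exact absurd hκ (not_lt.2 k4)
  have onto : ∀ t ∈ N, t.rank < (pi M γ.toZFSet).rank → ∃ ξ < lam, ξ.toZFSet ∈ M ∧
      pi M ξ.toZFSet = (f t).toZFSet ∧ pi M (col e ξ.toZFSet) = t := fun t ht hr => by
    have h1 := mem_Vs.2 ⟨ht, hr⟩
    obtain ⟨ξ, hξ, h2, h3⟩ := pre _ (small t h1)
    exact ⟨ξ, hξ, h2, h3, by rw [cpi ξ h2, h3, E2 t h1 (small t h1)]⟩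
  have mr : ∀ y ∈ M, y.rank < γ → (y ∈ Cl N ↔ pi M y ∈ N) := fun y hy hr => by
    haveI : In (M : Set V) y := ⟨hy⟩
    constructor
    · intro hK
      obtain ⟨D, hD, d1, d2, d3⟩ := ex_mem M (fun D => D ⊆ prod lam.toZFSet lam.toZFSet ∧
        Apx N D ∧ ∃ ξ < lam, y = col D ξ.toZFSet) (hb y hK hr)
      haveI : In (M : Set V) D := ⟨hD⟩
      obtain ⟨ξ, hξ, -, d4⟩ := ex_ord M (fun ξ => ξ < lam ∧ y = col D ξ.toZFSet) d3
      haveI : In N (pi M D) := ⟨c1_A1 h hs hD d1 d2⟩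
      haveI : In N (pi M ξ.toZFSet) := ⟨by rw [pi_ord hξ]; exact h.ord _⟩
      rw [d4, pi_col hD hξ]; exact memV_of N _
    · intro hN
      obtain ⟨ξ, hξ, h1, -, h2⟩ := onto _ hN ((pi_rank_lt hy hγ).2 hr)
      exact pi_inj (cM ξ h1) hy h2 ▸ cK ξ hξ
  have hγl : γ < lam := Cardinal.lt_ord.2 ((card_le_card_vonNeumann γ).trans_lt hκ)
  refine ⟨hγ, h.om1, h.sm, mr, fun t ht hr => ?_, fun σ hσ hr => ?_, fun o ho => ?_⟩
  · obtain ⟨ξ, -, h1, -, h2⟩ := onto t ht hr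
    exact ⟨_, cM ξ h1, h2⟩
  · obtain ⟨ξ, hξ, x1⟩ := all_of M (fun σ => σ ∈ Cl N → σ.rank < γ → ∃ ξ < lam,
        ∀ ζ < lam, (σ ∈ col e ζ.toZFSet ↔ pair ξ.toZFSet ζ.toZFSet ∈ e)) (fun σ hσM hσ hr => by
      have h0 := (mr σ hσM hr).1 hσ
      have h0' := (pi_rank_lt hσM hγ).2 hr
      obtain ⟨ξ, hξ, h1, h2, h3⟩ := onto _ h0 h0'
      haveI : In (M : Set V) ξ := ⟨h1⟩
      haveI : In (M : Set V) σ := ⟨hσM⟩
      refine ⟨ξ, hξ, all_ord M (fun ζ => ζ < lam →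
        (σ ∈ col e ζ.toZFSet ↔ pair ξ.toZFSet ζ.toZFSet ∈ e)) fun ζ hζM hζ => ?_⟩
      rw [← pi_mem_iff hσM (cM ζ hζM), ← pi_mem_iff (c1_pair h1 hζM) he, pi_pair h1 hζM, e3,
        cpi ζ hζM, h2]
      constructor
      · intro k
        obtain ⟨a, k1, k2⟩ := c1_col k
        obtain ⟨x, hx, -, -, -, rfl, -⟩ := E3 _ _ k1
        rw [E2 x hx (small x hx)] at k2
        rwa [← k2]
      · intro k
        obtain ⟨x, hx, y, hy, hxy, k1, k2⟩ := E3 _ _ k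
        have k3 := E2 _ (mem_Vs.2 ⟨h0, h0'⟩) (small _ (mem_Vs.2 ⟨h0, h0'⟩))
        rw [k1, E2 x hx (small x hx)] at k3
        rwa [k2, E2 y hy (small y hy), ← k3]) σ hσ hr
    have ht := (isOrdinal_toZFSet lam).isTransitive
    set s := M ∩ lam.toZFSet with e0
    haveI : In N s := ⟨hs⟩
    haveI : In N E := ⟨hE⟩
    haveI : In N ξ := ⟨h.ord ξ⟩
    have h1 : Sm (img (fun x => pair ξ.toZFSet x) s) :=
      (z6a_injIn_img N hs _).mono (Set.subset_univ _) |>.trans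
        (c1_sm h.sm fun _ k => (mem_inter.1 k).1)
    haveI : In N (e ∩ img (fun x => pair ξ.toZFSet x) s) := ⟨e2 _ (memV_of N _) h1⟩
    refine ⟨img (fun x => col E (pi s x)) (ZFSet.sep
      (fun x => pair ξ.toZFSet x ∈ e ∩ img (fun x => pair ξ.toZFSet x) s) s), memV_of N _,
      fun t => ?_⟩
    rw [mem_img]
    constructor
    · rintro ⟨x, hx, rfl⟩
      obtain ⟨h2, h3⟩ := mem_sep.1 hx
      obtain ⟨ζ, hζ, rfl⟩ := mem_toZFSet_iff.1 (mem_inter.1 h2).2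
      have h4 := (mem_inter.1 h2).1
      have h5 := (x1 ζ hζ).2 (mem_inter.1 h3).1
      refine ⟨_, cM ζ h4, cK ζ hζ, ?_, h5, by rw [cpi ζ h4, c1_pi ht _ h2]⟩
      haveI : In (M : Set V) ζ := ⟨h4⟩
      obtain ⟨u, hu, h6⟩ := ex_mem M (fun u => u ∈ col e ζ.toZFSet) ⟨σ, h5⟩
      have h7 := (pi_mem_iff hu (cM ζ h4)).2 h6
      rw [cpi ζ h4] at h7
      obtain ⟨a, k1, -⟩ := c1_col h7
      obtain ⟨-, -, y, hy, -, -, k2⟩ := E3 _ _ k1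
      rw [← pi_rank_lt (cM ζ h4) hγ, cpi ζ h4, k2, E2 y hy (small y hy)]
      exact (mem_Vs.1 hy).2
    · rintro ⟨y, hy, hK, hr', hσy, rfl⟩
      obtain ⟨ζ, hζ, h2, -, h3⟩ := onto _ ((mr y hy hr').1 hK) ((pi_rank_lt hy hγ).2 hr')
      have h4 : ζ.toZFSet ∈ s := mem_inter.2 ⟨h2, toZFSet_mem_toZFSet_iff.2 hζ⟩
      refine ⟨_, mem_sep.2 ⟨h4, mem_inter.2 ⟨(x1 ζ hζ).1 ?_, mem_img.2 ⟨_, h4, rfl⟩⟩⟩, ?_⟩
      · rwa [pi_inj (cM ζ h2) hy h3]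
      · rw [c1_pi ht _ h4, ← cpi ζ h2, h3]
  · haveI : In N (M ∩ lam.toZFSet) := ⟨hs⟩
    haveI : In N o := ⟨h.ord o⟩
    have e4 : M ∩ o.toZFSet = (M ∩ lam.toZFSet) ∩ o.toZFSet := by
      ext t; simp only [mem_inter]
      exact ⟨fun k => ⟨⟨k.1, toZFSet_subset_toZFSet_iff.2 (ho.trans hγl).le k.2⟩, k.2⟩,
        fun k => ⟨k.1.1, k.2⟩⟩
    rw [e4]; exact memV_of N _

end

theorem hasRefl (hG : GM) {N : Set V} (hN : InnerModel N) (hC : Cover N) (hS : StatPres N) :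
    HasRefl N := fun l γ => by
  haveI := hN.zfc
  obtain ⟨κ, h1, h2, h3, h4⟩ := exists_bound N γ
  haveI : In N κ.ord := ⟨hN.ord _⟩
  obtain ⟨M, i1, i2, h5, h6⟩ := exists_ctx hG hN hC (κ.ord.toZFSet :: γ.toZFSet :: l)
    (memV_of N (κ.ord.toZFSet ∪ prod κ.ord.toZFSet κ.ord.toZFSet))
  have h7 := h5 _ List.mem_cons_self
  exact ⟨M, i1, i2, fun x hx => h5 x (by simp [hx]), c1_refl h6 h7 (h5 _ (by simp))
    (h6.inter_mem hS h1 h2 h7 fun _ k => mem_union.2 (Or.inl k))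
    (fun _ k => mem_union.2 (Or.inr k)) h3 h4⟩

end Pool.Agent.Lib.MP_f00570_lc
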