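import Pool.Agent.Lib.MP_f00570_lc.C0

/-!
# The approximation closure is a model of ZFC
-/

namespace Pool.Agent.Lib.MP_f00570_lc

open Pool.Agent.Lib.MP_f9eb18_lc Pool.Agent.Lib.MP_f9eb18_lc.W Ordinal ZFSet
set_option linter.style.haveILetI false
set_option linter.unusedVariables false

theorem d0_bound (l : List V) : ∃ γ : Ordinal.{0}, 0 < γ ∧ ∀ x ∈ l, x.rank < γ := by
  induction l with
  | nil => exact ⟨1, zero_lt_one, by simp⟩
  | cons a l ih =>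
    obtain ⟨γ, h0, h⟩ := ih
    exact ⟨max γ (Order.succ a.rank), lt_max_of_lt_left h0, List.forall_mem_cons.2
      ⟨lt_max_of_lt_right (Order.lt_succ _), fun x hx => lt_max_of_lt_left (h x hx)⟩⟩

/-- full reflection for an arbitrary class -/
theorem exists_reflect (K : Set V) (α : Ordinal.{0}) : ∃ β : Ordinal.{0}, α < β ∧
    ∀ (φ : Fo) (v : ℕ → V), (∀ i, v i ∈ Vs K β) → (Sat1 (Vs K β : V) φ v ↔ Sat1 K φ v) := by
  have h1 : ∀ (φ : Fo) (l : List V), ∃ y : V, (∃ y ∈ K, Sat1 K φ (env (y :: l))) →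
      y ∈ K ∧ Sat1 K φ (env (y :: l)) := fun φ l => by
    by_cases h : ∃ y ∈ K, Sat1 K φ (env (y :: l))
    · exact h.imp fun _ k _ => k
    · exact ⟨∅, fun k => absurd k h⟩
  choose sk hsk using h1
  have h2 : ∀ β : Ordinal.{0}, ∃ δ, β < δ ∧ ∀ (φ : Fo) (l : List V), (∀ x ∈ l, x ∈ Vs K β) →
      (sk φ l).rank < δ := fun β =>
    ⟨max (Order.succ β) (ZFSet.iUnion fun φ : Fo =>
      img (fun p => sk φ (dec p)) (lists (Vs K β))).rank, lt_max_of_lt_left (Order.lt_succ _),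
      fun φ l hl => lt_max_of_lt_right (rank_lt_of_mem (mem_iUnion.2 ⟨φ, mem_img.2
        ⟨listZ l, mem_lists.2 ⟨l, hl, rfl⟩, congrArg (sk φ) (dec_enc l)⟩⟩))⟩
  choose nx hnx hb using h2
  let b : ℕ → Ordinal.{0} := fun n => nx^[n] α
  have hs : ∀ n, b (n + 1) = nx (b n) := fun n => Function.iterate_succ_apply' _ _ _
  have hm : Monotone b := monotone_nat_of_le_succ fun n => by rw [hs]; exact (hnx _).le
  refine ⟨⨆ n, b n, (hnx α).trans_le (Ordinal.le_iSup b 1), z6a_tv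
    (fun x hx => (mem_Vs.1 hx).1) fun φ l hl h => ?_⟩
  obtain ⟨n, hn⟩ := z6a_list_chain (X := fun n => (Vs K (b n) : V))
    (fun i j hij x hx => mem_Vs.2 ⟨(mem_Vs.1 hx).1, (mem_Vs.1 hx).2.trans_le (hm hij)⟩) l
    fun x hx => (Ordinal.lt_iSup_iff.1 (mem_Vs.1 (hl x hx)).2).imp fun n k =>
      mem_Vs.2 ⟨(mem_Vs.1 (hl x hx)).1, k⟩
  exact ⟨sk φ l, mem_Vs.2 ⟨(hsk φ l h).1, (hb _ φ l hn).trans_le
    (hs n ▸ Ordinal.le_iSup b (n + 1))⟩, (hsk φ l h).2⟩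

theorem Vs_mem_cl {N : Set V} [IsZFC N] (hord : ∀ o : Ordinal.{0}, o.toZFSet ∈ N)
    (h : HasRefl N) (β : Ordinal.{0}) : Vs (Cl N) β ∈ Cl N := by
  obtain ⟨M, _, _, hl, R⟩ := h [β.toZFSet, Vs (Cl N) β] (Order.succ β)
  have hβ : β.toZFSet ∈ M := hl _ (by simp)
  have ht : Vs (Cl N) β ∈ M := hl _ (by simp)
  have hr : (Vs (Cl N) β).rank < Order.succ β :=
    Order.lt_succ_of_le (rank_le_iff.2 fun _ hy => (mem_Vs.1 hy).2)
  have e : pi M (Vs (Cl N) β) = Vs N (pi M β.toZFSet).rank := by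
    ext s
    rw [mem_pi ht, mem_Vs]
    constructor
    · rintro ⟨x, hx, k, rfl⟩
      obtain ⟨k1, k2⟩ := mem_Vs.1 k
      exact ⟨(R.mr x hx (k2.trans (Order.lt_succ _))).1 k1, (pi_rank_lt hx hβ).2 k2⟩
    · rintro ⟨k1, k2⟩
      obtain ⟨y, hy, rfl⟩ := R.onto s k1 (k2.trans ((pi_rank_lt hβ R.γM).2
        (by rw [rank_toZFSet]; exact Order.lt_succ _)))
      have k3 := (pi_rank_lt hy hβ).1 k2
      exact ⟨y, hy, mem_Vs.2 ⟨(R.mr y hy (k3.trans (Order.lt_succ _))).2 k1, k3⟩, rfl⟩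
  haveI : In N (pi M β.toZFSet).rank := ⟨hord _⟩
  exact (R.mr _ ht hr).2 (e ▸ memV_of N _)

/-- the closure is closed under absolute operations -/
theorem d0_fn3 {N : Set V} [hN : IsZ N] (h : HasRefl N) (f : V → V → V → V)
    [UF pZ (fun _ v => f (vr v 0) (vr v 1) (vr v 2))] {a b c : V} (ha : a ∈ Cl N) (hb : b ∈ Cl N)
    (hc : c ∈ Cl N) : f a b c ∈ Cl N := by
  obtain ⟨γ, -, hγ⟩ := d0_bound [a, b, c, f a b c]
  obtain ⟨M, _, _, hl, R⟩ := h [a, b, c, f a b c] γ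
  have k : ∀ x ∈ [a, b, c, f a b c], x ∈ Cl N ↔ pi M x ∈ N := fun x hx =>
    R.mr x (hl x hx) (hγ x hx)
  rw [k _ (by simp), pi_fn3 f (hl a (by simp)) (hl b (by simp)) (hl c (by simp))]
  exact UF.cl (F := pZ) (f := fun _ v => f (vr v 0) (vr v 1) (vr v 2)) N hN
    (cons (pi M a) (cons (pi M b) fun _ => pi M c))
    (cons_mem ((k a (by simp)).1 ha) (cons_mem ((k b (by simp)).1 hb)
      fun _ => (k c (by simp)).1 hc))

theorem d0_isZ {N : Set V} [hN : IsZFC N] (hord : ∀ o : Ordinal.{0}, o.toZFSet ∈ N)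
    (h : HasRefl N) : IsZ (Cl N) := by
  have h0 : (∅ : V) ∈ Cl N := subset_cl N hord (IsZ.empty_mem N)
  have hl : ∀ l : List V, (∀ x ∈ l, x ∈ Cl N) → listZ l ∈ Cl N := fun l => by
    induction l with
    | nil => exact fun _ => h0
    | cons a l ih =>
      intro k
      obtain ⟨k1, k2⟩ := List.forall_mem_cons.1 k
      exact d0_fn3 h (fun a b _ => pair a b) k1 (ih k2) k1
  refine z3d_isZ.2 ⟨cl_trans N, subset_cl N hord hN.omega,
    fun a ha b hb => d0_fn3 h (fun a b _ => {a, b}) ha hb ha,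
    fun a ha => d0_fn3 h (fun a _ _ => ⋃₀ a) ha ha ha, fun φ l k a ha => ?_,
    fun φ l _ a _ k => ?_⟩
  · obtain ⟨γ, g0, hγ⟩ := d0_bound (a :: l)
    obtain ⟨β, hβ, H⟩ := exists_reflect (Cl N) γ
    have e : ZFSet.sep (fun x => Sat1 (Cl N) φ (env (x :: l))) a = ZFSet.sep
        (fun x => Sat1 (Vs (Cl N) β : V) φ (env (x :: (dec (listZ l) : List V)))) a := by
      rw [show (dec (listZ l) : List V) = l from dec_enc l]
      ext x
      simp only [mem_sep]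
      refine and_congr_right fun hx => (H φ _ (env_mem (M := (Vs (Cl N) β : V))
        (mem_Vs.2 ⟨h0, by rw [rank_empty]; exact g0.trans hβ⟩) (List.forall_mem_cons.2
          ⟨mem_Vs.2 ⟨cl_trans N a ha x hx, ?_⟩, fun y hy => mem_Vs.2 ⟨k y hy, ?_⟩⟩))).symm
      · exact ((rank_lt_of_mem hx).trans (hγ a (by simp))).trans hβ
      · exact (hγ y (by simp [hy])).trans hβ
    rw [e]
    exact d0_fn3 h (fun W p a => ZFSet.sep
      (fun x => Sat1 (W : V) φ (env (x :: (dec p : List V)))) a) (Vs_mem_cl hord h β) (hl l k) ha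
  · have k' : ∀ x : V, ∃ y, x ∈ a → y ∈ Cl N ∧ Sat1 (Cl N) φ (env (y :: x :: l)) := fun x => by
      by_cases hx : x ∈ a
      · exact (k x hx).imp fun _ j _ => j
      · exact ⟨∅, fun j => absurd j hx⟩
    choose g hg using k'
    exact ⟨_, Vs_mem_cl hord h (img g a).rank, fun x hx => ⟨g x, mem_Vs.2
      ⟨(hg x hx).1, rank_lt_of_mem (mem_img.2 ⟨x, hx, rfl⟩)⟩, (hg x hx).2⟩⟩

theorem zfc_cl {N : Set V} [IsZFC N] (hord : ∀ o : Ordinal.{0}, o.toZFSet ∈ N)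
    (h : HasRefl N) : IsZFC (Cl N) := by
  haveI hZ := d0_isZ hord h
  refine { hZ with wo := fun a ha => ?_, pow := fun a _ => ⟨_,
    Vs_mem_cl hord h (Order.succ a.rank), fun x hx k =>
      mem_Vs.2 ⟨hx, Order.lt_succ_of_le (rank_mono k)⟩⟩ }
  obtain ⟨γ, -, hγ⟩ := d0_bound [a, prod a a]
  obtain ⟨M, _, _, hl, R⟩ := h [a, prod a a] γ
  have aM : a ∈ M := hl _ (by simp)
  obtain ⟨w, hw, wo⟩ := exists_isWO N ((R.mr a aM (hγ _ (by simp))).1 ha)
  obtain ⟨u, uM, rfl⟩ := R.onto w hw ((rank_mono wo.1).trans_lt (by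
    rw [← pi_fn2 prod aM aM]
    exact (pi_rank_lt (hl _ (by simp)) R.γM).2 (hγ _ (by simp))))
  have wu : IsWO u a := (pi_iff2 IsWO uM aM).1 wo
  haveI : In (Cl N) u := ⟨(R.mr u uM ((rank_mono wu.1).trans_lt (hγ _ (by simp)))).2 hw⟩
  haveI : In (Cl N) a := ⟨ha⟩
  refine ⟨lam a fun x => (wpos u x).toZFSet, memV_of (Cl N) _,
    (img (fun x => (wpos u x).toZFSet) a).rank, isInj_lam (fun x hx => ?_) fun x hx y hy e =>
      wu.wpos_inj hx hy (toZFSet_injective e)⟩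
  simpa only [toZFSet_mem_toZFSet_iff, rank_toZFSet] using
    rank_lt_of_mem (mem_img.2 ⟨x, hx, rfl⟩ : _ ∈ img (fun x => (wpos u x).toZFSet) a)

theorem inner_cl {N : Set V} (hN : InnerModel N) (h : HasRefl N) : InnerModel (Cl N) := by
  haveI := hN.zfc
  refine ⟨zfc_cl hN.ord h, fun o => subset_cl N hN.ord (hN.ord o), ?_⟩
  obtain ⟨χ, w, hw⟩ := hN.defn
  haveI : UV (par Set.univ) (fun _ _ => w) :=
    ⟨fun i => uf_constP (w i) (h := ⟨Set.mem_univ _⟩)⟩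
  haveI : UC (par Set.univ) (fun _ _ => N) := ⟨fun _ e _ _ => e ▸ Set.subset_univ _,
    (inferInstance : UD (par Set.univ) fun _ v => Sat1 Set.univ χ (cons (vr v 0) w)).congr
      fun _ _ _ _ => hw _⟩
  obtain ⟨φ, c, -, H⟩ := (uc_cl (C := Set.univ) (N := N)).gr.out
  obtain ⟨ψ, hψ⟩ := sat_sw Set.univ φ c (fun _ => ∅) 1
  refine ⟨ψ, mrg (fun _ => ∅) c, fun y => ?_⟩
  rw [← pre_one, ← hψ, pre_one]
  exact H _ rfl (cons y fun _ => ∅) fun _ => trivial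

end Pool.Agent.Lib.MP_f00570_lc
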