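import Pool.Agent.Lib.MP_f00570_lc.C0
import Pool.Agent.Lib.MP_f00570_lc.B1

/-!
# `ω₂` is supercompact in the approximation closure
-/

namespace Pool.Agent.Lib.MP_f00570_lc

open Pool.Agent.Lib.MP_f9eb18_lc Pool.Agent.Lib.MP_f9eb18_lc.W Ordinal ZFSet
set_option linter.style.haveILetI false
set_option linter.unusedVariables false

theorem d1_lt {o : Ordinal.{0}} : o < ω_ 2 ↔ o.toZFSet.card ≤ Cardinal.aleph 1 := by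
  have e : Cardinal.aleph.{0} 2 = Order.succ (Cardinal.aleph 1) := by
    rw [Cardinal.succ_aleph, one_add_one_eq_two]
  rw [card_toZFSet, ← Cardinal.ord_aleph, Cardinal.lt_ord, e, Order.lt_succ_iff]

/-- a set `U` that agrees on `M` with the principal ultrafilter at `M ∩ λ` is normal and fine -/
theorem d1_normal {K : Set V} [IsZFC K] {M p U : V} [hM : ES M] [UC (par M) (fun _ _ => K)]
    {lam : Ordinal.{0}} (h1 : omega1Z ⊆ M) (hp : p ∈ M) (hU : U ∈ M) (hl : lam.toZFSet ∈ M)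
    (hk : (ω_ 2 : Ordinal.{0}).toZFSet ∈ M) (hpK : p ∈ K) (hlK : lam.toZFSet ∈ K)
    (hs : M ∩ lam.toZFSet ∈ p)
    (key : ∀ X ∈ M, X ∈ U ↔ X ∈ K ∧ X ⊆ p ∧ M ∩ lam.toZFSet ∈ X) :
    NormalFine K (ω_ 2) lam p U := by
  haveI : In (M : Set V) p := ⟨hp⟩
  haveI : In (M : Set V) U := ⟨hU⟩
  haveI : In (M : Set V) lam := ⟨hl⟩
  haveI : In (M : Set V) (ω_ 2 : Ordinal.{0}) := ⟨hk⟩
  haveI : In K p := ⟨hpK⟩
  refine ⟨all_of M (fun X => X ∈ U → X ⊆ p) fun X hX h => ((key X hX).1 h).2.1,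
    (key p hp).2 ⟨hpK, subset_rfl, hs⟩, fun h => notMem_empty _ ((key _ hM.zero).1 h).2.2,
    all_of M (fun X => X ∈ U → ∀ Y ∈ K, X ⊆ Y → Y ⊆ p → Y ∈ U) fun X hX h => ?_,
    all_of M (fun X => X ∈ K → X ⊆ p → X ∈ U ∨ p \ X ∈ U) fun X hX hK h => ?_,
    all_ord M (fun β => β < ω_ 2 → ∀ f ∈ K, IsFunc β.toZFSet U f →
      ZFSet.sep (fun s => ∀ ξ Y, pair ξ Y ∈ f → s ∈ Y) p ∈ U) fun β hβ h => ?_,
    all_ord M (fun ξ => ξ < lam → ZFSet.sep (fun s => ξ.toZFSet ∈ s) p ∈ U) fun ξ hξ h => ?_,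
    all_of M (fun X => X ∈ U → ∀ f ∈ K, IsFunc X lam.toZFSet f → (∀ s y, pair s y ∈ f → y ∈ s) →
      ∃ y, ZFSet.sep (fun s => pair s y ∈ f) X ∈ U) fun X hX h => ?_⟩
  · haveI : In (M : Set V) X := ⟨hX⟩
    exact all_of M (fun Y => Y ∈ K → X ⊆ Y → Y ⊆ p → Y ∈ U) fun Y hY hK h2 h3 =>
      (key Y hY).2 ⟨hK, h3, h2 ((key X hX).1 h).2.2⟩
  · haveI : In (M : Set V) X := ⟨hX⟩
    haveI : In K X := ⟨hK⟩
    by_cases h2 : M ∩ lam.toZFSet ∈ X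
    · exact Or.inl ((key X hX).2 ⟨hK, h, h2⟩)
    · exact Or.inr ((key _ (memM M _)).2 ⟨memV_of K _, fun _ k => (mem_sdiff.1 k).1,
        mem_sdiff.2 ⟨hs, h2⟩⟩)
  · haveI : In (M : Set V) β := ⟨hβ⟩
    refine all_of M (fun f => f ∈ K → IsFunc β.toZFSet U f →
      ZFSet.sep (fun s => ∀ ξ Y, pair ξ Y ∈ f → s ∈ Y) p ∈ U) fun f hf hK h2 => ?_
    haveI : In (M : Set V) f := ⟨hf⟩
    haveI : In K f := ⟨hK⟩
    refine (key _ (memM M _)).2 ⟨memV_of K _, fun _ k => (mem_sep.1 k).1,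
      mem_sep.2 ⟨hs, fun ξ Y k => ?_⟩⟩
    obtain ⟨h3, h4, h5⟩ := isFunc_iff.1 h2
    have h6 : ξ ∈ β.toZFSet := h4 ▸ mem_dom.2 ⟨Y, k⟩
    haveI : In (M : Set V) ξ := ⟨sm_subset h1 hβ (sm_iff.2 (d1_lt.1 h)) h6⟩
    rw [← h3.app_eq k]
    exact ((key _ (memM M _)).1 (h5 ξ h6)).2.2
  · haveI : In (M : Set V) ξ := ⟨hξ⟩
    have h2 : ξ.toZFSet ∈ lam.toZFSet := toZFSet_mem_toZFSet_iff.2 h
    haveI : In K ξ := ⟨IsZ.trans _ hlK _ h2⟩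
    exact (key _ (memM M _)).2 ⟨memV_of K _, fun _ k => (mem_sep.1 k).1,
      mem_sep.2 ⟨hs, mem_inter.2 ⟨hξ, h2⟩⟩⟩
  · haveI : In (M : Set V) X := ⟨hX⟩
    refine all_of M (fun f => f ∈ K → IsFunc X lam.toZFSet f → (∀ s y, pair s y ∈ f → y ∈ s) →
      ∃ y, ZFSet.sep (fun s => pair s y ∈ f) X ∈ U) fun f hf hK h2 h3 => ?_
    obtain ⟨hXK, hXp, hσ⟩ := (key X hX).1 h
    obtain ⟨h4, h5, -⟩ := isFunc_iff.1 h2
    have h6 := h4.pair_app_mem (h5.symm ▸ hσ)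
    generalize app f (M ∩ lam.toZFSet) = y at h6
    have h7 := mem_inter.1 (h3 _ _ h6)
    haveI : In (M : Set V) f := ⟨hf⟩
    haveI : In (M : Set V) y := ⟨h7.1⟩
    haveI : In K f := ⟨hK⟩
    haveI : In K X := ⟨hXK⟩
    haveI : In K y := ⟨IsZ.trans _ hlK _ h7.2⟩
    exact ⟨y, (key _ (memM M _)).2 ⟨memV_of K _, fun _ k => hXp (mem_sep.1 k).1,
      mem_sep.2 ⟨hσ, h6⟩⟩⟩

theorem supercompact_cl {N : Set V} [IsZFC N] [IsZFC (Cl N)]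
    (hord : ∀ o : Ordinal.{0}, o.toZFSet ∈ N) (h : HasRefl N) : Supercompact (Cl N) (ω_ 2) := by
  have hNK := subset_cl N hord
  refine ⟨?_, fun β hβ ⟨f, _, hf⟩ => ?_, fun lam _ => ?_⟩
  · exact d1_lt.2 (by simp [card_toZFSet])
  · exact lt_irrefl _ (d1_lt.2 ((card_le_of_isInj hf).trans (d1_lt.1 hβ)))
  haveI : In (Cl N) lam := ⟨hNK (hord lam)⟩
  haveI : In (Cl N) (ω_ 2 : Ordinal.{0}) := ⟨hNK (hord _)⟩
  obtain ⟨p, hpK, hp⟩ : ∃ p ∈ Cl N, IsPkl (Cl N) (ω_ 2) lam p :=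
    ⟨ZFSet.sep (fun s => ∃ β < ω_ 2, InjIn (Cl N) s β.toZFSet) (pw (Cl N) lam.toZFSet),
      memV_of _ _, fun s => by rw [mem_sep, mem_pw, and_assoc]; rfl⟩
  haveI : In (Cl N) p := ⟨hpK⟩
  have hQK : pw (Cl N) p ∈ Cl N := memV_of _ _
  obtain ⟨M, _, _, hl, R⟩ := h [p, pw (Cl N) p, lam.toZFSet, (ω_ 2 : Ordinal.{0}).toZFSet]
    (Order.succ (max lam (pw (Cl N) p).rank))
  have hlam := Order.lt_succ_of_le (le_max_left lam (pw (Cl N) p).rank)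
  have hQ := Order.lt_succ_of_le (le_max_right lam (pw (Cl N) p).rank)
  have hQM : pw (Cl N) p ∈ M := hl _ (by simp)
  have hσ : M ∩ lam.toZFSet ∈ Cl N := hNK (R.ord lam hlam)
  have hσl : M ∩ lam.toZFSet ⊆ lam.toZFSet := fun _ k => (mem_inter.1 k).2
  have hσp : M ∩ lam.toZFSet ∈ p := by
    obtain ⟨o, ho, f, hf, hi, hr⟩ := exists_ord_bij hσ
    refine (hp _).2 ⟨hσ, hσl, o, d1_lt.2 ((card_le_of_isInj hi).trans
      ((card_mono fun _ k => (mem_inter.1 k).1).trans (sm_iff.1 R.sm))),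
      injIn_of_surj hf ho hσ fun y hy => ?_⟩
    obtain ⟨x, hx⟩ := mem_ran.1 (hr.symm ▸ hy)
    obtain ⟨h1, h2, -⟩ := isFunc_iff.1 hi.1
    exact ⟨x, h2 ▸ mem_dom.2 ⟨y, hx⟩, h1.app_eq hx⟩
  obtain ⟨U0, hU0, e0⟩ := R.plus _ hσ
    (((rank_mono hσl).trans_eq (rank_toZFSet _)).trans_lt hlam)
  haveI : In N U0 := ⟨hU0⟩
  haveI : In N (pi M (pw (Cl N) p)) := ⟨(R.mr _ hQM hQ).1 hQK⟩
  have h1 : U0 ∩ pi M (pw (Cl N) p) ∈ N := memV_of _ _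
  have h2 := (rank_mono (fun _ k => (mem_inter.1 k).2 :
    U0 ∩ pi M (pw (Cl N) p) ⊆ pi M (pw (Cl N) p))).trans_lt ((pi_rank_lt hQM R.γM).2 hQ)
  obtain ⟨U, hU, e⟩ := R.onto _ h1 h2
  refine ⟨p, hpK, U, (R.mr U hU ((pi_rank_lt hU R.γM).1 (e ▸ h2))).2 (e ▸ h1), hp,
    d1_normal R.om1 (hl _ (by simp)) hU (hl _ (by simp)) (hl _ (by simp)) hpK (hNK (hord _)) hσp
      fun X hX => ?_⟩
  rw [← pi_mem_iff hX hU, e, mem_inter, pi_mem_iff hX hQM, e0]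
  constructor
  · rintro ⟨⟨y, hy, -, -, h3, h4⟩, h5⟩
    exact ⟨(mem_pw.1 h5).1, (mem_pw.1 h5).2, pi_inj hy hX h4 ▸ h3⟩
  · rintro ⟨h3, h4, h5⟩
    exact ⟨⟨X, hX, h3, (rank_lt_of_mem (mem_pw.2 ⟨h3, h4⟩)).trans hQ, h5, rfl⟩, mem_pw.2 ⟨h3, h4⟩⟩

end Pool.Agent.Lib.MP_f00570_lc
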