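import Pool.Agent.Lib.MP_f9eb18_lc.W.Defs

/-!
# PFA, inner models and supercompactness

The ambient universe `W` is `V = ZFSet.{0}`; forcing notions are preorders in `Type`.
`Fo`, `Sat1` are first-order formulas of set theory and their satisfaction relation, `IsZFC N`
says that the class `N` is a transitive model of ZFC, `IsInj f a b` that the set `f` is an
injective function from `a` to `b`, `Ctbl N s` that `s` is countable in `N`, and `O` is `ω₁` as a
type (all from the imported files).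
-/

namespace Pool.Agent.Lib.MP_f00570_lc

open Pool.Agent.Lib.MP_f9eb18_lc Pool.Agent.Lib.MP_f9eb18_lc.W Ordinal ZFSet

/-- `D` is a dense subset of the forcing notion `P`. -/
def IsDense {P : Type*} [Preorder P] (D : Set P) : Prop := ∀ p, ∃ q ∈ D, q ≤ p

/-- `A` is predense below `q`. -/
def Predense {P : Type*} [Preorder P] (A : Set P) (q : P) : Prop :=
  ∀ r ≤ q, ∃ a ∈ A, ∃ s, s ≤ r ∧ s ≤ a

/-- `P` is proper: below every `p` player II wins the proper game.  Player I plays dense sets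
`D 0, D 1, …`; after `D 0, …, D n` player II plays a countable set `σ [D 0, …, D n]`; II wins if
below some `q ≤ p` the conditions played by II that lie in `D k` are predense, for every `k`. -/
def Proper (P : Type*) [Preorder P] : Prop :=
  ∀ p : P, ∃ σ : List (Set P) → Set P, (∀ l, (σ l).Countable) ∧
    ∀ D : ℕ → Set P, (∀ n, IsDense (D n)) →
      ∃ q ≤ p, ∀ k, Predense (D k ∩ ⋃ n, σ ((List.range (n + 1)).map D)) q

/-- The Proper Forcing Axiom (in the ambient universe). -/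
def PFA : Prop :=
  ∀ (P : Type) [Preorder P] [Nonempty P], Proper P → ∀ D : O → Set P, (∀ i, IsDense (D i)) →
    ∃ G : Set P, (∀ p ∈ G, ∀ q ∈ G, ∃ r ∈ G, r ≤ p ∧ r ≤ q) ∧
      (∀ p ∈ G, ∀ q, p ≤ q → q ∈ G) ∧ ∀ i, (G ∩ D i).Nonempty

/-- `N` is a transitive inner model: a transitive model of ZFC that contains all ordinals and is
definable in the universe from parameters. -/
structure InnerModel (N : Set V) : Prop where
  zfc : IsZFC N
  ord : ∀ o : Ordinal.{0}, o.toZFSet ∈ N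
  defn : ∃ (φ : Fo) (v : ℕ → V), ∀ x, x ∈ N ↔ Sat1 Set.univ φ (cons x v)

/-- The ordinals in `c` below `ζ > 0` are cofinal in `ζ`, strictly (so `ζ` is a limit). -/
def AccPt (c : V) (ζ : Ordinal.{0}) : Prop :=
  0 < ζ ∧ ∀ ξ < ζ, ∃ η < ζ, ξ < η ∧ η.toZFSet ∈ c

/-- `c` is a closed unbounded subset of `γ`. -/
def Club (c : V) (γ : Ordinal.{0}) : Prop :=
  c ⊆ γ.toZFSet ∧ AccPt c γ ∧ ∀ ζ < γ, AccPt c ζ → ζ.toZFSet ∈ c

/-- `S` meets every club of `γ` that lies in `N`, that is, `S` is stationary in `γ` in `N`. -/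
def Stat (N : Set V) (S : V) (γ : Ordinal.{0}) : Prop := ∀ c ∈ N, Club c γ → ∃ x ∈ S, x ∈ c

/-- `ζ` is a limit ordinal of cofinality `ω` in `N`. -/
def CofW (N : Set V) (ζ : Ordinal.{0}) : Prop := ∃ b ∈ N, Ctbl N b ∧ AccPt b ζ

/-- Covering: every countable `x ⊆ N` is contained in some `a ∈ N` that has at most `ℵ₁` subsets
in `N` (countability and the cardinal `ℵ₁` are those of the universe). -/
def Cover (N : Set V) : Prop :=
  ∀ x : Set V, x.Countable → x ⊆ N → ∃ a ∈ N, x ⊆ (a : Set V) ∧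
    Cardinal.mk {b : V // b ∈ N ∧ b ⊆ a} ≤ Cardinal.aleph 1

/-- Preservation of stationary sets: if `γ` has uncountable cofinality and `S ∈ N` is a set of
ordinals below `γ` of cofinality `ω` in `N` that is stationary in `γ` in `N`, then `S` is
stationary in `γ` in the universe. -/
def StatPres (N : Set V) : Prop :=
  ∀ γ : Ordinal.{0}, Cardinal.aleph0 < γ.cof → ∀ S ∈ N,
    (∀ x ∈ S, ∃ ζ < γ, x = ζ.toZFSet ∧ CofW N ζ) → Stat N S γ → Stat Set.univ S γ

/-- `p` is `P_κ(λ)` as computed in `K`. -/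
def IsPkl (K : Set V) (κ lam : Ordinal.{0}) (p : V) : Prop :=
  ∀ s, s ∈ p ↔ s ∈ K ∧ s ⊆ lam.toZFSet ∧ ∃ β < κ, ∃ f ∈ K, IsInj f s β.toZFSet

/-- In `K`, `U` is a normal fine `κ`-complete ultrafilter on `p`, a set of subsets of `λ`. -/
structure NormalFine (K : Set V) (κ lam : Ordinal.{0}) (p U : V) : Prop where
  sub : ∀ X ∈ U, X ⊆ p
  top : p ∈ U
  bot : (∅ : V) ∉ U
  up : ∀ X ∈ U, ∀ Y ∈ K, X ⊆ Y → Y ⊆ p → Y ∈ U
  ultra : ∀ X ∈ K, X ⊆ p → X ∈ U ∨ p \ X ∈ U
  complete : ∀ β < κ, ∀ f ∈ K, IsFunc β.toZFSet U f →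
    ZFSet.sep (fun s => ∀ ξ Y, pair ξ Y ∈ f → s ∈ Y) p ∈ U
  fine : ∀ ξ < lam, ZFSet.sep (fun s => ξ.toZFSet ∈ s) p ∈ U
  normal : ∀ X ∈ U, ∀ f ∈ K, IsFunc X lam.toZFSet f → (∀ s y, pair s y ∈ f → y ∈ s) →
    ∃ y, ZFSet.sep (fun s => pair s y ∈ f) X ∈ U

/-- `κ` is supercompact in `K`: an uncountable cardinal of `K` such that for every `λ ≥ κ` there
is in `K` a normal fine `κ`-complete ultrafilter on `P_κ(λ)`. -/
def Supercompact (K : Set V) (κ : Ordinal.{0}) : Prop :=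
  ω < κ ∧ (∀ β < κ, ¬ ∃ f ∈ K, IsInj f κ.toZFSet β.toZFSet) ∧
    ∀ lam, κ ≤ lam → ∃ p ∈ K, ∃ U ∈ K, IsPkl K κ lam p ∧ NormalFine K κ lam p U

end Pool.Agent.Lib.MP_f00570_lc
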