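import Pool.Agent.Lib.MP_f00570_lc.Defs
import Pool.Agent.Lib.MP_f9eb18_lc.W.Z6

/-!
# The interface between the forcing part and the inner model part: guessing sets
-/

namespace Pool.Agent.Lib.MP_f00570_lc

open Pool.Agent.Lib.MP_f9eb18_lc Pool.Agent.Lib.MP_f9eb18_lc.W Ordinal ZFSet

/-- `Q` is closed under the set-valued operation `f` on finite tuples -/
def Closed {α : Type*} (f : List α → Set α) (Q : Set α) : Prop :=
  ∀ l, (∀ x ∈ l, x ∈ Q) → f l ⊆ Q

/-- `M` has size `ℵ₁`, contains `ω₁`, is closed under `op`, internally unbounded and guesses the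
subsets of `z` that it approximates -/
structure GSet (z : V) (op : List V → Set V) (M : V) : Prop where
  cl : Closed op (M : Set V)
  om1 : omega1Z ⊆ M
  card : M.card ≤ Cardinal.aleph 1
  iu : ∀ x : Set V, x.Countable → x ⊆ M → ∃ y ∈ M, (y : Set V).Countable ∧ x ⊆ y
  guess : ∀ d ⊆ z, (∀ x ∈ M, (x : Set V).Countable → d ∩ x ∈ M) →
    ∃ e ∈ M, ∀ t ∈ M, (t ∈ e ↔ t ∈ d)

/-- there are stationarily many guessing sets -/
def GM : Prop := ∀ (z : V) (op : List V → Set V), (∀ l, (op l).Countable) → ∃ M, GSet z op M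

end Pool.Agent.Lib.MP_f00570_lc
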