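import Pool.Agent.Lib.MP_f00570_lc.A4
import Pool.Agent.Lib.MP_f00570_lc.C1
import Pool.Agent.Lib.MP_f00570_lc.D0
import Pool.Agent.Lib.MP_f00570_lc.D1

/-!
# The main theorem
-/

namespace Pool.Agent.Lib.MP_f00570_lc

open Pool.Agent.Lib.MP_f9eb18_lc Pool.Agent.Lib.MP_f9eb18_lc.W Ordinal ZFSet

theorem main (hP : PFA) (N : Set V) (hN : InnerModel N) (hC : Cover N) (hS : StatPres N) :
    ∃ K : Set V, InnerModel K ∧ N ⊆ K ∧ Supercompact K (ω_ 2) := by
  have h := hasRefl (gm_of_pfa hP) hN hC hS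
  have := hN.zfc
  have := (inner_cl hN h).zfc
  exact ⟨Cl N, inner_cl hN h, subset_cl N hN.ord, supercompact_cl hN.ord h⟩

end Pool.Agent.Lib.MP_f00570_lc
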